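import Pool.Agent.N554.SL.PsiInt

/-!
Gaussian approximation of the product kernel and the second moments.
-/

set_option autoImplicit false

namespace Pool.Agent.N554.SL

open Finset

/-- the variance of a coordinate -/
noncomputable def VV (D : ℕ) : ℝ := D * (D + 1) / 3

lemma VV_nonneg (D : ℕ) : 0 ≤ VV D := by unfold VV; positivity

lemma VV_le {D : ℕ} (hD : 1 ≤ D) : VV D ≤ 2 / 3 * (D : ℝ) ^ 2 := by
  have : (1 : ℝ) ≤ D := by exact_mod_cast hD
  unfold VV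
  nlinarith

lemma sum_sq_aux (n : ℕ) (c : ℝ) : ∑ i ∈ range n, ((i : ℝ) - c) ^ 2
    = n * c ^ 2 - c * (n * (n - 1)) + (n - 1) * n * (2 * n - 1) / 6 := by
  induction n with
  | zero => simp
  | succ n ih =>
    rw [Finset.sum_range_succ, ih]
    push_cast
    ring

lemma sum_xr_sq (D : ℕ) : ∑ i : Fi D, xr D i ^ 2 = nn D * VV D := by
  have h1 : ∑ i : Fi D, xr D i ^ 2 = ∑ i ∈ range (2 * D + 1), ((i : ℝ) - D) ^ 2 := by
    rw [← Fin.sum_univ_eq_sum_range (fun i => ((i : ℝ) - D) ^ 2)]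
    rfl
  rw [h1, sum_sq_aux]
  unfold nn VV
  push_cast
  ring

lemma sum_xr (D : ℕ) : ∑ i : Fi D, xr D i = 0 := by
  have h1 : ∑ i : Fi D, xr D i = ∑ i : Fi D, xr D i.rev :=
    (Equiv.sum_comp Fin.revPerm (fun i => xr D i)).symm
  have h2 : ∑ i : Fi D, xr D i.rev = - ∑ i : Fi D, xr D i := by
    rw [← Finset.sum_neg_distrib]
    exact Finset.sum_congr rfl fun i _ => xr_rev D i
  linarith

lemma pi_sq_le : Real.pi ^ 2 ≤ 9.87 := by
  have h1 := Real.pi_lt_d4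
  have h2 := Real.pi_pos
  nlinarith

/-- approximation of one factor -/
lemma sk_approx {D : ℕ} (hD : 1 ≤ D) (t : ℝ) (ht : 2 * Real.pi * |t| * D ≤ 1) :
    |sk D t - Real.exp (-(2 * Real.pi ^ 2 * VV D * t ^ 2))| ≤ 260 * t ^ 4 * (D : ℝ) ^ 4 := by
  have hn := nn_pos D
  have hpi := Real.pi_pos
  have hpi2 := pi_sq_le
  have hD' : (1 : ℝ) ≤ D := by exact_mod_cast hD
  set p : ℝ := Real.pi ^ 2 with hp
  have hp0 : 0 ≤ p := by positivity
  have hp4 : p ^ 2 ≤ 97.42 := by nlinarith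
  have hts : 4 * p * t ^ 2 * (D : ℝ) ^ 2 ≤ 1 := by
    have : (2 * Real.pi * |t| * D) ^ 2 ≤ 1 ^ 2 := pow_le_pow_left₀ (by positivity) ht 2
    rw [mul_pow, mul_pow, mul_pow, sq_abs, ← hp] at this
    linarith
  -- the cosine part
  have h1 : ∀ i : Fi D, |Real.cos (2 * Real.pi * (t * xr D i))
      - (1 - 2 * p * t ^ 2 * xr D i ^ 2)| ≤ 82 * t ^ 4 * (D : ℝ) ^ 4 := by
    intro i
    have hx := xr_abs_le D i
    have h2 : |2 * Real.pi * (t * xr D i)| ≤ 2 * Real.pi * |t| * D := by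
      rw [abs_mul, abs_of_pos (by positivity : (0 : ℝ) < 2 * Real.pi), abs_mul]
      calc 2 * Real.pi * (|t| * |xr D i|) ≤ 2 * Real.pi * (|t| * D) := by gcongr
        _ = 2 * Real.pi * |t| * D := by ring
    have h3 := Real.cos_bound (h2.trans ht)
    have h4 : (2 * Real.pi * (t * xr D i)) ^ 2 / 2 = 2 * p * t ^ 2 * xr D i ^ 2 := by
      rw [hp]; ring
    rw [h4] at h3
    refine h3.trans ?_
    have h5 : |2 * Real.pi * (t * xr D i)| ^ 4 ≤ (2 * Real.pi * |t| * D) ^ 4 :=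
      pow_le_pow_left₀ (abs_nonneg _) h2 4
    have h6 : (2 * Real.pi * |t| * D) ^ 4 = 16 * p ^ 2 * (t ^ 4 * (D : ℝ) ^ 4) := by
      rw [hp]
      rw [mul_pow, mul_pow, mul_pow, show |t| ^ 4 = (|t| ^ 2) ^ 2 by ring, sq_abs]
      ring
    rw [h6] at h5
    have h7 : 0 ≤ t ^ 4 * (D : ℝ) ^ 4 := by positivity
    nlinarith
  have h8 : nn D * sk D t - nn D * (1 - 2 * p * VV D * t ^ 2)
      = ∑ i : Fi D, (Real.cos (2 * Real.pi * (t * xr D i)) - (1 - 2 * p * t ^ 2 * xr D i ^ 2)) := by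
    rw [Finset.sum_sub_distrib, Finset.sum_sub_distrib, ← Finset.mul_sum, sum_xr_sq]
    unfold sk
    rw [mul_div_cancel₀ _ hn.ne', Finset.sum_const, nsmul_eq_mul, card_fin_nn]
    ring
  have h9 : nn D * |sk D t - (1 - 2 * p * VV D * t ^ 2)| ≤ nn D * (82 * t ^ 4 * (D : ℝ) ^ 4) := by
    rw [← abs_of_pos hn, ← abs_mul, abs_of_pos hn, mul_sub, h8]
    refine (Finset.abs_sum_le_sum_abs _ _).trans ?_
    refine (Finset.sum_le_sum fun i _ => h1 i).trans ?_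
    rw [Finset.sum_const, nsmul_eq_mul, card_fin_nn]
  have h10 : |sk D t - (1 - 2 * p * VV D * t ^ 2)| ≤ 82 * t ^ 4 * (D : ℝ) ^ 4 :=
    le_of_mul_le_mul_left h9 hn
  -- the exponential part
  have hV0 := VV_nonneg D
  have hV := VV_le hD
  set u : ℝ := 2 * p * VV D * t ^ 2 with hu
  have hu0 : 0 ≤ u := by positivity
  have hu1 : u ≤ 4 / 3 * p * t ^ 2 * (D : ℝ) ^ 2 := by
    rw [hu]
    have : 0 ≤ p * t ^ 2 := by positivity
    nlinarith
  have h11 : |Real.exp (-u) - 1 - (-u)| ≤ (-u) ^ 2 := by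
    apply Real.abs_exp_sub_one_sub_id_le
    rw [abs_neg, abs_of_nonneg hu0]
    nlinarith
  have h12 : (-u) ^ 2 ≤ 174 * (t ^ 4 * (D : ℝ) ^ 4) := by
    have h13 : u ^ 2 ≤ (4 / 3 * p * t ^ 2 * (D : ℝ) ^ 2) ^ 2 := pow_le_pow_left₀ hu0 hu1 2
    have h14 : (4 / 3 * p * t ^ 2 * (D : ℝ) ^ 2) ^ 2 = 16 / 9 * p ^ 2 * (t ^ 4 * (D : ℝ) ^ 4) := by
      ring
    rw [h14] at h13
    have h7 : 0 ≤ t ^ 4 * (D : ℝ) ^ 4 := by positivity
    nlinarith
  have h15 : |sk D t - Real.exp (-u)| ≤ |sk D t - (1 - u)| + |Real.exp (-u) - 1 - (-u)| := by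
    have : sk D t - Real.exp (-u) = (sk D t - (1 - u)) - (Real.exp (-u) - 1 - (-u)) := by ring
    rw [this]
    exact abs_sub _ _
  have h7 : 0 ≤ t ^ 4 * (D : ℝ) ^ 4 := by positivity
  nlinarith

lemma abs_prod_sub_prod_le {ι : Type*} (s : Finset ι) (a b : ι → ℝ) (ha : ∀ i ∈ s, |a i| ≤ 1)
    (hb : ∀ i ∈ s, |b i| ≤ 1) : |∏ i ∈ s, a i - ∏ i ∈ s, b i| ≤ ∑ i ∈ s, |a i - b i| := by
  classical
  induction s using Finset.induction_on with
  | empty => simp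
  | insert j s hj ih =>
    rw [Finset.prod_insert hj, Finset.prod_insert hj, Finset.sum_insert hj]
    have h1 := ih (fun i hi => ha i (mem_insert_of_mem hi)) (fun i hi => hb i (mem_insert_of_mem hi))
    have h2 : |∏ i ∈ s, a i| ≤ 1 := by
      rw [Finset.abs_prod]
      exact Finset.prod_le_one (fun _ _ => abs_nonneg _) fun i hi => ha i (mem_insert_of_mem hi)
    have h3 := hb j (mem_insert_self _ _)
    have h4 : a j * ∏ i ∈ s, a i - b j * ∏ i ∈ s, b i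
        = (a j - b j) * ∏ i ∈ s, a i + b j * (∏ i ∈ s, a i - ∏ i ∈ s, b i) := by ring
    rw [h4]
    refine (abs_add_le _ _).trans ?_
    rw [abs_mul, abs_mul]
    have h5 := abs_nonneg (a j - b j)
    have h6 := abs_nonneg (∏ i ∈ s, a i - ∏ i ∈ s, b i)
    nlinarith

/-- approximation of the product kernel -/
lemma pk_approx {k D : ℕ} (hD : 1 ≤ D) (h : Fin k → ℝ) (H : ℝ) (hH : ∀ j, |h j| ≤ H)
    (hH1 : 2 * Real.pi * H * D ≤ 1) :
    |pk D h - Real.exp (-(2 * Real.pi ^ 2 * VV D * ∑ j, h j ^ 2))|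
      ≤ k * (260 * H ^ 4 * (D : ℝ) ^ 4) := by
  have hpi := Real.pi_pos
  have e1 : Real.exp (-(2 * Real.pi ^ 2 * VV D * ∑ j, h j ^ 2))
      = ∏ j, Real.exp (-(2 * Real.pi ^ 2 * VV D * h j ^ 2)) := by
    rw [← Real.exp_sum, Finset.mul_sum, Finset.sum_neg_distrib]
  rw [e1]
  unfold pk
  refine (abs_prod_sub_prod_le _ _ _ (fun j _ => sk_abs_le _ _) (fun j _ => ?_)).trans ?_
  · rw [abs_of_pos (Real.exp_pos _), Real.exp_le_one_iff]
    have := VV_nonneg D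
    have h2 : 0 ≤ 2 * Real.pi ^ 2 * VV D * h j ^ 2 := by positivity
    linarith
  · have h2 : ∀ j ∈ (Finset.univ : Finset (Fin k)),
        |sk D (h j) - Real.exp (-(2 * Real.pi ^ 2 * VV D * h j ^ 2))|
          ≤ 260 * H ^ 4 * (D : ℝ) ^ 4 := by
      intro j _
      have h3 : 2 * Real.pi * |h j| * D ≤ 1 := by
        refine le_trans ?_ hH1
        have := hH j
        gcongr
      refine (sk_approx hD (h j) h3).trans ?_
      have h4 : h j ^ 4 ≤ H ^ 4 := by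
        have := pow_le_pow_left₀ (abs_nonneg (h j)) (hH j) 4
        rwa [show |h j| ^ 4 = (|h j| ^ 2) ^ 2 by ring, sq_abs, ← pow_mul] at this
      gcongr
    refine (Finset.sum_le_sum h2).trans ?_
    simp

lemma exp_neg_sub {l u v : ℝ} (hl : 0 ≤ l) (hu : 0 ≤ u) (hv : 0 ≤ v) :
    |Real.exp (-(l * u)) - Real.exp (-(l * v))| ≤ l * |u - v| := by
  have key : ∀ u v : ℝ, 0 ≤ u → u ≤ v →
      |Real.exp (-(l * u)) - Real.exp (-(l * v))| ≤ l * |u - v| := by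
    intro u v hu huv
    have h1 : Real.exp (-(l * v)) = Real.exp (-(l * u)) * Real.exp (-(l * (v - u))) := by
      rw [← Real.exp_add]; congr 1; ring
    have h2 : Real.exp (-(l * u)) ≤ 1 := by
      rw [Real.exp_le_one_iff]
      have : 0 ≤ l * u := by positivity
      linarith
    have h3 := Real.add_one_le_exp (-(l * (v - u)))
    have h4 := Real.exp_pos (-(l * u))
    have h5 : 0 ≤ l * (v - u) := mul_nonneg hl (by linarith)
    have h6 : Real.exp (-(l * (v - u))) ≤ 1 := by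
      rw [Real.exp_le_one_iff]
      linarith
    rw [h1, abs_of_nonneg (by nlinarith), abs_of_nonpos (by linarith : u - v ≤ 0)]
    nlinarith
  rcases le_total u v with h | h
  · exact key u v hu h
  · rw [abs_sub_comm, abs_sub_comm u v]
    exact key v u hv h

/-- the second moment of a sum of independent centred variables -/
lemma second_moment {Ω : Type*} [Fintype Ω] (φ : Ω → ℝ) (h0 : ∑ x, φ x = 0) (k : ℕ) :
    (Fintype.card Ω : ℝ) * ∑ a : Fin k → Ω, (∑ j, φ (a j)) ^ 2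
      = k * (Fintype.card Ω : ℝ) ^ k * ∑ x, φ x ^ 2 := by
  induction k with
  | zero => simp
  | succ k ih =>
    have e1 : ∑ a : Fin (k + 1) → Ω, (∑ j, φ (a j)) ^ 2
        = ∑ x : Ω, ∑ a : Fin k → Ω, (φ x + ∑ j, φ (a j)) ^ 2 := by
      rw [← Fintype.sum_prod_type (fun p : Ω × (Fin k → Ω) => (φ p.1 + ∑ j, φ (p.2 j)) ^ 2)]
      rw [← (Fin.consEquiv (fun _ : Fin (k + 1) => Ω)).sum_comp]
      refine Finset.sum_congr rfl fun p _ => ?_
      rw [Fin.sum_univ_succ]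
      simp [Fin.consEquiv]
    have e2 : ∑ x : Ω, ∑ a : Fin k → Ω, (φ x + ∑ j, φ (a j)) ^ 2
        = (Fintype.card Ω : ℝ) ^ k * ∑ x, φ x ^ 2
          + (Fintype.card Ω : ℝ) * ∑ a : Fin k → Ω, (∑ j, φ (a j)) ^ 2 := by
      have e3 : ∀ x : Ω, ∑ a : Fin k → Ω, (φ x + ∑ j, φ (a j)) ^ 2
          = (Fintype.card Ω : ℝ) ^ k * φ x ^ 2 + φ x * (2 * ∑ a : Fin k → Ω, ∑ j, φ (a j))
            + ∑ a : Fin k → Ω, (∑ j, φ (a j)) ^ 2 := by
        intro x
        have : ∀ a : Fin k → Ω, (φ x + ∑ j, φ (a j)) ^ 2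
            = φ x ^ 2 + φ x * (2 * ∑ j, φ (a j)) + (∑ j, φ (a j)) ^ 2 := by
          intro a; ring
        rw [Finset.sum_congr rfl fun a _ => this a, Finset.sum_add_distrib, Finset.sum_add_distrib,
          ← Finset.mul_sum, ← Finset.mul_sum, Finset.sum_const, nsmul_eq_mul, Finset.card_univ,
          Fintype.card_fun, Fintype.card_fin]
        push_cast
        ring
      rw [Finset.sum_congr rfl fun x _ => e3 x, Finset.sum_add_distrib, Finset.sum_add_distrib,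
        ← Finset.mul_sum, ← Finset.sum_mul, h0, Finset.sum_const, nsmul_eq_mul, Finset.card_univ]
      ring
    rw [e1, e2, mul_add, ih]
    push_cast
    ring

lemma second_moment_le {Ω : Type*} [Fintype Ω] [Nonempty Ω] (φ : Ω → ℝ) (h0 : ∑ x, φ x = 0)
    (k : ℕ) {B : ℝ} (hB : ∀ x, |φ x| ≤ B) :
    ∑ a : Fin k → Ω, (∑ j, φ (a j)) ^ 2 ≤ k * (Fintype.card Ω : ℝ) ^ k * B ^ 2 := by
  have hc : (0 : ℝ) < Fintype.card Ω := by exact_mod_cast Fintype.card_pos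
  have h1 : ∑ x, φ x ^ 2 ≤ (Fintype.card Ω : ℝ) * B ^ 2 := by
    have : ∀ x ∈ (Finset.univ : Finset Ω), φ x ^ 2 ≤ B ^ 2 := by
      intro x _
      rw [← sq_abs]
      exact pow_le_pow_left₀ (abs_nonneg _) (hB x) 2
    refine (Finset.sum_le_sum this).trans ?_
    simp
  have h2 := second_moment φ h0 k
  have h3 : (Fintype.card Ω : ℝ) * ∑ a : Fin k → Ω, (∑ j, φ (a j)) ^ 2
      ≤ (Fintype.card Ω : ℝ) * (k * (Fintype.card Ω : ℝ) ^ k * B ^ 2) := by
    rw [h2]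
    have h4 : 0 ≤ k * (Fintype.card Ω : ℝ) ^ k := by positivity
    nlinarith
  exact le_of_mul_le_mul_left h3 hc

lemma first_moment_le {Ω : Type*} [Fintype Ω] [Nonempty Ω] (φ : Ω → ℝ) (h0 : ∑ x, φ x = 0)
    (κ : ℕ) {B : ℝ} (hB : ∀ x, |φ x| ≤ B) :
    ∑ a : Fin (4 * κ ^ 2) → Ω, |∑ j, φ (a j)|
      ≤ 2 * κ * (Fintype.card Ω : ℝ) ^ (4 * κ ^ 2) * B := by
  have hB0 : 0 ≤ B := (abs_nonneg _).trans (hB (Classical.arbitrary Ω))
  have h1 := second_moment_le φ h0 (4 * κ ^ 2) hB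
  have h2 := sq_sum_le_card_mul_sum_sq (s := (Finset.univ : Finset (Fin (4 * κ ^ 2) → Ω)))
    (f := fun a => |∑ j, φ (a j)|)
  have h3 : (∑ a : Fin (4 * κ ^ 2) → Ω, |∑ j, φ (a j)|) ^ 2
      ≤ (2 * κ * (Fintype.card Ω : ℝ) ^ (4 * κ ^ 2) * B) ^ 2 := by
    refine h2.trans ?_
    rw [Finset.card_univ, Fintype.card_fun, Fintype.card_fin]
    simp only [sq_abs]
    push_cast at h1 ⊢
    have h4 : 0 ≤ (Fintype.card Ω : ℝ) ^ (4 * κ ^ 2) := by positivity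
    calc (Fintype.card Ω : ℝ) ^ (4 * κ ^ 2) * ∑ a : Fin (4 * κ ^ 2) → Ω, (∑ j, φ (a j)) ^ 2
        ≤ (Fintype.card Ω : ℝ) ^ (4 * κ ^ 2) *
          (4 * (κ : ℝ) ^ 2 * (Fintype.card Ω : ℝ) ^ (4 * κ ^ 2) * B ^ 2) := by gcongr
      _ = (2 * κ * (Fintype.card Ω : ℝ) ^ (4 * κ ^ 2) * B) ^ 2 := by ring
  exact (sq_le_sq₀ (by positivity) (by positivity)).1 h3

end Pool.Agent.N554.SL
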