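import Mathlib

/-!
The number of solutions of `h₁ k₁ + h₂ k₂ + h₃ k₃ = 0` in a box is at most a constant times the
fourth power of its side.
-/

set_option autoImplicit false

namespace Pool.Agent.N554.SL

open Finset

/-- the homomorphism `(u, v) ↦ u x + v y` modulo `H` -/
def lin (H : ℕ) (x y : ZMod H) : ZMod H × ZMod H →+ ZMod H where
  toFun p := p.1 * x + p.2 * y
  map_zero' := by simp
  map_add' p q := by simp; ring

lemma card_ker_le (H : ℕ) [NeZero H] (x y : ℤ) :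
    Nat.card (lin H (x : ZMod H) (y : ZMod H)).ker ≤ H * Nat.gcd H (Int.gcd x y) := by
  have hH : 0 < H := Nat.pos_of_ne_zero (NeZero.ne H)
  set f := lin H (x : ZMod H) (y : ZMod H) with hf
  set g := Nat.gcd H (Int.gcd x y) with hg
  have hgpos : 0 < g := Nat.gcd_pos_of_pos_left _ hH
  have hgd : g ∣ H := Nat.gcd_dvd_left _ _
  have h1 : Nat.card f.ker * Nat.card f.range = H * H := by
    rw [← AddSubgroup.index_ker, AddSubgroup.card_mul_index, Nat.card_prod, Nat.card_zmod]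
  have h2 : AddSubgroup.zmultiples ((Int.gcd x y : ℕ) : ZMod H) ≤ f.range := by
    rw [AddSubgroup.zmultiples_le]
    refine ⟨((Int.gcdA x y : ℤ), (Int.gcdB x y : ℤ)), ?_⟩
    have h3 := Int.gcd_eq_gcd_ab x y
    have h4 : (((Int.gcd x y : ℕ) : ℤ) : ZMod H)
        = ((x * Int.gcdA x y + y * Int.gcdB x y : ℤ) : ZMod H) := by rw [h3]
    simp only [hf, lin, AddMonoidHom.coe_mk, ZeroHom.coe_mk]
    push_cast at h4
    rw [h4]
    ring
  have h3 : H / g ≤ Nat.card f.range := by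
    have h4 : Nat.card (AddSubgroup.zmultiples ((Int.gcd x y : ℕ) : ZMod H)) = H / g := by
      rw [Nat.card_zmultiples, ZMod.addOrderOf_coe _ hH.ne']
    rw [← h4]
    exact Nat.card_le_card_of_injective _ (AddSubgroup.inclusion_injective h2)
  have h4 : g * (H / g) = H := Nat.mul_div_cancel' hgd
  have h5 : 0 < H / g := Nat.div_pos (Nat.le_of_dvd hH hgd) hgpos
  have h6 : Nat.card f.ker * (H / g) ≤ (H * g) * (H / g) := by
    calc Nat.card f.ker * (H / g) ≤ Nat.card f.ker * Nat.card f.range :=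
          Nat.mul_le_mul_left _ h3
      _ = H * H := h1
      _ = (H * g) * (H / g) := by rw [mul_assoc, h4]
  exact Nat.le_of_mul_le_mul_right h6 h5

lemma fiber_card (H : ℕ) [NeZero H] (u : ZMod H) :
    #{h ∈ Icc (-(H : ℤ)) H | ((h : ℤ) : ZMod H) = u} ≤ 3 := by
  have hH : 0 < H := Nat.pos_of_ne_zero (NeZero.ne H)
  have hH' : (0 : ℤ) < H := by exact_mod_cast hH
  have h1 : #{h ∈ Icc (-(H : ℤ)) H | ((h : ℤ) : ZMod H) = u} ≤ #(Icc (-1 : ℤ) 1) := by
    apply Finset.card_le_card_of_injOn (fun h : ℤ => h / (H : ℤ))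
    · intro h hh
      simp only [coe_filter, mem_Icc, Set.mem_ofPred_eq] at hh
      simp only [coe_Icc, Set.mem_Icc]
      constructor
      · rw [Int.le_ediv_iff_mul_le hH']; linarith
      · exact Int.ediv_le_of_le_mul hH' (by linarith)
    · intro a ha b hb hab
      simp only [coe_filter, mem_Icc, Set.mem_ofPred_eq] at ha hb
      have h2 : ((a : ℤ) : ZMod H) = ((b : ℤ) : ZMod H) := ha.2.trans hb.2.symm
      rw [ZMod.intCast_eq_intCast_iff] at h2
      have h3 : a % H = b % H := h2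
      have h4 : a / H = b / H := hab
      rw [← Int.mul_ediv_add_emod a H, ← Int.mul_ediv_add_emod b H, h3, h4]
  exact h1.trans (by decide)

lemma pair_card (H : ℕ) [NeZero H] (x y : ℤ) :
    #{p ∈ Icc (-(H : ℤ)) H ×ˢ Icc (-(H : ℤ)) H | (H : ℤ) ∣ p.1 * x + p.2 * y}
      ≤ 9 * (H * Nat.gcd H (Int.gcd x y)) := by
  classical
  have h1 : #{p ∈ Icc (-(H : ℤ)) H ×ˢ Icc (-(H : ℤ)) H | (H : ℤ) ∣ p.1 * x + p.2 * y}
      ≤ 9 * #{q : ZMod H × ZMod H | lin H (x : ZMod H) (y : ZMod H) q = 0} := by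
    apply Finset.card_le_mul_card_image_of_maps_to
      (f := fun p : ℤ × ℤ => (((p.1 : ℤ) : ZMod H), ((p.2 : ℤ) : ZMod H)))
    · intro p hp
      simp only [mem_filter, mem_product] at hp
      refine Finset.mem_filter.2 ⟨mem_univ _, ?_⟩
      have := (ZMod.intCast_zmod_eq_zero_iff_dvd (p.1 * x + p.2 * y) H).2 hp.2
      push_cast at this
      exact this
    · intro q _
      have h2 : ({a ∈ ({p ∈ Icc (-(H : ℤ)) H ×ˢ Icc (-(H : ℤ)) H |
          (H : ℤ) ∣ p.1 * x + p.2 * y} : Finset (ℤ × ℤ)) |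
          (((a.1 : ℤ) : ZMod H), ((a.2 : ℤ) : ZMod H)) = q} : Finset (ℤ × ℤ))
          ⊆ ({h ∈ Icc (-(H : ℤ)) H | ((h : ℤ) : ZMod H) = q.1} : Finset ℤ) ×ˢ
            ({h ∈ Icc (-(H : ℤ)) H | ((h : ℤ) : ZMod H) = q.2} : Finset ℤ) := by
        intro a ha
        simp only [mem_filter, mem_product, mem_Icc] at ha ⊢
        have h3 := Prod.ext_iff.1 ha.2
        exact ⟨⟨ha.1.1.1, h3.1⟩, ⟨ha.1.1.2, h3.2⟩⟩
      refine (Finset.card_le_card h2).trans ?_
      rw [Finset.card_product]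
      exact (Nat.mul_le_mul (fiber_card H q.1) (fiber_card H q.2)).trans (by norm_num)
  refine h1.trans (Nat.mul_le_mul_left _ ?_)
  refine le_trans (le_of_eq ?_) (card_ker_le H x y)
  rw [Nat.card_eq_fintype_card, Fintype.card_subtype]
  congr 1
  ext q
  simp only [mem_filter, mem_univ, true_and]
  exact (AddMonoidHom.mem_ker).symm

lemma count_dvd {m d : ℕ} (hd : 1 ≤ d) (hm : d ≤ m) :
    #{k ∈ Icc (-(m : ℤ)) m | (d : ℤ) ∣ k} ≤ 3 * (m / d) := by
  have hd' : (0 : ℤ) < d := by exact_mod_cast hd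
  have h0 : 1 ≤ m / d := Nat.div_pos hm hd
  have h1 : #{k ∈ Icc (-(m : ℤ)) m | (d : ℤ) ∣ k} ≤ #(Icc (-((m / d : ℕ) : ℤ)) ((m / d : ℕ) : ℤ)) := by
    apply Finset.card_le_card_of_injOn (fun h : ℤ => h / (d : ℤ))
    · intro h hh
      simp only [coe_filter, mem_Icc, Set.mem_ofPred_eq] at hh
      obtain ⟨⟨h2, h3⟩, ⟨c, rfl⟩⟩ := hh
      simp only [coe_Icc, Set.mem_Icc]
      rw [Int.mul_ediv_cancel_left _ hd'.ne']
      push_cast
      constructor
      · have : -c ≤ (m : ℤ) / d := by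
          rw [Int.le_ediv_iff_mul_le hd']; linarith
        linarith
      · rw [Int.le_ediv_iff_mul_le hd']; linarith
    · intro a ha b hb hab
      simp only [coe_filter, mem_Icc, Set.mem_ofPred_eq] at ha hb
      have h4 : a / d = b / d := hab
      rw [← Int.ediv_mul_cancel ha.2, ← Int.ediv_mul_cancel hb.2, h4]
  refine h1.trans ?_
  rw [Int.card_Icc]
  omega

lemma sum_gcd {m H : ℕ} (hH : 1 ≤ H) (hm : H ≤ m) :
    ∑ x ∈ Icc (-(m : ℤ)) m, ∑ y ∈ Icc (-(m : ℤ)) m, Nat.gcd H (Int.gcd x y)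
      ≤ ∑ d ∈ H.divisors, d * (9 * (m / d) ^ 2) := by
  classical
  have h1 : ∀ x y : ℤ, Nat.gcd H (Int.gcd x y)
      ≤ ∑ d ∈ H.divisors, d * ((if (d : ℤ) ∣ x then 1 else 0) * (if (d : ℤ) ∣ y then 1 else 0)) := by
    intro x y
    set g := Nat.gcd H (Int.gcd x y) with hg
    have hmem : g ∈ H.divisors := by
      rw [Nat.mem_divisors]
      exact ⟨Nat.gcd_dvd_left _ _, by omega⟩
    have h2 : (g : ℤ) ∣ x :=
      (Int.natCast_dvd_natCast.2 (Nat.gcd_dvd_right H _)).trans (Int.gcd_dvd_left x y)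
    have h3 : (g : ℤ) ∣ y :=
      (Int.natCast_dvd_natCast.2 (Nat.gcd_dvd_right H _)).trans (Int.gcd_dvd_right x y)
    refine le_trans (le_of_eq ?_) (Finset.single_le_sum (f := fun d : ℕ => d *
      ((if (d : ℤ) ∣ x then 1 else 0) * (if (d : ℤ) ∣ y then 1 else 0)))
      (fun _ _ => Nat.zero_le _) hmem)
    simp [h2, h3]
  calc ∑ x ∈ Icc (-(m : ℤ)) m, ∑ y ∈ Icc (-(m : ℤ)) m, Nat.gcd H (Int.gcd x y)
      ≤ ∑ x ∈ Icc (-(m : ℤ)) m, ∑ y ∈ Icc (-(m : ℤ)) m, ∑ d ∈ H.divisors,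
        d * ((if (d : ℤ) ∣ x then 1 else 0) * (if (d : ℤ) ∣ y then 1 else 0)) :=
        Finset.sum_le_sum fun x _ => Finset.sum_le_sum fun y _ => h1 x y
    _ = ∑ d ∈ H.divisors, d * (#{k ∈ Icc (-(m : ℤ)) m | (d : ℤ) ∣ k} *
          #{k ∈ Icc (-(m : ℤ)) m | (d : ℤ) ∣ k}) := by
        rw [Finset.sum_congr rfl fun x _ => Finset.sum_comm, Finset.sum_comm]
        refine Finset.sum_congr rfl fun d _ => ?_
        rw [Finset.card_filter, Finset.sum_mul_sum, Finset.mul_sum]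
        refine Finset.sum_congr rfl fun x _ => ?_
        rw [Finset.mul_sum]
    _ ≤ ∑ d ∈ H.divisors, d * (9 * (m / d) ^ 2) := by
        refine Finset.sum_le_sum fun d hd => Nat.mul_le_mul_left _ ?_
        have hd1 : 1 ≤ d := Nat.pos_of_mem_divisors hd
        have hd2 : d ≤ m := (Nat.divisor_le hd).trans hm
        have := count_dvd hd1 hd2
        calc _ ≤ (3 * (m / d)) * (3 * (m / d)) := Nat.mul_le_mul this this
          _ = 9 * (m / d) ^ 2 := by ring

end Pool.Agent.N554.SL
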