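import Pool.Agent.N554.SL.Count

/-!
The count of the solutions of `h₁ k₁ + h₂ k₂ + h₃ k₃ = 0` in a box, continued.
-/

set_option autoImplicit false

namespace Pool.Agent.N554.SL

open Finset

/-- triples of integers -/
abbrev Z3 : Type := ℤ × ℤ × ℤ

/-- the cube -/
noncomputable def cube (m : ℕ) : Finset Z3 := Icc (-(m : ℤ)) m ×ˢ Icc (-(m : ℤ)) m ×ˢ Icc (-(m : ℤ)) m

/-- the bilinear form on triples -/
def b3 (h k : Z3) : ℤ := h.1 * k.1 + h.2.1 * k.2.1 + h.2.2 * k.2.2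

/-- the solutions whose first coordinate is largest in absolute value -/
noncomputable def P1 (m : ℕ) : Finset (Z3 × Z3) :=
  {p ∈ cube m ×ˢ cube m | p.1.1 ≠ 0 ∧ |p.1.2.1| ≤ |p.1.1| ∧ |p.1.2.2| ≤ |p.1.1| ∧ b3 p.1 p.2 = 0}

lemma P1_fiber (m : ℕ) (c x y : ℤ) (hc : c ≠ 0) :
    #{p ∈ P1 m | (p.1.1, (p.2.2.1, p.2.2.2)) = (c, (x, y))}
      ≤ 9 * (c.natAbs * Nat.gcd c.natAbs (Int.gcd x y)) := by
  have : NeZero c.natAbs := ⟨by omega⟩
  refine le_trans ?_ (pair_card c.natAbs x y)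
  apply Finset.card_le_card_of_injOn (fun p : Z3 × Z3 => (p.1.2.1, p.1.2.2))
  · intro p hp
    simp only [P1, cube, coe_filter, mem_filter, mem_product, Set.mem_ofPred_eq, Prod.mk.injEq] at hp
    obtain ⟨⟨_, _, h2, h3, h4⟩, rfl, rfl, rfl⟩ := hp
    simp only [coe_filter, mem_product, mem_Icc, Set.mem_ofPred_eq, Int.natCast_natAbs]
    refine ⟨⟨abs_le.1 h2, abs_le.1 h3⟩, ?_⟩
    rw [abs_dvd]
    unfold b3 at h4
    exact ⟨-p.2.1, by linarith⟩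
  · intro p hp q hq hpq
    simp only [P1, cube, coe_filter, mem_filter, mem_product, Set.mem_ofPred_eq, Prod.mk.injEq]
      at hp hq hpq
    obtain ⟨⟨_, _, _, _, h4⟩, h5, h6, h7⟩ := hp
    obtain ⟨⟨_, _, _, _, g4⟩, g5, g6, g7⟩ := hq
    obtain ⟨⟨p1, p2, p3⟩, ⟨q1, q2, q3⟩⟩ := p
    obtain ⟨⟨r1, r2, r3⟩, ⟨s1, s2, s3⟩⟩ := q
    simp only at h4 h5 h6 h7 g4 g5 g6 g7 hpq
    obtain ⟨rfl, rfl⟩ := hpq
    subst h5 h6 h7 g5 g6 g7
    unfold b3 at h4 g4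
    simp only at h4 g4
    have : r1 * q1 = r1 * s1 := by linarith
    have := mul_left_cancel₀ hc this
    simp [this]

lemma P1_card (m : ℕ) : #(P1 m) ≤ ∑ c ∈ (Icc (-(m : ℤ)) m).filter (· ≠ 0),
    81 * (c.natAbs * ∑ d ∈ c.natAbs.divisors, d * (m / d) ^ 2) := by
  classical
  rw [Finset.card_eq_sum_card_fiberwise (f := fun p : Z3 × Z3 => (p.1.1, (p.2.2.1, p.2.2.2)))
    (t := ((Icc (-(m : ℤ)) m).filter (· ≠ 0)) ×ˢ (Icc (-(m : ℤ)) m ×ˢ Icc (-(m : ℤ)) m))]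
  · rw [Finset.sum_product]
    refine Finset.sum_le_sum fun c hc => ?_
    rw [mem_filter, mem_Icc] at hc
    rw [Finset.sum_product]
    have h1 : 1 ≤ c.natAbs := by omega
    have h2 : c.natAbs ≤ m := by omega
    calc ∑ x ∈ Icc (-(m : ℤ)) m, ∑ y ∈ Icc (-(m : ℤ)) m,
          #{p ∈ P1 m | (p.1.1, (p.2.2.1, p.2.2.2)) = (c, (x, y))}
        ≤ ∑ x ∈ Icc (-(m : ℤ)) m, ∑ y ∈ Icc (-(m : ℤ)) m,
          9 * (c.natAbs * Nat.gcd c.natAbs (Int.gcd x y)) :=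
          Finset.sum_le_sum fun x _ => Finset.sum_le_sum fun y _ => P1_fiber m c x y hc.2
      _ = 9 * (c.natAbs * ∑ x ∈ Icc (-(m : ℤ)) m, ∑ y ∈ Icc (-(m : ℤ)) m,
            Nat.gcd c.natAbs (Int.gcd x y)) := by
          simp only [Finset.mul_sum]
      _ ≤ 9 * (c.natAbs * ∑ d ∈ c.natAbs.divisors, d * (9 * (m / d) ^ 2)) := by
          gcongr
          exact sum_gcd h1 h2
      _ = 81 * (c.natAbs * ∑ d ∈ c.natAbs.divisors, d * (m / d) ^ 2) := by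
          simp only [Finset.mul_sum]
          refine Finset.sum_congr rfl fun d _ => ?_
          ring
  · intro p hp
    simp only [P1, cube, coe_filter, mem_product, Set.mem_ofPred_eq] at hp
    simp only [coe_product, coe_filter, Set.mem_prod, Set.mem_ofPred_eq]
    exact ⟨⟨hp.1.1.1, hp.2.1⟩, hp.1.2.2.1, hp.1.2.2.2⟩

lemma sum_nonzero (m : ℕ) (F : ℕ → ℕ) : ∑ c ∈ (Icc (-(m : ℤ)) m).filter (· ≠ 0), F c.natAbs
    ≤ 2 * ∑ H ∈ Ioc 0 m, F H := by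
  classical
  have h1 : (Icc (-(m : ℤ)) m).filter (· ≠ 0) ⊆ (Ioc 0 m).image (fun H : ℕ => (H : ℤ)) ∪
      (Ioc 0 m).image (fun H : ℕ => -(H : ℤ)) := by
    intro c hc
    rw [mem_filter, mem_Icc] at hc
    rw [mem_union, mem_image, mem_image]
    rcases lt_or_gt_of_ne hc.2 with h | h
    · right
      exact ⟨c.natAbs, by rw [mem_Ioc]; omega, by omega⟩
    · left
      exact ⟨c.natAbs, by rw [mem_Ioc]; omega, by omega⟩
  refine (Finset.sum_le_sum_of_subset h1).trans ?_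
  have h2 := Finset.sum_union_inter (s₁ := (Ioc 0 m).image (fun H : ℕ => (H : ℤ)))
    (s₂ := (Ioc 0 m).image (fun H : ℕ => -(H : ℤ))) (f := fun c : ℤ => F c.natAbs)
  have h3 : ∑ c ∈ (Ioc 0 m).image (fun H : ℕ => (H : ℤ)), F c.natAbs = ∑ H ∈ Ioc 0 m, F H := by
    rw [Finset.sum_image]
    · exact Finset.sum_congr rfl fun H _ => by simp
    · intro a _ b _ hab
      have : (a : ℤ) = b := hab
      exact_mod_cast this
  have h4 : ∑ c ∈ (Ioc 0 m).image (fun H : ℕ => -(H : ℤ)), F c.natAbs = ∑ H ∈ Ioc 0 m, F H := by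
    rw [Finset.sum_image]
    · exact Finset.sum_congr rfl fun H _ => by simp
    · intro a _ b _ hab
      have : (a : ℤ) = b := by simpa using hab
      exact_mod_cast this
  rw [h3, h4] at h2
  omega

lemma sum_div (m : ℕ) : ∑ H ∈ Ioc 0 m, H * ∑ d ∈ H.divisors, d * (m / d) ^ 2
    ≤ m * ∑ d ∈ Ioc 0 m, d * (m / d) ^ 3 := by
  classical
  have h1 : ∀ H ∈ Ioc 0 m, H * ∑ d ∈ H.divisors, d * (m / d) ^ 2
      ≤ m * ∑ d ∈ Ioc 0 m, if d ∣ H then d * (m / d) ^ 2 else 0 := by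
    intro H hH
    rw [mem_Ioc] at hH
    refine Nat.mul_le_mul hH.2 ?_
    rw [← Finset.sum_filter]
    refine Finset.sum_le_sum_of_subset ?_
    intro d hd
    rw [Nat.mem_divisors] at hd
    rw [mem_filter, mem_Ioc]
    exact ⟨⟨Nat.pos_of_dvd_of_pos hd.1 hH.1, (Nat.le_of_dvd hH.1 hd.1).trans hH.2⟩, hd.1⟩
  refine (Finset.sum_le_sum h1).trans ?_
  rw [← Finset.mul_sum, Finset.sum_comm]
  refine Nat.mul_le_mul_left _ (Finset.sum_le_sum fun d _ => ?_)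
  rw [← Finset.sum_filter, Finset.sum_const, Nat.Ioc_filter_dvd_card_eq_div, smul_eq_mul]
  exact le_of_eq (by ring)

lemma sum_div_real (m : ℕ) : ((∑ d ∈ Ioc 0 m, d * (m / d) ^ 3 : ℕ) : ℝ) ≤ 2 * (m : ℝ) ^ 3 := by
  push_cast
  have h1 : ∀ d ∈ Ioc 0 m, (d : ℝ) * (((m / d : ℕ) : ℝ)) ^ 3 ≤ (m : ℝ) ^ 3 * ((d : ℝ) ^ 2)⁻¹ := by
    intro d hd
    rw [mem_Ioc] at hd
    have hd' : (0 : ℝ) < d := by exact_mod_cast hd.1
    have h2 : ((m / d : ℕ) : ℝ) ≤ m / d := Nat.cast_div_le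
    calc (d : ℝ) * (((m / d : ℕ) : ℝ)) ^ 3 ≤ d * ((m : ℝ) / d) ^ 3 := by gcongr
      _ = (m : ℝ) ^ 3 * ((d : ℝ) ^ 2)⁻¹ := by field_simp
  refine (Finset.sum_le_sum h1).trans ?_
  rw [← Finset.mul_sum, mul_comm]
  refine mul_le_mul_of_nonneg_right ?_ (by positivity)
  have h3 := sum_Ioo_inv_sq_le (α := ℝ) 0 (m + 1)
  have h4 : Ioo 0 (m + 1) = Ioc 0 m := by ext; simp only [mem_Ioo, mem_Ioc]; omega
  rw [h4] at h3
  simpa using h3

lemma P1_card_real (m : ℕ) : (#(P1 m) : ℝ) ≤ 324 * (m : ℝ) ^ 4 := by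
  have h1 := P1_card m
  have h2 : ∑ c ∈ (Icc (-(m : ℤ)) m).filter (· ≠ 0),
      81 * (c.natAbs * ∑ d ∈ c.natAbs.divisors, d * (m / d) ^ 2)
      ≤ 2 * ∑ H ∈ Ioc 0 m, 81 * (H * ∑ d ∈ H.divisors, d * (m / d) ^ 2) :=
    sum_nonzero m (fun H => 81 * (H * ∑ d ∈ H.divisors, d * (m / d) ^ 2))
  have h2' : ∑ H ∈ Ioc 0 m, 81 * (H * ∑ d ∈ H.divisors, d * (m / d) ^ 2)
      = 81 * ∑ H ∈ Ioc 0 m, (H * ∑ d ∈ H.divisors, d * (m / d) ^ 2) := by
    rw [Finset.mul_sum]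
  rw [h2'] at h2
  have h3 := sum_div m
  have h4 : #(P1 m) ≤ 162 * (m * ∑ d ∈ Ioc 0 m, d * (m / d) ^ 3) := by
    have := h1.trans h2
    omega
  have h5 : (#(P1 m) : ℝ) ≤ ((162 * (m * ∑ d ∈ Ioc 0 m, d * (m / d) ^ 3) : ℕ) : ℝ) := by
    exact_mod_cast h4
  refine h5.trans ?_
  rw [Nat.cast_mul, Nat.cast_mul]
  have h6 := sum_div_real m
  have h7 : (0 : ℝ) ≤ m := Nat.cast_nonneg _
  calc ((162 : ℕ) : ℝ) * ((m : ℝ) * ((∑ d ∈ Ioc 0 m, d * (m / d) ^ 3 : ℕ) : ℝ))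
      ≤ ((162 : ℕ) : ℝ) * ((m : ℝ) * (2 * (m : ℝ) ^ 3)) := by gcongr
    _ = 324 * (m : ℝ) ^ 4 := by push_cast; ring

/-- all solutions in the box -/
noncomputable def sols (m : ℕ) : Finset (Z3 × Z3) := {p ∈ cube m ×ˢ cube m | b3 p.1 p.2 = 0}

lemma cube_card (m : ℕ) : (#(cube m) : ℝ) = (2 * m + 1) ^ 3 := by
  unfold cube
  rw [Finset.card_product, Finset.card_product, Int.card_Icc]
  have : ((m : ℤ) + 1 - -(m : ℤ)).toNat = 2 * m + 1 := by omega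
  rw [this]
  push_cast
  ring

lemma sols_card {m : ℕ} (hm : 1 ≤ m) : (#(sols m) : ℝ) ≤ 1000 * (m : ℝ) ^ 4 := by
  classical
  set sw2 : Z3 → Z3 := fun h => (h.2.1, h.1, h.2.2) with hsw2
  set sw3 : Z3 → Z3 := fun h => (h.2.2, h.2.1, h.1) with hsw3
  set P2 : Finset (Z3 × Z3) := {p ∈ sols m | (sw2 p.1, sw2 p.2) ∈ P1 m} with hP2
  set P3 : Finset (Z3 × Z3) := {p ∈ sols m | (sw3 p.1, sw3 p.2) ∈ P1 m} with hP3
  set P0 : Finset (Z3 × Z3) := {((0, 0, 0) : Z3)} ×ˢ cube m with hP0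
  have h1 : sols m ⊆ P0 ∪ (P1 m ∪ (P2 ∪ P3)) := by
    rintro ⟨⟨a, b, c⟩, ⟨x, y, z⟩⟩ hp
    have hp' := hp
    have hp2 := Finset.mem_filter.1 hp
    simp only [cube, b3, mem_product, mem_Icc] at hp2
    obtain ⟨⟨⟨⟨h1, h2⟩, ⟨h3, h4⟩, h5, h6⟩, ⟨h7, h8⟩, ⟨h9, h10⟩, h11, h12⟩, heq⟩ := hp2
    by_cases h0 : a = 0 ∧ b = 0 ∧ c = 0
    · obtain ⟨rfl, rfl, rfl⟩ := h0
      apply mem_union_left
      simp only [hP0, mem_product, mem_singleton, cube, mem_Icc, true_and]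
      exact ⟨⟨h7, h8⟩, ⟨h9, h10⟩, h11, h12⟩
    · apply mem_union_right
      have hcase : (|b| ≤ |a| ∧ |c| ≤ |a|) ∨ (|a| ≤ |b| ∧ |c| ≤ |b|) ∨ (|b| ≤ |c| ∧ |a| ≤ |c|) := by
        rcases le_total |a| |b| with u | u <;> rcases le_total |b| |c| with v | v <;>
          rcases le_total |a| |c| with w | w <;>
          first
          | exact Or.inl ⟨by linarith, by linarith⟩
          | exact Or.inr (Or.inl ⟨by linarith, by linarith⟩)
          | exact Or.inr (Or.inr ⟨by linarith, by linarith⟩)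
      rcases hcase with ⟨u, v⟩ | ⟨u, v⟩ | ⟨u, v⟩
      · apply mem_union_left
        refine Finset.mem_filter.2 ?_
        simp only [cube, b3, mem_product, mem_Icc]
        refine ⟨⟨⟨⟨h1, h2⟩, ⟨h3, h4⟩, h5, h6⟩, ⟨h7, h8⟩, ⟨h9, h10⟩, h11, h12⟩, ?_, u, v, heq⟩
        rintro rfl
        rw [abs_zero, abs_nonpos_iff] at u v
        exact h0 ⟨rfl, u, v⟩
      · apply mem_union_right
        apply mem_union_left
        rw [hP2, mem_filter]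
        refine ⟨hp', ?_⟩
        refine Finset.mem_filter.2 ?_
        simp only [cube, b3, hsw2, mem_product, mem_Icc]
        refine ⟨⟨⟨⟨h3, h4⟩, ⟨h1, h2⟩, h5, h6⟩, ⟨h9, h10⟩, ⟨h7, h8⟩, h11, h12⟩, ?_, u, v,
          by linarith⟩
        rintro rfl
        rw [abs_zero, abs_nonpos_iff] at u v
        exact h0 ⟨u, rfl, v⟩
      · apply mem_union_right
        apply mem_union_right
        rw [hP3, mem_filter]
        refine ⟨hp', ?_⟩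
        refine Finset.mem_filter.2 ?_
        simp only [cube, b3, hsw3, mem_product, mem_Icc]
        refine ⟨⟨⟨⟨h5, h6⟩, ⟨h3, h4⟩, h1, h2⟩, ⟨h11, h12⟩, ⟨h9, h10⟩, h7, h8⟩, ?_, u, v,
          by linarith⟩
        rintro rfl
        rw [abs_zero, abs_nonpos_iff] at u v
        exact h0 ⟨v, u, rfl⟩
  have h2 : #P2 ≤ #(P1 m) := by
    apply Finset.card_le_card_of_injOn (fun p : Z3 × Z3 => (sw2 p.1, sw2 p.2))
    · intro p hp
      exact (mem_filter.1 hp).2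
    · rintro ⟨⟨a, b, c⟩, ⟨x, y, z⟩⟩ _ ⟨⟨a', b', c'⟩, ⟨x', y', z'⟩⟩ _ h
      simp only [hsw2, Prod.mk.injEq] at h ⊢
      tauto
  have h3 : #P3 ≤ #(P1 m) := by
    apply Finset.card_le_card_of_injOn (fun p : Z3 × Z3 => (sw3 p.1, sw3 p.2))
    · intro p hp
      exact (mem_filter.1 hp).2
    · rintro ⟨⟨a, b, c⟩, ⟨x, y, z⟩⟩ _ ⟨⟨a', b', c'⟩, ⟨x', y', z'⟩⟩ _ h
      simp only [hsw3, Prod.mk.injEq] at h ⊢
      tauto
  have h4 : #(sols m) ≤ #(cube m) + 3 * #(P1 m) := by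
    have e1 := Finset.card_le_card h1
    have e2 := Finset.card_union_le P0 (P1 m ∪ (P2 ∪ P3))
    have e3 := Finset.card_union_le (P1 m) (P2 ∪ P3)
    have e4 := Finset.card_union_le P2 P3
    have e5 : #P0 = #(cube m) := by
      rw [hP0, Finset.card_product, Finset.card_singleton, one_mul]
    omega
  have h5 : (#(sols m) : ℝ) ≤ #(cube m) + 3 * #(P1 m) := by exact_mod_cast h4
  rw [cube_card] at h5
  have h6 := P1_card_real m
  have h7 : (1 : ℝ) ≤ m := by exact_mod_cast hm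
  have h8 : (2 * (m : ℝ) + 1) ^ 3 ≤ 27 * (m : ℝ) ^ 4 := by
    calc (2 * (m : ℝ) + 1) ^ 3 ≤ (3 * (m : ℝ)) ^ 3 := by gcongr; linarith
      _ = 27 * (m : ℝ) ^ 3 := by ring
      _ ≤ 27 * (m : ℝ) ^ 4 := by
        have := pow_le_pow_right₀ h7 (show 3 ≤ 4 by norm_num)
        linarith
  nlinarith [pow_nonneg (zero_le_one.trans h7) 4]

end Pool.Agent.N554.SL
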