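import Pool.Agent.N554.SL.Main

/-!
Two dense subsets of a shell of the box realise every admissible squared distance.
-/

set_option autoImplicit false

namespace Pool.Agent.N554.SL

open Finset Complex MeasureTheory

/-- the squared norm -/
def sqz {k D : ℕ} (a : Fin k → Fi D) : ℤ := ∑ j, xz D (a j) ^ 2

/-- the squared distance -/
def dist2 {k D : ℕ} (a b : Fin k → Fi D) : ℤ := ∑ j, (xz D (a j) - xz D (b j)) ^ 2

/-- the integer phase -/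
def mm {k D : ℕ} (N : ℤ) (a b : Fin k → Fi D) : ℤ := (N - dist2 a b) / 2

/-- the first weight -/
noncomputable def fA {k D : ℕ} (A : Finset (Fin k → Fi D)) (θ : ℝ) (a : Fin k → Fi D) : ℂ :=
  if a ∈ A then E (-(θ * (sqz a : ℤ) / 2)) else 0

/-- the second weight -/
noncomputable def gB {k D : ℕ} (B : Finset (Fin k → Fi D)) (N : ℤ) (θ : ℝ) (b : Fin k → Fi D) : ℂ :=
  if b ∈ B then E (θ * ((N : ℤ) - (sqz b : ℤ)) / 2) else 0

lemma fA_norm {k D : ℕ} (A : Finset (Fin k → Fi D)) (θ : ℝ) (a : Fin k → Fi D) :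
    ‖fA A θ a‖ ≤ 1 := by
  unfold fA
  split_ifs
  · rw [E_norm]
  · simp

lemma gB_norm {k D : ℕ} (B : Finset (Fin k → Fi D)) (N : ℤ) (θ : ℝ) (b : Fin k → Fi D) :
    ‖gB B N θ b‖ ≤ 1 := by
  unfold gB
  split_ifs
  · rw [E_norm]
  · simp

lemma dist2_real {k D : ℕ} (a b : Fin k → Fi D) :
    ((dist2 a b : ℤ) : ℝ) = (sqz a : ℤ) + (sqz b : ℤ) - 2 * ∑ j, xr D (a j) * xr D (b j) := by
  unfold dist2 sqz
  push_cast
  rw [Finset.mul_sum, ← Finset.sum_add_distrib, ← Finset.sum_sub_distrib]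
  refine Finset.sum_congr rfl fun j _ => ?_
  rw [xr_eq, xr_eq]
  ring

lemma mm_real {k D : ℕ} {N : ℤ} {a b : Fin k → Fi D} (h : (2 : ℤ) ∣ N - dist2 a b) :
    ((mm N a b : ℤ) : ℝ) = ((N : ℤ) - (sqz a : ℤ) - (sqz b : ℤ)) / 2
      + ∑ j, xr D (a j) * xr D (b j) := by
  unfold mm
  rw [Int.cast_div h (by norm_num)]
  push_cast
  rw [dist2_real]
  ring

lemma bilin_eq {k D : ℕ} (A B : Finset (Fin k → Fi D)) (N : ℤ) (θ : ℝ)
    (hpar : ∀ a ∈ A, ∀ b ∈ B, (2 : ℤ) ∣ N - dist2 a b) :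
    ∑ b, gB B N θ b * GG (fA A θ) θ b = ∑ b ∈ B, ∑ a ∈ A, E (θ * (mm N a b : ℤ)) := by
  classical
  have h1 : ∀ b, gB B N θ b * GG (fA A θ) θ b
      = if b ∈ B then ∑ a ∈ A, E (θ * (mm N a b : ℤ)) else 0 := by
    intro b
    by_cases hb : b ∈ B
    · rw [if_pos hb]
      unfold gB GG
      rw [if_pos hb]
      have h2 : ∀ a, fA A θ a * E (dt (fun j => θ * xr D (a j)) b)
          = if a ∈ A then E (-(θ * (sqz a : ℤ) / 2)) * E (dt (fun j => θ * xr D (a j)) b) else 0 := by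
        intro a
        unfold fA
        split_ifs <;> simp
      rw [Finset.sum_congr rfl fun a _ => h2 a, Finset.sum_ite_mem, Finset.univ_inter,
        Finset.mul_sum]
      refine Finset.sum_congr rfl fun a ha => ?_
      rw [← E_add, ← E_add]
      congr 1
      rw [mm_real (hpar a ha b hb)]
      unfold dt
      rw [mul_add, Finset.mul_sum]
      have h3 : ∑ j, θ * xr D (a j) * xr D (b j) = ∑ j, θ * (xr D (a j) * xr D (b j)) :=
        Finset.sum_congr rfl fun j _ => by ring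
      rw [h3]
      ring
    · rw [if_neg hb]
      unfold gB
      rw [if_neg hb, zero_mul]
  rw [Finset.sum_congr rfl fun b _ => h1 b, Finset.sum_ite_mem, Finset.univ_inter]

lemma prod_sums_re {k D : ℕ} (A B : Finset (Fin k → Fi D)) (N : ℤ) (θ R w : ℝ) (h0 : 0 ≤ θ)
    (hA : ∀ a ∈ A, |((sqz a : ℤ) : ℝ) - R| ≤ w) (hB : ∀ a ∈ B, |((sqz a : ℤ) : ℝ) - R| ≤ w)
    (hN : |(N : ℝ) - 2 * R| ≤ 2 * w) (hw : θ * (2 * w) ≤ 1 / 6) :
    1 / 2 * ((#A : ℝ) * #B) ≤ ((∑ a, fA A θ a) * ∑ b, gB B N θ b).re := by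
  classical
  have e1 : ∑ a, fA A θ a = ∑ a ∈ A, E (-(θ * (sqz a : ℤ) / 2)) := by
    unfold fA
    rw [Finset.sum_ite_mem, Finset.univ_inter]
  have e2 : ∑ b, gB B N θ b = ∑ b ∈ B, E (θ * ((N : ℤ) - (sqz b : ℤ)) / 2) := by
    unfold gB
    rw [Finset.sum_ite_mem, Finset.univ_inter]
  rw [e1, e2, Finset.sum_mul_sum, Complex.re_sum]
  have e3 : ∀ a ∈ A, 1 / 2 * (#B : ℝ)
      ≤ (∑ b ∈ B, E (-(θ * (sqz a : ℤ) / 2)) * E (θ * ((N : ℤ) - (sqz b : ℤ)) / 2)).re := by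
    intro a ha
    rw [Complex.re_sum]
    have e4 : ∀ b ∈ B, (1 / 2 : ℝ)
        ≤ (E (-(θ * (sqz a : ℤ) / 2)) * E (θ * ((N : ℤ) - (sqz b : ℤ)) / 2)).re := by
      intro b hb
      rw [← E_add, E_re]
      have h1 := abs_le.1 (hA a ha)
      have h2 := abs_le.1 (hB b hb)
      have h3 := abs_le.1 hN
      have h4 : |(N : ℝ) - (sqz a : ℤ) - (sqz b : ℤ)| ≤ 4 * w := by
        rw [abs_le]
        constructor <;> linarith [h1.1, h1.2, h2.1, h2.2, h3.1, h3.2]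
      set s : ℝ := (N : ℝ) - (sqz a : ℤ) - (sqz b : ℤ) with hs
      have h5 : 2 * Real.pi * (-(θ * ((sqz a : ℤ) : ℝ) / 2) + θ * (((N : ℤ) : ℝ)
          - ((sqz b : ℤ) : ℝ)) / 2) = Real.pi * (θ * s) := by
        rw [hs]; ring
      rw [h5]
      have h6 : |Real.pi * (θ * s)| ≤ Real.pi / 3 := by
        rw [abs_mul, abs_of_pos Real.pi_pos, abs_mul, abs_of_nonneg h0]
        have : θ * |s| ≤ 1 / 3 := by
          calc θ * |s| ≤ θ * (4 * w) := by gcongr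
            _ ≤ 1 / 3 := by linarith
        have hpi := Real.pi_pos
        nlinarith
      rw [← Real.cos_abs, ← Real.cos_pi_div_three]
      exact Real.cos_le_cos_of_nonneg_of_le_pi (abs_nonneg _)
        (by have := Real.pi_pos; linarith) h6
    refine le_trans (le_of_eq ?_) (Finset.sum_le_sum e4)
    rw [Finset.sum_const, nsmul_eq_mul]
    ring
  refine le_trans (le_of_eq ?_) (Finset.sum_le_sum e3)
  rw [Finset.sum_const, nsmul_eq_mul]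
  ring

/-- the real exponential sum -/
noncomputable def FF {k D : ℕ} (A B : Finset (Fin k → Fi D)) (N : ℤ) (θ : ℝ) : ℝ :=
  ∑ b ∈ B, ∑ a ∈ A, Real.cos (2 * Real.pi * (θ * (mm N a b : ℤ)))

lemma FF_continuous {k D : ℕ} (A B : Finset (Fin k → Fi D)) (N : ℤ) : Continuous (FF A B N) := by
  unfold FF
  fun_prop

lemma FF_eq {k D : ℕ} (A B : Finset (Fin k → Fi D)) (N : ℤ) (θ : ℝ)
    (hpar : ∀ a ∈ A, ∀ b ∈ B, (2 : ℤ) ∣ N - dist2 a b) :
    FF A B N θ = (∑ b, gB B N θ b * GG (fA A θ) θ b).re := by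
  rw [bilin_eq A B N θ hpar, Complex.re_sum]
  unfold FF
  refine Finset.sum_congr rfl fun b _ => ?_
  rw [Complex.re_sum]
  exact Finset.sum_congr rfl fun a _ => (E_re _).symm

lemma int_FF {k D : ℕ} (A B : Finset (Fin k → Fi D)) (N : ℤ)
    (hpar : ∀ a ∈ A, ∀ b ∈ B, (2 : ℤ) ∣ N - dist2 a b)
    (hno : ∀ a ∈ A, ∀ b ∈ B, dist2 a b ≠ N) :
    ∫ θ in (0:ℝ)..(1/2), FF A B N θ = 0 := by
  unfold FF
  rw [intervalIntegral.integral_finsetSum]
  · refine Finset.sum_eq_zero fun b hb => ?_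
    rw [intervalIntegral.integral_finsetSum]
    · refine Finset.sum_eq_zero fun a ha => ?_
      rw [int_cos, if_neg]
      intro h
      obtain ⟨c, hc⟩ := hpar a ha b hb
      have h2 := hno a ha b hb
      unfold mm at h
      rw [hc, Int.mul_ediv_cancel_left _ (by norm_num)] at h
      rw [h] at hc
      omega
    · intro a _
      apply Continuous.intervalIntegrable
      fun_prop
  · intro b _
    apply Continuous.intervalIntegrable
    fun_prop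

/-- the pointwise lower bound by the norm bound -/
lemma FF_ge_Psi {κ D : ℕ} (A B : Finset (Fin (4 * κ ^ 2) → Fi D)) (N : ℤ) (θ : ℝ)
    (hpar : ∀ a ∈ A, ∀ b ∈ B, (2 : ℤ) ∣ N - dist2 a b) :
    -(nn D ^ (8 * κ ^ 2) * Psi D θ ^ (κ ^ 2)) ≤ FF A B N θ := by
  rw [FF_eq A B N θ hpar]
  have h1 := norm_bilin_le (K := κ ^ 2) (fA A θ) (gB B N θ) (fA_norm A θ) (gB_norm B N θ) θ
  have h2 := abs_le.1 (Complex.abs_re_le_norm (∑ b, gB B N θ b * GG (fA A θ) θ b))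
  linarith [h2.1]

/-- the pointwise lower bound on the main arc -/
lemma FF_ge_main {κ D : ℕ} {T θ R : ℝ} (hD : 1 ≤ D) (hT : 1 ≤ T) (hκ : 10 ^ 22 * T ^ 8 ≤ κ)
    (hθ0 : 0 ≤ θ) (hθ1 : θ * (D : ℝ) ^ 2 * κ ≤ T) (A B : Finset (Fin (4 * κ ^ 2) → Fi D)) (N : ℤ)
    (hpar : ∀ a ∈ A, ∀ b ∈ B, (2 : ℤ) ∣ N - dist2 a b)
    (hA : ∀ a ∈ A, |((sqz a : ℤ) : ℝ) - R| ≤ κ * (D : ℝ) ^ 2 / (12 * T))
    (hB : ∀ a ∈ B, |((sqz a : ℤ) : ℝ) - R| ≤ κ * (D : ℝ) ^ 2 / (12 * T))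
    (hN : |(N : ℝ) - 2 * R| ≤ 2 * (κ * (D : ℝ) ^ 2 / (12 * T))) :
    Real.exp (-((2 * Real.pi ^ 2 * VV D * θ ^ 2) * (4 * (κ : ℝ) ^ 2 * VV D)))
        * (1 / 2 * ((#A : ℝ) * #B))
      - nn D ^ (8 * κ ^ 2) * (1 / (4 * 10 ^ 9 * T ^ 3)) ≤ FF A B N θ := by
  rw [FF_eq A B N θ hpar]
  have hT0 : 0 < T := by linarith
  have h1 := main_arc hD hT hκ hθ0 hθ1 (fA A θ) (gB B N θ) (fA_norm A θ) (gB_norm B N θ)
  set γ : ℝ := Real.exp (-((2 * Real.pi ^ 2 * VV D * θ ^ 2) * (4 * (κ : ℝ) ^ 2 * VV D))) with hγ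
  have hγ0 : 0 ≤ γ := (Real.exp_pos _).le
  have h2 := (abs_le.1 ((Complex.abs_re_le_norm _).trans h1)).1
  rw [Complex.sub_re, Complex.re_ofReal_mul] at h2
  have h3 := prod_sums_re A B N θ R (κ * (D : ℝ) ^ 2 / (12 * T)) hθ0 hA hB hN (by
    rw [show θ * (2 * (κ * (D : ℝ) ^ 2 / (12 * T))) = (θ * (D : ℝ) ^ 2 * κ) / (6 * T) by
      field_simp; ring]
    rw [div_le_div_iff₀ (by positivity) (by norm_num)]
    linarith)
  have h4 : γ * (1 / 2 * ((#A : ℝ) * #B)) ≤ γ * ((∑ a, fA A θ a) * ∑ b, gB B N θ b).re :=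
    mul_le_mul_of_nonneg_left h3 hγ0
  linarith

/-- the power of `Psi` on the intermediate arc -/
lemma Psi_pow_mid {κ D : ℕ} {θ : ℝ} (hD : 1 ≤ D) (hκ : 1 ≤ κ) (hθ : 0 < θ)
    (hθ1 : θ * (D : ℝ) ^ 2 ≤ 1 / 2) :
    Psi D θ ^ (κ ^ 2) ≤ 128 / ((κ : ℝ) ^ 4 * (D : ℝ) ^ 8) * θ ^ (-4 : ℤ) := by
  have hD' : (1 : ℝ) ≤ D := by exact_mod_cast hD
  have hκ' : (1 : ℝ) ≤ κ := by exact_mod_cast hκ
  have hκ0 : (0 : ℝ) < κ := by linarith
  have hD0 : (0 : ℝ) < D := by linarith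
  set τ : ℝ := θ * (D : ℝ) ^ 2 with hτ
  have hτ0 : 0 < τ := by positivity
  have h1 : Psi D θ ≤ Real.exp (-(τ ^ 2 / 8)) := by
    have h2 := Psi_small hθ.le hθ1
    have h3 := Real.add_one_le_exp (-(τ ^ 2 / 8))
    linarith
  have h2 : Psi D θ ^ (κ ^ 2) ≤ Real.exp (-((κ : ℝ) ^ 2 * τ ^ 2 / 8)) := by
    refine (pow_le_pow_left₀ (Psi_nonneg D θ) h1 _).trans (le_of_eq ?_)
    rw [← Real.exp_nat_mul]
    congr 1
    push_cast
    ring
  refine h2.trans ?_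
  set u : ℝ := (κ : ℝ) ^ 2 * τ ^ 2 / 8 with hu
  have hu0 : 0 < u := by positivity
  have h3 := Real.quadratic_le_exp_of_nonneg hu0.le
  have h4 : u ^ 2 / 2 ≤ Real.exp u := by linarith
  rw [Real.exp_neg]
  have h5 : (Real.exp u)⁻¹ ≤ (u ^ 2 / 2)⁻¹ := inv_anti₀ (by positivity) h4
  refine h5.trans (le_of_eq ?_)
  rw [hu, hτ, zpow_neg]
  norm_cast
  push_cast
  field_simp
  ring

lemma int_mid {κ D : ℕ} {T : ℝ} (hD : 1 ≤ D) (hT : 0 < T) (hκ : 2 * T ≤ κ) :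
    ∫ θ in (T / (κ * (D : ℝ) ^ 2))..(1 / (2 * (D : ℝ) ^ 2)), Psi D θ ^ (κ ^ 2)
      ≤ 128 / (3 * κ * (D : ℝ) ^ 2 * T ^ 3) := by
  have hD' : (1 : ℝ) ≤ D := by exact_mod_cast hD
  have hD0 : (0 : ℝ) < D := by linarith
  have hκ0 : (0 : ℝ) < κ := by linarith
  have hκ1 : 1 ≤ κ := by
    rcases Nat.eq_zero_or_pos κ with h | h
    · rw [h] at hκ0; norm_num at hκ0
    · exact h
  have ha0 : 0 < T / (κ * (D : ℝ) ^ 2) := by positivity
  have hab : T / (κ * (D : ℝ) ^ 2) ≤ 1 / (2 * (D : ℝ) ^ 2) := by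
    rw [div_le_div_iff₀ (by positivity) (by positivity)]
    have : (0 : ℝ) < (D : ℝ) ^ 2 := by positivity
    nlinarith
  have h0 : (0 : ℝ) ∉ Set.uIcc (T / (κ * (D : ℝ) ^ 2)) (1 / (2 * (D : ℝ) ^ 2)) := by
    rw [Set.uIcc_of_le hab, Set.mem_Icc, not_and_or]
    left
    linarith
  have h1 : ∫ θ in (T / (κ * (D : ℝ) ^ 2))..(1 / (2 * (D : ℝ) ^ 2)), Psi D θ ^ (κ ^ 2)
      ≤ ∫ θ in (T / (κ * (D : ℝ) ^ 2))..(1 / (2 * (D : ℝ) ^ 2)),
        128 / ((κ : ℝ) ^ 4 * (D : ℝ) ^ 8) * θ ^ (-4 : ℤ) := by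
    apply intervalIntegral.integral_mono_on hab
    · exact ((Psi_continuous D).pow _).intervalIntegrable _ _
    · apply ContinuousOn.intervalIntegrable
      apply ContinuousOn.mul continuousOn_const
      apply ContinuousOn.zpow₀ continuousOn_id
      intro x hx
      left
      rintro rfl
      exact h0 hx
    · intro θ hθ
      apply Psi_pow_mid hD hκ1 (lt_of_lt_of_le ha0 hθ.1)
      have := mul_le_mul_of_nonneg_right hθ.2 (by positivity : (0 : ℝ) ≤ (D : ℝ) ^ 2)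
      refine this.trans (le_of_eq ?_)
      field_simp
  refine h1.trans ?_
  rw [intervalIntegral.integral_const_mul, integral_zpow (Or.inr ⟨by norm_num, h0⟩)]
  have h2 : ((1 / (2 * (D : ℝ) ^ 2)) ^ ((-4 : ℤ) + 1) - (T / (κ * (D : ℝ) ^ 2)) ^ ((-4 : ℤ) + 1))
      / (((-4 : ℤ) : ℝ) + 1) ≤ (κ ^ 3 * (D : ℝ) ^ 6) / (3 * T ^ 3) := by
    have e1 : (T / (κ * (D : ℝ) ^ 2)) ^ ((-4 : ℤ) + 1) = (κ ^ 3 * (D : ℝ) ^ 6) / T ^ 3 := by
      rw [show (-4 : ℤ) + 1 = -3 by norm_num, zpow_neg]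
      norm_cast
      push_cast
      field_simp
    have e2 : 0 ≤ (1 / (2 * (D : ℝ) ^ 2)) ^ ((-4 : ℤ) + 1) := by positivity
    rw [e1]
    have e3 : ((-4 : ℤ) : ℝ) + 1 = -3 := by norm_num
    rw [e3]
    have e4 : (κ ^ 3 * (D : ℝ) ^ 6) / (3 * T ^ 3) = ((κ ^ 3 * (D : ℝ) ^ 6) / T ^ 3) / 3 := by
      field_simp
    rw [e4]
    linarith
  calc 128 / ((κ : ℝ) ^ 4 * (D : ℝ) ^ 8) * (((1 / (2 * (D : ℝ) ^ 2)) ^ ((-4 : ℤ) + 1)
        - (T / (κ * (D : ℝ) ^ 2)) ^ ((-4 : ℤ) + 1)) / (((-4 : ℤ) : ℝ) + 1))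
      ≤ 128 / ((κ : ℝ) ^ 4 * (D : ℝ) ^ 8) * ((κ ^ 3 * (D : ℝ) ^ 6) / (3 * T ^ 3)) := by
        gcongr
    _ = 128 / (3 * κ * (D : ℝ) ^ 2 * T ^ 3) := by
        field_simp

lemma int_out {κ D : ℕ} (hD : 1 ≤ D) (hκ : 2 ≤ κ) :
    ∫ θ in (1 / (2 * (D : ℝ) ^ 2))..(1 / 2), Psi D θ ^ (κ ^ 2)
      ≤ 16000 / ((κ : ℝ) ^ 2 * (D : ℝ) ^ 2) := by
  have hD' : (1 : ℝ) ≤ D := by exact_mod_cast hD
  have hD0 : (0 : ℝ) < D := by linarith
  have hκ' : (2 : ℝ) ≤ κ := by exact_mod_cast hκ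
  have hκ3 : 3 ≤ κ ^ 2 := by nlinarith
  have hab : 1 / (2 * (D : ℝ) ^ 2) ≤ 1 / 2 := by
    rw [div_le_div_iff₀ (by positivity) (by positivity)]
    nlinarith
  have ha0 : 0 ≤ 1 / (2 * (D : ℝ) ^ 2) := by positivity
  set c : ℝ := 128 / (κ : ℝ) ^ 2 with hc
  have hpow : (127 / 128 : ℝ) ^ (κ ^ 2 - 3) ≤ c := by
    have h1 := one_add_mul_le_pow (a := (1 / 127 : ℝ)) (by norm_num) (κ ^ 2 - 3)
    have h2 : (127 / 128 : ℝ) ^ (κ ^ 2 - 3) * (1 + 1 / 127) ^ (κ ^ 2 - 3) = 1 := by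
      rw [← mul_pow]
      norm_num
    have h3 : ((κ ^ 2 - 3 : ℕ) : ℝ) = (κ : ℝ) ^ 2 - 3 := by
      rw [Nat.cast_sub hκ3]
      push_cast
      ring
    rw [h3] at h1
    have h4 : (κ : ℝ) ^ 2 / 128 ≤ (1 + 1 / 127) ^ (κ ^ 2 - 3) := by nlinarith
    have h5 : 0 < (127 / 128 : ℝ) ^ (κ ^ 2 - 3) := by positivity
    rw [hc, le_div_iff₀ (by positivity)]
    nlinarith
  have h1 : ∫ θ in (1 / (2 * (D : ℝ) ^ 2))..(1 / 2), Psi D θ ^ (κ ^ 2)
      ≤ ∫ θ in (1 / (2 * (D : ℝ) ^ 2))..(1 / 2), c * Psi D θ ^ 3 := by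
    apply intervalIntegral.integral_mono_on hab
    · exact ((Psi_continuous D).pow _).intervalIntegrable _ _
    · exact (((Psi_continuous D).pow _).const_mul c).intervalIntegrable _ _
    · intro θ hθ
      have h2 : Psi D θ ≤ 127 / 128 := by
        have := Psi_large hD hθ.2 (by
          have := mul_le_mul_of_nonneg_right hθ.1 (by positivity : (0 : ℝ) ≤ (D : ℝ) ^ 2)
          refine le_trans (le_of_eq ?_) this
          field_simp)
        linarith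
      have h3 := Psi_nonneg D θ
      calc Psi D θ ^ (κ ^ 2) = Psi D θ ^ (κ ^ 2 - 3) * Psi D θ ^ 3 := by
            rw [← pow_add]; congr 1; omega
        _ ≤ (127 / 128) ^ (κ ^ 2 - 3) * Psi D θ ^ 3 := by gcongr
        _ ≤ c * Psi D θ ^ 3 := by gcongr
  refine h1.trans ?_
  rw [intervalIntegral.integral_const_mul]
  have h2 : ∫ θ in (1 / (2 * (D : ℝ) ^ 2))..(1 / 2), Psi D θ ^ 3
      ≤ ∫ θ in (0:ℝ)..(1 / 2), Psi D θ ^ 3 := by
    have h3 := intervalIntegral.integral_add_adjacent_intervals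
      (((Psi_continuous D).pow 3).intervalIntegrable (μ := volume) 0 (1 / (2 * (D : ℝ) ^ 2)))
      (((Psi_continuous D).pow 3).intervalIntegrable (μ := volume) (1 / (2 * (D : ℝ) ^ 2)) (1 / 2))
    have h4 : 0 ≤ ∫ θ in (0:ℝ)..(1 / (2 * (D : ℝ) ^ 2)), Psi D θ ^ 3 := by
      apply intervalIntegral.integral_nonneg ha0
      intro θ _
      have := Psi_nonneg D θ
      positivity
    simp only [Pi.pow_apply] at h3
    linarith
  calc c * ∫ θ in (1 / (2 * (D : ℝ) ^ 2))..(1 / 2), Psi D θ ^ 3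
      ≤ c * (125 / (D : ℝ) ^ 2) := by
        have hc0 : 0 ≤ c := by positivity
        gcongr
        exact h2.trans (int_Psi D hD)
    _ = 16000 / ((κ : ℝ) ^ 2 * (D : ℝ) ^ 2) := by
        rw [hc]
        field_simp
        norm_num

/-- on the innermost arc the Gaussian factor is at least one half -/
lemma gamma_ge {κ D : ℕ} {θ : ℝ} (hD : 1 ≤ D) (hκ : 1 ≤ κ) (h0 : 0 ≤ θ)
    (h1 : θ ≤ 1 / (10 * κ * (D : ℝ) ^ 2)) :
    1 / 2 ≤ Real.exp (-((2 * Real.pi ^ 2 * VV D * θ ^ 2) * (4 * (κ : ℝ) ^ 2 * VV D))) := by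
  have hD' : (1 : ℝ) ≤ D := by exact_mod_cast hD
  have hκ' : (1 : ℝ) ≤ κ := by exact_mod_cast hκ
  have hκ0 : (0 : ℝ) < κ := by linarith
  have hD0 : (0 : ℝ) < D := by linarith
  have hV0 := VV_nonneg D
  have hV := VV_le hD
  have hpi2 := pi_sq_le
  have h2 : κ * (VV D * θ) ≤ 1 / 15 := by
    calc κ * (VV D * θ) ≤ κ * (2 / 3 * (D : ℝ) ^ 2 * (1 / (10 * κ * (D : ℝ) ^ 2))) := by gcongr
      _ = 1 / 15 := by field_simp; norm_num
  have h3 : (κ * (VV D * θ)) ^ 2 ≤ (1 / 15) ^ 2 := pow_le_pow_left₀ (by positivity) h2 2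
  have h4 : (2 * Real.pi ^ 2 * VV D * θ ^ 2) * (4 * (κ : ℝ) ^ 2 * VV D)
      = 8 * Real.pi ^ 2 * (κ * (VV D * θ)) ^ 2 := by ring
  rw [h4]
  have h5 := Real.add_one_le_exp (-(8 * Real.pi ^ 2 * (κ * (VV D * θ)) ^ 2))
  have h6 : 8 * Real.pi ^ 2 * (κ * (VV D * θ)) ^ 2 ≤ 8 * 9.87 * (1 / 15) ^ 2 := by gcongr
  norm_num at h6
  linarith

/-- **the cross-density theorem** -/
theorem cross {κ D : ℕ} {T R : ℝ} (hD : 1 ≤ D) (hT : 10 ^ 11 ≤ T) (hκ : 10 ^ 22 * T ^ 8 ≤ κ)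
    (A B : Finset (Fin (4 * κ ^ 2) → Fi D)) (N : ℤ)
    (hpar : ∀ a ∈ A, ∀ b ∈ B, (2 : ℤ) ∣ N - dist2 a b)
    (hA : ∀ a ∈ A, |((sqz a : ℤ) : ℝ) - R| ≤ κ * (D : ℝ) ^ 2 / (12 * T))
    (hB : ∀ a ∈ B, |((sqz a : ℤ) : ℝ) - R| ≤ κ * (D : ℝ) ^ 2 / (12 * T))
    (hN : |(N : ℝ) - 2 * R| ≤ 2 * (κ * (D : ℝ) ^ 2 / (12 * T)))
    (hcA : nn D ^ (4 * κ ^ 2) / (2304 * T) ≤ #A)
    (hcB : nn D ^ (4 * κ ^ 2) / (2304 * T) ≤ #B) :
    ∃ a ∈ A, ∃ b ∈ B, dist2 a b = N := by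
  by_contra hcon
  push Not at hcon
  have hint := int_FF A B N hpar hcon
  have hn := nn_pos D
  have hT1 : 1 ≤ T := by linarith
  have hT0 : 0 < T := by linarith
  have hD' : (1 : ℝ) ≤ D := by exact_mod_cast hD
  have hD0 : (0 : ℝ) < D := by linarith
  have hT8 : T ≤ T ^ 8 := le_self_pow₀ hT1 (by norm_num)
  have hT82 : T ^ 2 ≤ T ^ 8 := pow_le_pow_right₀ hT1 (by norm_num)
  have hκ2 : 2 * T ≤ κ := by linarith
  have hκ0 : (0 : ℝ) < κ := by linarith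
  have hκ1 : 2 ≤ κ := by
    have : (2 : ℝ) ≤ κ := by linarith
    exact_mod_cast this
  set P : ℝ := nn D ^ (8 * κ ^ 2) with hP
  have hP0 : 0 < P := by positivity
  set δ : ℝ := 1 / (4 * 10 ^ 9 * T ^ 3) with hδ
  have hδ0 : 0 < δ := by positivity
  set t0 : ℝ := 1 / (10 * κ * (D : ℝ) ^ 2) with ht0
  set t1 : ℝ := T / (κ * (D : ℝ) ^ 2) with ht1
  set t2 : ℝ := 1 / (2 * (D : ℝ) ^ 2) with ht2
  have hDD : 0 < (D : ℝ) ^ 2 := by positivity
  have h00 : 0 ≤ t0 := by positivity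
  have h01 : t0 ≤ t1 := by
    rw [ht0, ht1, div_le_div_iff₀ (by positivity) (by positivity)]
    have : 0 < (κ : ℝ) * (D : ℝ) ^ 2 := by positivity
    nlinarith
  have h12 : t1 ≤ t2 := by
    rw [ht1, ht2, div_le_div_iff₀ (by positivity) (by positivity)]
    nlinarith
  have h23 : t2 ≤ 1 / 2 := by
    rw [ht2, div_le_div_iff₀ (by positivity) (by positivity)]
    nlinarith
  have hc := FF_continuous A B N
  have hsplit : ∫ θ in (0:ℝ)..(1/2), FF A B N θ = (∫ θ in (0:ℝ)..t0, FF A B N θ)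
      + (∫ θ in t0..t1, FF A B N θ) + (∫ θ in t1..t2, FF A B N θ)
      + ∫ θ in t2..(1/2), FF A B N θ := by
    rw [intervalIntegral.integral_add_adjacent_intervals (hc.intervalIntegrable _ _)
      (hc.intervalIntegrable _ _), intervalIntegral.integral_add_adjacent_intervals
      (hc.intervalIntegrable _ _) (hc.intervalIntegrable _ _),
      intervalIntegral.integral_add_adjacent_intervals
      (hc.intervalIntegrable _ _) (hc.intervalIntegrable _ _)]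
  have hmain : ∀ θ, 0 ≤ θ → θ ≤ t1 → θ * (D : ℝ) ^ 2 * κ ≤ T := by
    intro θ _ h
    calc θ * (D : ℝ) ^ 2 * κ ≤ t1 * (D : ℝ) ^ 2 * κ := by gcongr
      _ = T := by rw [ht1]; field_simp
  -- first piece
  have i0 : (t0 - 0) * (1 / 4 * ((#A : ℝ) * #B) - P * δ) ≤ ∫ θ in (0:ℝ)..t0, FF A B N θ := by
    have e1 : ∫ θ in (0:ℝ)..t0, (1 / 4 * ((#A : ℝ) * #B) - P * δ)
        ≤ ∫ θ in (0:ℝ)..t0, FF A B N θ := by
      apply intervalIntegral.integral_mono_on h00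
      · exact continuous_const.intervalIntegrable _ _
      · exact hc.intervalIntegrable _ _
      · intro θ hθ
        have e2 := FF_ge_main hD hT1 hκ hθ.1 (hmain θ hθ.1 (hθ.2.trans h01)) A B N hpar hA hB hN
        have e3 := gamma_ge (κ := κ) hD (by omega) hθ.1 hθ.2
        rw [← hP, ← hδ] at e2
        have e4 : 0 ≤ 1 / 2 * ((#A : ℝ) * #B) := by positivity
        nlinarith
    rwa [intervalIntegral.integral_const, smul_eq_mul] at e1
  have i1 : (t1 - t0) * (-(P * δ)) ≤ ∫ θ in t0..t1, FF A B N θ := by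
    have e1 : ∫ θ in t0..t1, (-(P * δ)) ≤ ∫ θ in t0..t1, FF A B N θ := by
      apply intervalIntegral.integral_mono_on h01
      · exact continuous_const.intervalIntegrable _ _
      · exact hc.intervalIntegrable _ _
      · intro θ hθ
        have e2 := FF_ge_main hD hT1 hκ (h00.trans hθ.1) (hmain θ (h00.trans hθ.1) hθ.2)
          A B N hpar hA hB hN
        rw [← hP, ← hδ] at e2
        have e3 : 0 ≤ Real.exp (-((2 * Real.pi ^ 2 * VV D * θ ^ 2) *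
          (4 * (κ : ℝ) ^ 2 * VV D))) * (1 / 2 * ((#A : ℝ) * #B)) := by positivity
        linarith
    rwa [intervalIntegral.integral_const, smul_eq_mul] at e1
  have i2 : -(P * (128 / (3 * κ * (D : ℝ) ^ 2 * T ^ 3))) ≤ ∫ θ in t1..t2, FF A B N θ := by
    have e1 : ∫ θ in t1..t2, (-(P * Psi D θ ^ (κ ^ 2))) ≤ ∫ θ in t1..t2, FF A B N θ := by
      apply intervalIntegral.integral_mono_on h12
      · exact ((((Psi_continuous D).pow _).const_mul P).neg).intervalIntegrable _ _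
      · exact hc.intervalIntegrable _ _
      · intro θ _
        exact FF_ge_Psi A B N θ hpar
    rw [intervalIntegral.integral_neg, intervalIntegral.integral_const_mul] at e1
    have e2 := mul_le_mul_of_nonneg_left (int_mid (D := D) hD hT0 hκ2) hP0.le
    linarith
  have i3 : -(P * (16000 / ((κ : ℝ) ^ 2 * (D : ℝ) ^ 2))) ≤ ∫ θ in t2..(1/2), FF A B N θ := by
    have e1 : ∫ θ in t2..(1/2), (-(P * Psi D θ ^ (κ ^ 2))) ≤ ∫ θ in t2..(1/2), FF A B N θ := by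
      apply intervalIntegral.integral_mono_on h23
      · exact ((((Psi_continuous D).pow _).const_mul P).neg).intervalIntegrable _ _
      · exact hc.intervalIntegrable _ _
      · intro θ _
        exact FF_ge_Psi A B N θ hpar
    rw [intervalIntegral.integral_neg, intervalIntegral.integral_const_mul] at e1
    have e2 := mul_le_mul_of_nonneg_left (int_out (κ := κ) hD hκ1) hP0.le
    linarith
  -- the product of the cardinalities
  have hab : P / (2304 * T) ^ 2 ≤ (#A : ℝ) * #B := by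
    have e1 : P / (2304 * T) ^ 2
        = (nn D ^ (4 * κ ^ 2) / (2304 * T)) * (nn D ^ (4 * κ ^ 2) / (2304 * T)) := by
      rw [hP, div_mul_div_comm, ← pow_add, ← pow_two]
      congr 2
      ring
    rw [e1]
    exact mul_le_mul hcA hcB (by positivity) (by positivity)
  have hfin : t0 * (1 / 4 * (P / (2304 * T) ^ 2)) ≤ t1 * (P * δ)
      + P * (128 / (3 * κ * (D : ℝ) ^ 2 * T ^ 3)) + P * (16000 / ((κ : ℝ) ^ 2 * (D : ℝ) ^ 2)) := by
    have e1 : t0 * (1 / 4 * (P / (2304 * T) ^ 2)) ≤ t0 * (1 / 4 * ((#A : ℝ) * #B)) := by gcongr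
    rw [hsplit] at hint
    nlinarith
  -- numerical contradiction
  have hfin2 : 1 / (212336640 * T ^ 2) ≤ 1 / (4 * 10 ^ 9 * T ^ 2) + 128 / (3 * T ^ 3)
      + 16000 / κ := by
    have hQ : 0 < P / (κ * (D : ℝ) ^ 2) := by positivity
    have e1 : t0 * (1 / 4 * (P / (2304 * T) ^ 2))
        = P / (κ * (D : ℝ) ^ 2) * (1 / (212336640 * T ^ 2)) := by
      rw [ht0]; field_simp; norm_num
    have e2 : t1 * (P * δ) = P / (κ * (D : ℝ) ^ 2) * (1 / (4 * 10 ^ 9 * T ^ 2)) := by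
      rw [ht1, hδ]; field_simp
    have e3 : P * (128 / (3 * κ * (D : ℝ) ^ 2 * T ^ 3))
        = P / (κ * (D : ℝ) ^ 2) * (128 / (3 * T ^ 3)) := by
      field_simp
    have e4 : P * (16000 / ((κ : ℝ) ^ 2 * (D : ℝ) ^ 2)) = P / (κ * (D : ℝ) ^ 2) * (16000 / κ) := by
      field_simp
    rw [e1, e2, e3, e4, ← mul_add, ← mul_add] at hfin
    exact le_of_mul_le_mul_left hfin hQ
  have e5 : 128 / (3 * T ^ 3) ≤ 128 / (3 * 10 ^ 11 * T ^ 2) := by
    rw [div_le_div_iff₀ (by positivity) (by positivity)]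
    have : 0 < T ^ 2 := by positivity
    nlinarith
  have e6 : 16000 / (κ : ℝ) ≤ 1 / (10 ^ 9 * T ^ 2) := by
    rw [div_le_div_iff₀ hκ0 (by positivity)]
    nlinarith
  have e7 : 1 / (4 * 10 ^ 9 * T ^ 2) + 128 / (3 * 10 ^ 11 * T ^ 2) + 1 / (10 ^ 9 * T ^ 2)
      < 1 / (212336640 * T ^ 2) := by
    have hT2 : 0 < 1 / T ^ 2 := by positivity
    have f1 : 1 / (4 * 10 ^ 9 * T ^ 2) = 1 / (4 * 10 ^ 9) * (1 / T ^ 2) := by field_simp
    have f2 : 128 / (3 * 10 ^ 11 * T ^ 2) = 128 / (3 * 10 ^ 11) * (1 / T ^ 2) := by field_simp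
    have f3 : 1 / (10 ^ 9 * T ^ 2) = 1 / 10 ^ 9 * (1 / T ^ 2) := by field_simp
    have f4 : 1 / (212336640 * T ^ 2) = 1 / 212336640 * (1 / T ^ 2) := by field_simp
    rw [f1, f2, f3, f4, ← add_mul, ← add_mul]
    apply mul_lt_mul_of_pos_right _ hT2
    norm_num
  linarith

end Pool.Agent.N554.SL
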