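import Mathlib

/-!
Exponential sums over boxes: the expansion of the square of a bilinear exponential sum.
-/

set_option autoImplicit false

namespace Pool.Agent.N554.SL

open Finset Complex ComplexConjugate

/-- the additive character `exp (2 π i t)` -/
noncomputable def E (t : ℝ) : ℂ := Complex.exp (((2 * Real.pi * t : ℝ) : ℂ) * I)

lemma E_add (s t : ℝ) : E (s + t) = E s * E t := by
  unfold E
  rw [← Complex.exp_add]
  congr 1
  push_cast
  ring

lemma E_zero : E 0 = 1 := by simp [E]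

lemma E_norm (t : ℝ) : ‖E t‖ = 1 := by
  unfold E
  exact Complex.norm_exp_ofReal_mul_I _

lemma E_re (t : ℝ) : (E t).re = Real.cos (2 * Real.pi * t) := by
  unfold E
  exact Complex.exp_ofReal_mul_I_re _

lemma E_im (t : ℝ) : (E t).im = Real.sin (2 * Real.pi * t) := by
  unfold E
  exact Complex.exp_ofReal_mul_I_im _

lemma E_conj (t : ℝ) : conj (E t) = E (-t) := by
  apply Complex.ext
  · rw [Complex.conj_re, E_re, E_re]
    rw [show 2 * Real.pi * -t = -(2 * Real.pi * t) by ring, Real.cos_neg]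
  · rw [Complex.conj_im, E_im, E_im]
    rw [show 2 * Real.pi * -t = -(2 * Real.pi * t) by ring, Real.sin_neg]

lemma E_sum {ι : Type*} (s : Finset ι) (f : ι → ℝ) : E (∑ i ∈ s, f i) = ∏ i ∈ s, E (f i) := by
  classical
  induction s using Finset.induction_on with
  | empty => simp [E_zero]
  | insert a s ha ih => rw [Finset.sum_insert ha, Finset.prod_insert ha, E_add, ih]

/-- the integer coordinate of an index: from `-D` to `D` -/
def xz (D : ℕ) (i : Fin (2 * D + 1)) : ℤ := (i : ℤ) - D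

/-- the real coordinate of an index -/
def xr (D : ℕ) (i : Fin (2 * D + 1)) : ℝ := (i : ℝ) - D

lemma xr_eq (D : ℕ) (i : Fin (2 * D + 1)) : xr D i = ((xz D i : ℤ) : ℝ) := by
  simp [xr, xz]

lemma xr_rev (D : ℕ) (i : Fin (2 * D + 1)) : xr D i.rev = - xr D i := by
  unfold xr
  rw [Fin.val_rev]
  have h : (i : ℕ) + 1 ≤ 2 * D + 1 := i.2
  rw [Nat.cast_sub h]
  push_cast
  ring

lemma xr_abs_le (D : ℕ) (i : Fin (2 * D + 1)) : |xr D i| ≤ D := by
  have h : (i : ℕ) ≤ 2 * D := Nat.lt_succ_iff.1 i.2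
  have h2 : ((i : ℕ) : ℝ) ≤ 2 * D := by exact_mod_cast h
  have h3 : (0 : ℝ) ≤ ((i : ℕ) : ℝ) := Nat.cast_nonneg _
  unfold xr
  rw [abs_le]
  constructor <;> linarith

/-- the number of coordinates, as a real number -/
noncomputable def nn (D : ℕ) : ℝ := 2 * D + 1

lemma nn_pos (D : ℕ) : 0 < nn D := by unfold nn; positivity

lemma nn_one_le (D : ℕ) : 1 ≤ nn D := by
  unfold nn
  have : (0 : ℝ) ≤ D := Nat.cast_nonneg _
  linarith

lemma card_fin_nn (D : ℕ) : ((Finset.univ : Finset (Fin (2 * D + 1))).card : ℝ) = nn D := by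
  simp [nn]

/-- the normalised one-dimensional kernel -/
noncomputable def sk (D : ℕ) (t : ℝ) : ℝ :=
  (∑ i : Fin (2 * D + 1), Real.cos (2 * Real.pi * (t * xr D i))) / nn D

lemma sk_abs_le (D : ℕ) (t : ℝ) : |sk D t| ≤ 1 := by
  unfold sk
  rw [abs_div, abs_of_pos (nn_pos D), div_le_one (nn_pos D)]
  refine (Finset.abs_sum_le_sum_abs _ _).trans ?_
  refine (Finset.sum_le_sum (fun i _ => Real.abs_cos_le_one _)).trans ?_
  rw [Finset.sum_const, nsmul_eq_mul, mul_one, card_fin_nn]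

lemma sum_E (D : ℕ) (t : ℝ) :
    ∑ i : Fin (2 * D + 1), E (t * xr D i) = ((nn D * sk D t : ℝ) : ℂ) := by
  have h0 : nn D ≠ 0 := (nn_pos D).ne'
  apply Complex.ext
  · rw [Complex.re_sum, Complex.ofReal_re]
    unfold sk
    rw [mul_div_cancel₀ _ h0]
    exact Finset.sum_congr rfl fun i _ => E_re _
  · rw [Complex.im_sum, Complex.ofReal_im]
    have h1 : ∑ i : Fin (2 * D + 1), (E (t * xr D i)).im
        = ∑ i : Fin (2 * D + 1), (E (t * xr D i.rev)).im :=
      (Equiv.sum_comp Fin.revPerm (fun i => (E (t * xr D i)).im)).symm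
    have h2 : ∑ i : Fin (2 * D + 1), (E (t * xr D i.rev)).im
        = - ∑ i : Fin (2 * D + 1), (E (t * xr D i)).im := by
      rw [← Finset.sum_neg_distrib]
      refine Finset.sum_congr rfl fun i _ => ?_
      rw [xr_rev, E_im, E_im, show 2 * Real.pi * (t * -xr D i) = -(2 * Real.pi * (t * xr D i)) by
        ring, Real.sin_neg]
    linarith

/-- the bilinear form -/
noncomputable def dt {k D : ℕ} (h : Fin k → ℝ) (b : Fin k → Fin (2 * D + 1)) : ℝ :=
  ∑ j, h j * xr D (b j)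

/-- the product kernel -/
noncomputable def pk {k : ℕ} (D : ℕ) (h : Fin k → ℝ) : ℝ := ∏ j, sk D (h j)

lemma pk_abs_le {k : ℕ} (D : ℕ) (h : Fin k → ℝ) : |pk D h| ≤ 1 := by
  unfold pk
  rw [Finset.abs_prod]
  exact Finset.prod_le_one (fun _ _ => abs_nonneg _) fun _ _ => sk_abs_le _ _

lemma sum_E_dt {k D : ℕ} (h : Fin k → ℝ) :
    ∑ b : Fin k → Fin (2 * D + 1), E (dt h b) = ((nn D ^ k * pk D h : ℝ) : ℂ) := by
  have h1 : ∏ j : Fin k, ∑ i : Fin (2 * D + 1), E (h j * xr D i)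
      = ∑ b : Fin k → Fin (2 * D + 1), ∏ j, E (h j * xr D (b j)) := by
    rw [Finset.prod_univ_sum]
    simp [Fintype.piFinset_univ]
  have h2 : ∀ b : Fin k → Fin (2 * D + 1), E (dt h b) = ∏ j, E (h j * xr D (b j)) := by
    intro b
    unfold dt
    exact E_sum _ _
  rw [Finset.sum_congr rfl fun b _ => h2 b, ← h1]
  rw [Finset.prod_congr rfl fun j _ => sum_E D (h j)]
  rw [← Complex.ofReal_prod, Finset.prod_mul_distrib]
  simp [pk]

/-- the exponential sum in the first variable -/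
noncomputable def GG {k D : ℕ} (f : (Fin k → Fin (2 * D + 1)) → ℂ) (θ : ℝ)
    (b : Fin k → Fin (2 * D + 1)) : ℂ :=
  ∑ a, f a * E (dt (fun j => θ * xr D (a j)) b)

lemma dt_sub {k D : ℕ} (h h' : Fin k → ℝ) (b : Fin k → Fin (2 * D + 1)) :
    dt (fun j => h j - h' j) b = dt h b - dt h' b := by
  unfold dt
  rw [← Finset.sum_sub_distrib]
  exact Finset.sum_congr rfl fun j _ => by ring

lemma dt_neg {k D : ℕ} (h : Fin k → ℝ) (b : Fin k → Fin (2 * D + 1)) :
    dt (fun j => - h j) b = - dt h b := by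
  unfold dt
  rw [← Finset.sum_neg_distrib]
  exact Finset.sum_congr rfl fun j _ => by ring

/-- the expansion of the square -/
lemma sum_normSq_GG {k D : ℕ} (f : (Fin k → Fin (2 * D + 1)) → ℂ) (θ : ℝ) :
    ((∑ b, ‖GG f θ b‖ ^ 2 : ℝ) : ℂ) = ((nn D ^ k : ℝ) : ℂ) * ∑ a, ∑ a', f a * conj (f a') *
      ((pk D (fun j => θ * (xr D (a j) - xr D (a' j))) : ℝ) : ℂ) := by
  have h1 : ∀ b, ((‖GG f θ b‖ ^ 2 : ℝ) : ℂ) = ∑ a, ∑ a', f a * conj (f a') *
      E (dt (fun j => θ * (xr D (a j) - xr D (a' j))) b) := by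
    intro b
    rw [Complex.ofReal_pow, ← Complex.mul_conj', GG, map_sum, Finset.sum_mul_sum]
    refine Finset.sum_congr rfl fun a _ => Finset.sum_congr rfl fun a' _ => ?_
    rw [map_mul, E_conj]
    have h2 : (fun j => θ * (xr D (a j) - xr D (a' j)))
        = fun j => (fun j => θ * xr D (a j)) j - (fun j => θ * xr D (a' j)) j := by
      funext j; ring
    rw [h2, dt_sub, sub_eq_add_neg, E_add]
    ring
  rw [Complex.ofReal_sum, Finset.sum_congr rfl fun b _ => h1 b]
  rw [Finset.sum_comm, Finset.mul_sum]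
  refine Finset.sum_congr rfl fun a _ => ?_
  rw [Finset.sum_comm, Finset.mul_sum]
  refine Finset.sum_congr rfl fun a' _ => ?_
  rw [← Finset.mul_sum, sum_E_dt]
  push_cast
  ring

/-- the mean of the exponential sum -/
lemma sum_GG {k D : ℕ} (f : (Fin k → Fin (2 * D + 1)) → ℂ) (θ : ℝ) :
    ∑ b, GG f θ b = ((nn D ^ k : ℝ) : ℂ) * ∑ a, f a *
      ((pk D (fun j => θ * xr D (a j)) : ℝ) : ℂ) := by
  unfold GG
  rw [Finset.sum_comm, Finset.mul_sum]
  refine Finset.sum_congr rfl fun a _ => ?_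
  rw [← Finset.mul_sum, sum_E_dt]
  push_cast
  ring

end Pool.Agent.N554.SL
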