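import Pool.Agent.N554.SL.Kernel

/-!
Norm bound and rank one approximation for the bilinear exponential sum.
-/

set_option autoImplicit false

namespace Pool.Agent.N554.SL

open Finset Complex ComplexConjugate

/-- the mean square of the kernel -/
noncomputable def Psi (D : ℕ) (θ : ℝ) : ℝ :=
  (∑ x : Fin (2 * D + 1), ∑ y : Fin (2 * D + 1), sk D (θ * (xr D x - xr D y)) ^ 2) / nn D ^ 2

lemma Psi_nonneg (D : ℕ) (θ : ℝ) : 0 ≤ Psi D θ := by
  unfold Psi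
  have := nn_pos D
  positivity

lemma sum_abs_sq_le (D : ℕ) (θ : ℝ) :
    (∑ x : Fin (2 * D + 1), ∑ y : Fin (2 * D + 1), |sk D (θ * (xr D x - xr D y))|) ^ 2
      ≤ nn D ^ 4 * Psi D θ := by
  have h0 := nn_pos D
  rw [← Finset.sum_product']
  have h1 := sq_sum_le_card_mul_sum_sq
    (s := (Finset.univ : Finset (Fin (2 * D + 1))) ×ˢ (Finset.univ : Finset (Fin (2 * D + 1))))
    (f := fun p => |sk D (θ * (xr D p.1 - xr D p.2))|)
  refine h1.trans (le_of_eq ?_)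
  rw [Finset.card_product]
  push_cast
  rw [card_fin_nn]
  unfold Psi
  simp only [sq_abs]
  rw [Finset.sum_product]
  field_simp

lemma sum_sum_prod {k : ℕ} {Ω : Type*} [Fintype Ω] [DecidableEq Ω] (φ : Ω → Ω → ℝ) :
    ∑ a : Fin k → Ω, ∑ a' : Fin k → Ω, ∏ j, φ (a j) (a' j) = (∑ x, ∑ y, φ x y) ^ k := by
  have h1 : ∀ a : Fin k → Ω, ∑ a' : Fin k → Ω, ∏ j, φ (a j) (a' j) = ∏ j, ∑ y, φ (a j) y := by
    intro a
    rw [Finset.prod_univ_sum]
    simp [Fintype.piFinset_univ]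
  rw [Finset.sum_congr rfl fun a _ => h1 a]
  have h2 := Finset.prod_univ_sum (fun _ : Fin k => (Finset.univ : Finset Ω))
    (fun _ x => ∑ y, φ x y)
  rw [Fintype.piFinset_univ] at h2
  rw [← h2]
  simp

lemma sum_normSq_le {k D : ℕ} (f : (Fin k → Fin (2 * D + 1)) → ℂ) (hf : ∀ a, ‖f a‖ ≤ 1) (θ : ℝ) :
    ∑ b, ‖GG f θ b‖ ^ 2 ≤ nn D ^ k *
      (∑ x : Fin (2 * D + 1), ∑ y : Fin (2 * D + 1), |sk D (θ * (xr D x - xr D y))|) ^ k := by
  have h1 := sum_normSq_GG f θ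
  have h2 : ∑ b, ‖GG f θ b‖ ^ 2 = ‖((∑ b, ‖GG f θ b‖ ^ 2 : ℝ) : ℂ)‖ := by
    rw [Complex.norm_real, Real.norm_of_nonneg]
    positivity
  rw [h2, h1, norm_mul, Complex.norm_real, Real.norm_of_nonneg (pow_nonneg (nn_pos D).le _)]
  refine mul_le_mul_of_nonneg_left ?_ (pow_nonneg (nn_pos D).le _)
  rw [← sum_sum_prod]
  refine (norm_sum_le _ _).trans (Finset.sum_le_sum fun a _ => ?_)
  refine (norm_sum_le _ _).trans (Finset.sum_le_sum fun a' _ => ?_)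
  rw [norm_mul, norm_mul, Complex.norm_real, Real.norm_eq_abs, RCLike.norm_conj]
  unfold pk
  rw [Finset.abs_prod]
  have h3 : ‖f a‖ * ‖f a'‖ ≤ 1 := mul_le_one₀ (hf a) (norm_nonneg _) (hf a')
  have h4 : 0 ≤ ∏ j, |sk D (θ * (xr D (a j) - xr D (a' j)))| :=
    Finset.prod_nonneg fun _ _ => abs_nonneg _
  nlinarith

lemma norm_sum_mul_sq_le {ι : Type*} [Fintype ι] (g H : ι → ℂ) (hg : ∀ b, ‖g b‖ ≤ 1) :
    ‖∑ b, g b * H b‖ ^ 2 ≤ (Fintype.card ι : ℝ) * ∑ b, ‖H b‖ ^ 2 := by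
  have h1 : ‖∑ b, g b * H b‖ ≤ ∑ b, ‖H b‖ := by
    refine (norm_sum_le _ _).trans (Finset.sum_le_sum fun b _ => ?_)
    rw [norm_mul]
    have := hg b
    have := norm_nonneg (H b)
    nlinarith
  have h2 : ‖∑ b, g b * H b‖ ^ 2 ≤ (∑ b, ‖H b‖) ^ 2 := by
    exact pow_le_pow_left₀ (norm_nonneg _) h1 2
  refine h2.trans ?_
  have h3 := sq_sum_le_card_mul_sum_sq (s := (Finset.univ : Finset ι)) (f := fun b => ‖H b‖)
  simpa using h3

lemma card_box (k D : ℕ) : (Fintype.card (Fin k → Fin (2 * D + 1)) : ℝ) = nn D ^ k := by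
  rw [Fintype.card_fun, Fintype.card_fin, Fintype.card_fin]
  push_cast
  rfl

/-- the norm bound -/
lemma norm_bilin_le {K D : ℕ} (f g : (Fin (4 * K) → Fin (2 * D + 1)) → ℂ) (hf : ∀ a, ‖f a‖ ≤ 1)
    (hg : ∀ a, ‖g a‖ ≤ 1) (θ : ℝ) :
    ‖∑ b, g b * GG f θ b‖ ≤ nn D ^ (8 * K) * Psi D θ ^ K := by
  have h0 := nn_pos D
  have hP := Psi_nonneg D θ
  rw [← sq_le_sq₀ (norm_nonneg _) (by positivity)]
  refine (norm_sum_mul_sq_le g _ hg).trans ?_
  rw [card_box]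
  have h1 := sum_normSq_le f hf θ
  set S := ∑ x : Fin (2 * D + 1), ∑ y : Fin (2 * D + 1), |sk D (θ * (xr D x - xr D y))| with hS
  have h2 : S ^ (4 * K) ≤ (nn D ^ 4 * Psi D θ) ^ (2 * K) := by
    rw [show 4 * K = 2 * (2 * K) by ring, pow_mul]
    exact pow_le_pow_left₀ (sq_nonneg _) (sum_abs_sq_le D θ) _
  calc nn D ^ (4 * K) * ∑ b, ‖GG f θ b‖ ^ 2
      ≤ nn D ^ (4 * K) * (nn D ^ (4 * K) * (nn D ^ 4 * Psi D θ) ^ (2 * K)) := by
        gcongr
        exact h1.trans (by gcongr)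
    _ = (nn D ^ (8 * K) * Psi D θ ^ K) ^ 2 := by
        rw [mul_pow, mul_pow, ← pow_mul, ← pow_mul, ← pow_mul, ← mul_assoc, ← mul_assoc,
          ← pow_add, ← pow_add]
        ring_nf

/-- the rank one approximation -/
lemma rank_one {k D : ℕ} (f g : (Fin k → Fin (2 * D + 1)) → ℂ) (hf : ∀ a, ‖f a‖ ≤ 1)
    (hg : ∀ a, ‖g a‖ ≤ 1) (θ γ : ℝ) (h0 : 0 ≤ γ) (h1 : γ ≤ 1) :
    ‖∑ b, g b * GG f θ b - (γ : ℂ) * ((∑ a, f a) * (∑ b, g b))‖ ^ 2 ≤
      nn D ^ (2 * k) * (∑ a : Fin k → Fin (2 * D + 1), ∑ a' : Fin k → Fin (2 * D + 1),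
          |pk D (fun j => θ * (xr D (a j) - xr D (a' j))) - γ ^ 2|
        + 2 * nn D ^ k * ∑ a : Fin k → Fin (2 * D + 1), |pk D (fun j => θ * xr D (a j)) - γ|) := by
  have hn := nn_pos D
  set m : ℂ := ∑ a, f a with hm
  have e1 : ∑ b, g b * GG f θ b - (γ : ℂ) * (m * (∑ b, g b))
      = ∑ b, g b * (GG f θ b - (γ : ℂ) * m) := by
    rw [Finset.mul_sum, Finset.mul_sum, ← Finset.sum_sub_distrib]
    exact Finset.sum_congr rfl fun b _ => by ring
  rw [e1]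
  refine (norm_sum_mul_sq_le g _ hg).trans ?_
  rw [card_box, show nn D ^ (2 * k) = nn D ^ k * nn D ^ k by rw [← pow_add]; congr 1; ring,
    mul_assoc]
  refine mul_le_mul_of_nonneg_left ?_ (pow_nonneg hn.le _)
  have hmn : ‖m‖ ≤ nn D ^ k := by
    rw [← card_box, hm]
    refine (norm_sum_le _ _).trans ?_
    refine (Finset.sum_le_sum fun a _ => hf a).trans ?_
    simp
  set P2 : (Fin k → Fin (2 * D + 1)) → (Fin k → Fin (2 * D + 1)) → ℝ :=
    fun a a' => pk D (fun j => θ * (xr D (a j) - xr D (a' j))) with hP2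
  set P1 : (Fin k → Fin (2 * D + 1)) → ℝ := fun a => pk D (fun j => θ * xr D (a j)) with hP1
  have e2 : ∑ b, ‖GG f θ b - (γ : ℂ) * m‖ ^ 2 = nn D ^ k *
      ((∑ a, ∑ a', f a * conj (f a') * ((P2 a a' - γ ^ 2 : ℝ) : ℂ)).re
        - 2 * γ * (conj m * ∑ a, f a * ((P1 a - γ : ℝ) : ℂ)).re) := by
    have e3 : ∀ b, ‖GG f θ b - (γ : ℂ) * m‖ ^ 2 = ‖GG f θ b‖ ^ 2 + γ ^ 2 * ‖m‖ ^ 2
        - 2 * γ * (conj m * GG f θ b).re := by
      intro b
      rw [← Complex.normSq_eq_norm_sq, Complex.normSq_sub, Complex.normSq_eq_norm_sq,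
        Complex.normSq_eq_norm_sq, norm_mul, Complex.norm_real, Real.norm_eq_abs, mul_pow, sq_abs]
      have : (GG f θ b * conj ((γ : ℂ) * m)).re = γ * (conj m * GG f θ b).re := by
        rw [map_mul, Complex.conj_ofReal]
        rw [show GG f θ b * ((γ : ℂ) * conj m) = (γ : ℂ) * (conj m * GG f θ b) by ring]
        rw [Complex.re_ofReal_mul]
      rw [this]
      ring
    rw [Finset.sum_congr rfl fun b _ => e3 b, Finset.sum_sub_distrib, Finset.sum_add_distrib]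
    have e4 : ∑ b, ‖GG f θ b‖ ^ 2
        = nn D ^ k * (∑ a, ∑ a', f a * conj (f a') * ((P2 a a' : ℝ) : ℂ)).re := by
      have := congrArg Complex.re (sum_normSq_GG f θ)
      rw [Complex.ofReal_re, Complex.re_ofReal_mul] at this
      exact this
    have e5 : ∑ b : Fin k → Fin (2 * D + 1), 2 * γ * (conj m * GG f θ b).re
        = 2 * γ * (nn D ^ k * (conj m * ∑ a, f a * ((P1 a : ℝ) : ℂ)).re) := by
      rw [← Finset.mul_sum, ← Complex.re_sum, ← Finset.mul_sum, sum_GG]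
      congr 1
      rw [show conj m * (((nn D ^ k : ℝ) : ℂ) * ∑ a, f a * ((P1 a : ℝ) : ℂ))
        = ((nn D ^ k : ℝ) : ℂ) * (conj m * ∑ a, f a * ((P1 a : ℝ) : ℂ)) by ring,
        Complex.re_ofReal_mul]
    have e6 : ∑ _b : Fin k → Fin (2 * D + 1), γ ^ 2 * ‖m‖ ^ 2 = nn D ^ k * (γ ^ 2 * ‖m‖ ^ 2) := by
      rw [Finset.sum_const, nsmul_eq_mul, ← card_box k D]
      rfl
    have e7 : ((‖m‖ ^ 2 : ℝ) : ℂ) = ∑ a, ∑ a', f a * conj (f a') := by
      rw [Complex.ofReal_pow, ← Complex.mul_conj', hm, map_sum, Finset.sum_mul_sum]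
    have e8 : (∑ a, ∑ a', f a * conj (f a') * ((P2 a a' - γ ^ 2 : ℝ) : ℂ)).re
        = (∑ a, ∑ a', f a * conj (f a') * ((P2 a a' : ℝ) : ℂ)).re - γ ^ 2 * ‖m‖ ^ 2 := by
      have : ∑ a, ∑ a', f a * conj (f a') * ((P2 a a' - γ ^ 2 : ℝ) : ℂ)
          = ∑ a, ∑ a', f a * conj (f a') * ((P2 a a' : ℝ) : ℂ)
            - ((γ ^ 2 : ℝ) : ℂ) * ((‖m‖ ^ 2 : ℝ) : ℂ) := by
        rw [e7, Finset.mul_sum, ← Finset.sum_sub_distrib]
        refine Finset.sum_congr rfl fun a _ => ?_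
        rw [Finset.mul_sum, ← Finset.sum_sub_distrib]
        refine Finset.sum_congr rfl fun a' _ => ?_
        push_cast
        ring
      rw [this, Complex.sub_re, Complex.re_ofReal_mul, Complex.ofReal_re]
    have e9 : (conj m * ∑ a, f a * ((P1 a - γ : ℝ) : ℂ)).re
        = (conj m * ∑ a, f a * ((P1 a : ℝ) : ℂ)).re - γ * ‖m‖ ^ 2 := by
      have : conj m * ∑ a, f a * ((P1 a - γ : ℝ) : ℂ)
          = conj m * ∑ a, f a * ((P1 a : ℝ) : ℂ) - ((γ : ℝ) : ℂ) * (m * conj m) := by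
        rw [hm, ← hm, Finset.mul_sum, Finset.mul_sum]
        rw [show ((γ : ℝ) : ℂ) * (m * conj m) = ∑ a, conj m * (f a * (γ : ℂ)) by
          rw [← Finset.mul_sum, ← Finset.sum_mul, ← hm]; ring]
        rw [← Finset.sum_sub_distrib]
        refine Finset.sum_congr rfl fun a _ => ?_
        push_cast
        ring
      rw [this, Complex.sub_re, Complex.re_ofReal_mul, Complex.mul_conj, Complex.ofReal_re,
        Complex.normSq_eq_norm_sq]
    rw [e4, e5, e6, e8, e9]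
    ring
  rw [e2]
  refine mul_le_mul_of_nonneg_left ?_ (pow_nonneg hn.le _)
  have i1 : (∑ a, ∑ a', f a * conj (f a') * ((P2 a a' - γ ^ 2 : ℝ) : ℂ)).re
      ≤ ∑ a, ∑ a', |P2 a a' - γ ^ 2| := by
    refine (Complex.re_le_norm _).trans ?_
    refine (norm_sum_le _ _).trans (Finset.sum_le_sum fun a _ => ?_)
    refine (norm_sum_le _ _).trans (Finset.sum_le_sum fun a' _ => ?_)
    rw [norm_mul, norm_mul, Complex.norm_real, Real.norm_eq_abs, RCLike.norm_conj]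
    have h3 : ‖f a‖ * ‖f a'‖ ≤ 1 := mul_le_one₀ (hf a) (norm_nonneg _) (hf a')
    have h4 : 0 ≤ |P2 a a' - γ ^ 2| := abs_nonneg _
    nlinarith
  have i2 : |(conj m * ∑ a, f a * ((P1 a - γ : ℝ) : ℂ)).re|
      ≤ nn D ^ k * ∑ a, |P1 a - γ| := by
    refine (Complex.abs_re_le_norm _).trans ?_
    rw [norm_mul, RCLike.norm_conj]
    refine mul_le_mul hmn ?_ (norm_nonneg _) (by positivity)
    refine (norm_sum_le _ _).trans (Finset.sum_le_sum fun a _ => ?_)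
    rw [norm_mul, Complex.norm_real, Real.norm_eq_abs]
    have h4 : 0 ≤ |P1 a - γ| := abs_nonneg _
    have := hf a
    nlinarith
  have i3 := abs_le.1 i2
  have i4 : 0 ≤ nn D ^ k * ∑ a, |P1 a - γ| := by positivity
  nlinarith

end Pool.Agent.N554.SL
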