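import Pool.Agent.N554.SL.Approx

/-!
The main arc: the bilinear exponential sum is close to a rank one form.
-/

set_option autoImplicit false

namespace Pool.Agent.N554.SL

open Finset Complex

/-- the single error -/
lemma err_one {κ D : ℕ} {θ : ℝ} (hD : 1 ≤ D) (hθ0 : 0 ≤ θ) (hτ : θ * (D : ℝ) ^ 2 ≤ 1 / 100) :
    ∑ a : Fin (4 * κ ^ 2) → Fi D, |pk D (fun j => θ * xr D (a j))
        - Real.exp (-((2 * Real.pi ^ 2 * VV D * θ ^ 2) * (4 * (κ : ℝ) ^ 2 * VV D)))|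
      ≤ nn D ^ (4 * κ ^ 2) * (4 * (κ : ℝ) ^ 2 * (260 * (θ * (D : ℝ) ^ 2) ^ 4)
          + 2 * κ * (2 * Real.pi ^ 2 * VV D * θ ^ 2) * (D : ℝ) ^ 2) := by
  have hn := nn_pos D
  have hpi := Real.pi_pos
  have hpi4 : Real.pi < 4 := Real.pi_lt_four
  have hD' : (1 : ℝ) ≤ D := by exact_mod_cast hD
  have hV0 := VV_nonneg D
  have hV := VV_le hD
  set l : ℝ := 2 * Real.pi ^ 2 * VV D * θ ^ 2 with hl
  have hl0 : 0 ≤ l := by positivity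
  set φ : Fi D → ℝ := fun x => xr D x ^ 2 - VV D with hφ
  have hφ0 : ∑ x, φ x = 0 := by
    rw [hφ, Finset.sum_sub_distrib, sum_xr_sq, Finset.sum_const, nsmul_eq_mul, card_fin_nn]
    ring
  have hφB : ∀ x, |φ x| ≤ (D : ℝ) ^ 2 := by
    intro x
    have h1 := xr_abs_le D x
    have h2 : xr D x ^ 2 ≤ (D : ℝ) ^ 2 := by
      rw [← sq_abs]; exact pow_le_pow_left₀ (abs_nonneg _) h1 2
    rw [hφ, abs_le]
    simp only
    constructor <;> nlinarith [sq_nonneg (xr D x)]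
  have key : ∀ a : Fin (4 * κ ^ 2) → Fi D, |pk D (fun j => θ * xr D (a j))
        - Real.exp (-(l * (4 * (κ : ℝ) ^ 2 * VV D)))|
      ≤ 4 * (κ : ℝ) ^ 2 * (260 * (θ * (D : ℝ) ^ 2) ^ 4) + l * |∑ j, φ (a j)| := by
    intro a
    have h1 := pk_approx hD (fun j => θ * xr D (a j)) (θ * D) (fun j => by
      rw [abs_mul, abs_of_nonneg hθ0]
      exact mul_le_mul_of_nonneg_left (xr_abs_le _ _) hθ0) (by nlinarith)
    have h2 : 2 * Real.pi ^ 2 * VV D * ∑ j, (θ * xr D (a j)) ^ 2 = l * ∑ j, xr D (a j) ^ 2 := by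
      rw [hl, Finset.mul_sum, Finset.mul_sum]
      exact Finset.sum_congr rfl fun j _ => by ring
    rw [h2] at h1
    have h3 := exp_neg_sub (l := l) (u := ∑ j, xr D (a j) ^ 2)
      (v := 4 * (κ : ℝ) ^ 2 * VV D) hl0 (Finset.sum_nonneg fun _ _ => sq_nonneg _) (by positivity)
    have h4 : ∑ j, xr D (a j) ^ 2 - 4 * (κ : ℝ) ^ 2 * VV D = ∑ j, φ (a j) := by
      rw [hφ, Finset.sum_sub_distrib, Finset.sum_const, nsmul_eq_mul, Finset.card_univ,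
        Fintype.card_fin]
      push_cast
      ring
    rw [h4] at h3
    have h5 : ((4 * κ ^ 2 : ℕ) : ℝ) * (260 * (θ * D) ^ 4 * (D : ℝ) ^ 4)
        = 4 * (κ : ℝ) ^ 2 * (260 * (θ * (D : ℝ) ^ 2) ^ 4) := by
      push_cast; ring
    rw [h5] at h1
    refine (abs_sub_le _ (Real.exp (-(l * ∑ j, xr D (a j) ^ 2))) _).trans ?_
    exact add_le_add h1 h3
  refine (Finset.sum_le_sum fun a _ => key a).trans ?_
  have h6 := first_moment_le φ hφ0 κ hφB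
  have h7 : (Fintype.card (Fi D) : ℝ) = nn D := by
    rw [← card_fin_nn, Finset.card_univ]
  rw [h7] at h6
  have h9 : ∑ a : Fin (4 * κ ^ 2) → Fi D,
      (4 * (κ : ℝ) ^ 2 * (260 * (θ * (D : ℝ) ^ 2) ^ 4) + l * |∑ j, φ (a j)|)
      = nn D ^ (4 * κ ^ 2) * (4 * (κ : ℝ) ^ 2 * (260 * (θ * (D : ℝ) ^ 2) ^ 4))
        + l * ∑ a : Fin (4 * κ ^ 2) → Fi D, |∑ j, φ (a j)| := by
    simp only [Finset.sum_add_distrib, ← Finset.mul_sum, Finset.sum_const, nsmul_eq_mul,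
      Finset.card_univ, card_box]
    ring
  rw [h9, mul_add]
  have h8 : l * ∑ a : Fin (4 * κ ^ 2) → Fi D, |∑ j, φ (a j)|
      ≤ l * (2 * κ * nn D ^ (4 * κ ^ 2) * (D : ℝ) ^ 2) := mul_le_mul_of_nonneg_left h6 hl0
  refine add_le_add le_rfl (h8.trans (le_of_eq ?_))
  ring

/-- the pair error -/
lemma err_two {κ D : ℕ} {θ : ℝ} (hD : 1 ≤ D) (hθ0 : 0 ≤ θ) (hτ : θ * (D : ℝ) ^ 2 ≤ 1 / 100) :
    ∑ a : Fin (4 * κ ^ 2) → Fi D, ∑ a' : Fin (4 * κ ^ 2) → Fi D,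
      |pk D (fun j => θ * (xr D (a j) - xr D (a' j)))
        - Real.exp (-((2 * Real.pi ^ 2 * VV D * θ ^ 2) * (4 * (κ : ℝ) ^ 2 * VV D))) ^ 2|
      ≤ nn D ^ (2 * (4 * κ ^ 2)) * (4 * (κ : ℝ) ^ 2 * (4160 * (θ * (D : ℝ) ^ 2) ^ 4)
          + 2 * κ * (2 * Real.pi ^ 2 * VV D * θ ^ 2) * (4 * (D : ℝ) ^ 2)) := by
  have hn := nn_pos D
  have hpi := Real.pi_pos
  have hpi4 : Real.pi < 4 := Real.pi_lt_four
  have hD' : (1 : ℝ) ≤ D := by exact_mod_cast hD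
  have hV0 := VV_nonneg D
  have hV := VV_le hD
  set l : ℝ := 2 * Real.pi ^ 2 * VV D * θ ^ 2 with hl
  have hl0 : 0 ≤ l := by positivity
  set φ : Fi D × Fi D → ℝ := fun q => (xr D q.1 - xr D q.2) ^ 2 - 2 * VV D with hφ
  have hcard : (Fintype.card (Fi D) : ℝ) = nn D := by
    rw [← card_fin_nn, Finset.card_univ]
  have hφ0 : ∑ q, φ q = 0 := by
    rw [hφ, Finset.sum_sub_distrib, Fintype.sum_prod_type]
    have e1 : ∀ x : Fi D, ∑ y : Fi D, (xr D x - xr D y) ^ 2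
        = nn D * xr D x ^ 2 + nn D * VV D := by
      intro x
      have : ∀ y : Fi D, (xr D x - xr D y) ^ 2 = xr D x ^ 2 - 2 * xr D x * xr D y + xr D y ^ 2 := by
        intro y; ring
      rw [Finset.sum_congr rfl fun y _ => this y, Finset.sum_add_distrib, Finset.sum_sub_distrib,
        ← Finset.mul_sum, sum_xr, sum_xr_sq, Finset.sum_const, nsmul_eq_mul, card_fin_nn]
      ring
    simp only
    rw [Finset.sum_congr rfl fun x _ => e1 x, Finset.sum_add_distrib, ← Finset.mul_sum, sum_xr_sq,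
      Finset.sum_const, nsmul_eq_mul, Finset.sum_const, nsmul_eq_mul, Finset.card_univ,
      Finset.card_univ, Fintype.card_prod]
    rw [← hcard]
    push_cast
    ring
  have hφB : ∀ q, |φ q| ≤ 4 * (D : ℝ) ^ 2 := by
    rintro ⟨x, y⟩
    have h1 := abs_le.1 (xr_abs_le D x)
    have h1' := abs_le.1 (xr_abs_le D y)
    have h2 : (xr D x - xr D y) ^ 2 ≤ 4 * (D : ℝ) ^ 2 := by
      rw [show 4 * (D : ℝ) ^ 2 = (2 * D) ^ 2 by ring]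
      apply sq_le_sq'
      · linarith [h1.1, h1'.2]
      · linarith [h1.2, h1'.1]
    rw [hφ, abs_le]
    simp only
    constructor <;> nlinarith [sq_nonneg (xr D x - xr D y)]
  have key : ∀ a a' : Fin (4 * κ ^ 2) → Fi D, |pk D (fun j => θ * (xr D (a j) - xr D (a' j)))
        - Real.exp (-(l * (4 * (κ : ℝ) ^ 2 * VV D))) ^ 2|
      ≤ 4 * (κ : ℝ) ^ 2 * (4160 * (θ * (D : ℝ) ^ 2) ^ 4) + l * |∑ j, φ (a j, a' j)| := by
    intro a a'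
    have hb : ∀ j, |xr D (a j) - xr D (a' j)| ≤ 2 * D := by
      intro j
      have h1 := abs_le.1 (xr_abs_le D (a j))
      have h1' := abs_le.1 (xr_abs_le D (a' j))
      rw [abs_le]
      constructor <;> linarith [h1.1, h1.2, h1'.1, h1'.2]
    have h1 := pk_approx hD (fun j => θ * (xr D (a j) - xr D (a' j))) (θ * (2 * D)) (fun j => by
      rw [abs_mul, abs_of_nonneg hθ0]
      exact mul_le_mul_of_nonneg_left (hb j) hθ0) (by nlinarith)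
    have h2 : 2 * Real.pi ^ 2 * VV D * ∑ j, (θ * (xr D (a j) - xr D (a' j))) ^ 2
        = l * ∑ j, (xr D (a j) - xr D (a' j)) ^ 2 := by
      rw [hl, Finset.mul_sum, Finset.mul_sum]
      exact Finset.sum_congr rfl fun j _ => by ring
    rw [h2] at h1
    have h3 := exp_neg_sub (l := l) (u := ∑ j, (xr D (a j) - xr D (a' j)) ^ 2)
      (v := 2 * (4 * (κ : ℝ) ^ 2 * VV D)) hl0 (Finset.sum_nonneg fun _ _ => sq_nonneg _)
      (by positivity)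
    have h4 : ∑ j, (xr D (a j) - xr D (a' j)) ^ 2 - 2 * (4 * (κ : ℝ) ^ 2 * VV D)
        = ∑ j, φ (a j, a' j) := by
      rw [hφ, Finset.sum_sub_distrib, Finset.sum_const, nsmul_eq_mul, Finset.card_univ,
        Fintype.card_fin]
      push_cast
      ring
    rw [h4] at h3
    have h5 : ((4 * κ ^ 2 : ℕ) : ℝ) * (260 * (θ * (2 * D)) ^ 4 * (D : ℝ) ^ 4)
        = 4 * (κ : ℝ) ^ 2 * (4160 * (θ * (D : ℝ) ^ 2) ^ 4) := by
      push_cast; ring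
    rw [h5] at h1
    have h6 : Real.exp (-(l * (4 * (κ : ℝ) ^ 2 * VV D))) ^ 2
        = Real.exp (-(l * (2 * (4 * (κ : ℝ) ^ 2 * VV D)))) := by
      rw [← Real.exp_nat_mul]
      congr 1
      push_cast
      ring
    rw [h6]
    refine (abs_sub_le _ (Real.exp (-(l * ∑ j, (xr D (a j) - xr D (a' j)) ^ 2))) _).trans ?_
    exact add_le_add h1 h3
  refine (Finset.sum_le_sum fun a _ => Finset.sum_le_sum fun a' _ => key a a').trans ?_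
  have h6 := first_moment_le φ hφ0 κ hφB
  have h7 : (Fintype.card (Fi D × Fi D) : ℝ) = nn D ^ 2 := by
    rw [Fintype.card_prod]
    rw [← hcard]
    push_cast
    ring
  rw [h7] at h6
  have h8 : ∑ a : Fin (4 * κ ^ 2) → Fi D × Fi D, |∑ j, φ (a j)|
      = ∑ a : Fin (4 * κ ^ 2) → Fi D, ∑ a' : Fin (4 * κ ^ 2) → Fi D, |∑ j, φ (a j, a' j)| := by
    rw [← Fintype.sum_prod_type (fun p : (Fin (4 * κ ^ 2) → Fi D) × (Fin (4 * κ ^ 2) → Fi D) =>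
      |∑ j, φ (p.1 j, p.2 j)|)]
    rw [← (Equiv.arrowProdEquivProdArrow (Fin (4 * κ ^ 2)) (fun _ => Fi D)
      (fun _ => Fi D)).sum_comp]
    refine Finset.sum_congr rfl fun p _ => ?_
    simp [Equiv.arrowProdEquivProdArrow]
  rw [h8] at h6
  have h9 : ∑ a : Fin (4 * κ ^ 2) → Fi D, ∑ a' : Fin (4 * κ ^ 2) → Fi D,
      (4 * (κ : ℝ) ^ 2 * (4160 * (θ * (D : ℝ) ^ 2) ^ 4) + l * |∑ j, φ (a j, a' j)|)
      = nn D ^ (2 * (4 * κ ^ 2)) * (4 * (κ : ℝ) ^ 2 * (4160 * (θ * (D : ℝ) ^ 2) ^ 4))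
        + l * ∑ a : Fin (4 * κ ^ 2) → Fi D, ∑ a' : Fin (4 * κ ^ 2) → Fi D,
          |∑ j, φ (a j, a' j)| := by
    simp only [Finset.sum_add_distrib, ← Finset.mul_sum, Finset.sum_const, nsmul_eq_mul,
      Finset.card_univ, card_box]
    ring
  rw [h9, mul_add]
  have h10 : l * ∑ a : Fin (4 * κ ^ 2) → Fi D, ∑ a' : Fin (4 * κ ^ 2) → Fi D,
      |∑ j, φ (a j, a' j)| ≤ l * (2 * κ * (nn D ^ 2) ^ (4 * κ ^ 2) * (4 * (D : ℝ) ^ 2)) :=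
    mul_le_mul_of_nonneg_left h6 hl0
  refine add_le_add le_rfl (h10.trans (le_of_eq ?_))
  rw [← pow_mul]
  ring

/-- the main arc estimate -/
lemma main_arc {κ D : ℕ} {T θ : ℝ} (hD : 1 ≤ D) (hT : 1 ≤ T) (hκ : 10 ^ 22 * T ^ 8 ≤ κ)
    (hθ0 : 0 ≤ θ) (hθ1 : θ * (D : ℝ) ^ 2 * κ ≤ T)
    (f g : (Fin (4 * κ ^ 2) → Fi D) → ℂ) (hf : ∀ a, ‖f a‖ ≤ 1) (hg : ∀ a, ‖g a‖ ≤ 1) :
    ‖∑ b, g b * GG f θ b - ((Real.exp (-((2 * Real.pi ^ 2 * VV D * θ ^ 2) *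
        (4 * (κ : ℝ) ^ 2 * VV D))) : ℝ) : ℂ) * ((∑ a, f a) * ∑ b, g b)‖
      ≤ nn D ^ (8 * κ ^ 2) * (1 / (4 * 10 ^ 9 * T ^ 3)) := by
  have hn := nn_pos D
  have hpi := Real.pi_pos
  have hpi2 := pi_sq_le
  have hD' : (1 : ℝ) ≤ D := by exact_mod_cast hD
  have hV0 := VV_nonneg D
  have hV := VV_le hD
  have hT8 : T ≤ T ^ 8 := le_self_pow₀ hT (by norm_num)
  have hT82 : T ^ 2 ≤ T ^ 8 := pow_le_pow_right₀ hT (by norm_num)
  have hT0 : 0 < T := by linarith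
  have hκ0 : (0 : ℝ) < κ := lt_of_lt_of_le (by positivity) hκ
  set τ : ℝ := θ * (D : ℝ) ^ 2 with hτ
  have hτ0 : 0 ≤ τ := by positivity
  have hτ1 : τ ≤ 1 / 100 := by
    by_contra hcon
    rw [not_le] at hcon
    have h1 : 1 / 100 * (κ : ℝ) < τ * κ := mul_lt_mul_of_pos_right hcon hκ0
    linarith
  set l : ℝ := 2 * Real.pi ^ 2 * VV D * θ ^ 2 with hl
  have hl0 : 0 ≤ l := by positivity
  have hl1 : l * (D : ℝ) ^ 2 ≤ 13.17 * τ ^ 2 := by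
    have e1 : l * (D : ℝ) ^ 2 = 2 * Real.pi ^ 2 * (VV D * (θ ^ 2 * (D : ℝ) ^ 2)) := by
      rw [hl]; ring
    have e2 : VV D * (θ ^ 2 * (D : ℝ) ^ 2) ≤ 2 / 3 * (D : ℝ) ^ 2 * (θ ^ 2 * (D : ℝ) ^ 2) := by
      gcongr
    have e3 : 2 / 3 * (D : ℝ) ^ 2 * (θ ^ 2 * (D : ℝ) ^ 2) = 2 / 3 * τ ^ 2 := by
      rw [hτ]; ring
    rw [e3] at e2
    rw [e1]
    have : 0 ≤ τ ^ 2 := by positivity
    nlinarith
  set γ : ℝ := Real.exp (-(l * (4 * (κ : ℝ) ^ 2 * VV D))) with hγ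
  have hγ0 : 0 ≤ γ := (Real.exp_pos _).le
  have hγ1 : γ ≤ 1 := by
    rw [hγ, Real.exp_le_one_iff]
    have : 0 ≤ l * (4 * (κ : ℝ) ^ 2 * VV D) := by positivity
    linarith
  have h1 := rank_one f g hf hg θ γ hγ0 hγ1
  have h2 := err_one (κ := κ) hD hθ0 hτ1
  have h3 := err_two (κ := κ) hD hθ0 hτ1
  rw [← hl, ← hγ, ← hτ] at h2 h3
  -- combine
  have h4 : ‖∑ b, g b * GG f θ b - (γ : ℂ) * ((∑ a, f a) * ∑ b, g b)‖ ^ 2
      ≤ nn D ^ (16 * κ ^ 2) * (200 * T ^ 2 / κ) := by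
    refine h1.trans ?_
    have e1 : nn D ^ (2 * (4 * κ ^ 2)) * (∑ a : Fin (4 * κ ^ 2) → Fi D,
          ∑ a' : Fin (4 * κ ^ 2) → Fi D, |pk D (fun j => θ * (xr D (a j) - xr D (a' j))) - γ ^ 2|
        + 2 * nn D ^ (4 * κ ^ 2) * ∑ a : Fin (4 * κ ^ 2) → Fi D,
          |pk D (fun j => θ * xr D (a j)) - γ|)
        ≤ nn D ^ (2 * (4 * κ ^ 2)) * (nn D ^ (2 * (4 * κ ^ 2)) *
            (4 * (κ : ℝ) ^ 2 * (4160 * τ ^ 4) + 2 * κ * l * (4 * (D : ℝ) ^ 2))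
          + 2 * nn D ^ (4 * κ ^ 2) * (nn D ^ (4 * κ ^ 2) *
            (4 * (κ : ℝ) ^ 2 * (260 * τ ^ 4) + 2 * κ * l * (D : ℝ) ^ 2))) := by
      gcongr
    refine e1.trans ?_
    have e2 : nn D ^ (2 * (4 * κ ^ 2)) * (nn D ^ (2 * (4 * κ ^ 2)) *
            (4 * (κ : ℝ) ^ 2 * (4160 * τ ^ 4) + 2 * κ * l * (4 * (D : ℝ) ^ 2))
          + 2 * nn D ^ (4 * κ ^ 2) * (nn D ^ (4 * κ ^ 2) *
            (4 * (κ : ℝ) ^ 2 * (260 * τ ^ 4) + 2 * κ * l * (D : ℝ) ^ 2)))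
        = nn D ^ (16 * κ ^ 2) * (18720 * (κ ^ 2 * τ ^ 4) + 12 * κ * (l * (D : ℝ) ^ 2)) := by
      rw [show 16 * κ ^ 2 = (2 * (4 * κ ^ 2)) + (2 * (4 * κ ^ 2)) by ring,
        show 2 * (4 * κ ^ 2) = 4 * κ ^ 2 + 4 * κ ^ 2 by ring]
      simp only [pow_add]
      ring
    rw [e2]
    refine mul_le_mul_of_nonneg_left ?_ (by positivity)
    rw [le_div_iff₀ hκ0]
    have e3 : 18720 * ((κ : ℝ) ^ 2 * τ ^ 4) * κ ≤ 40 * T ^ 2 := by
      have f1 : 18720 * ((κ : ℝ) ^ 2 * τ ^ 4) * κ * κ = 18720 * (τ * κ) ^ 4 := by ring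
      have f2 : (τ * κ) ^ 4 ≤ T ^ 4 := pow_le_pow_left₀ (by positivity) hθ1 4
      by_contra hcon
      rw [not_le] at hcon
      have f3 : 40 * T ^ 2 * κ < 18720 * ((κ : ℝ) ^ 2 * τ ^ 4) * κ * κ :=
        mul_lt_mul_of_pos_right hcon hκ0
      rw [f1] at f3
      have f4 : 40 * T ^ 2 * (10 ^ 22 * T ^ 8) ≤ 40 * T ^ 2 * κ := by gcongr
      have f5 : T ^ 4 ≤ T ^ 2 * T ^ 8 := by
        rw [← pow_add]; exact pow_le_pow_right₀ hT (by norm_num)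
      nlinarith
    have e4 : 12 * (κ : ℝ) * (l * (D : ℝ) ^ 2) * κ ≤ 160 * T ^ 2 := by
      have f1 : 12 * (κ : ℝ) * (l * (D : ℝ) ^ 2) * κ ≤ 12 * (κ : ℝ) * (13.17 * τ ^ 2) * κ := by
        gcongr
      have f2 : 12 * (κ : ℝ) * (13.17 * τ ^ 2) * κ = 158.04 * (τ * κ) ^ 2 := by ring
      have f3 : (τ * κ) ^ 2 ≤ T ^ 2 := pow_le_pow_left₀ (by positivity) hθ1 2
      nlinarith
    nlinarith
  -- take the root
  have h5 : nn D ^ (16 * κ ^ 2) * (200 * T ^ 2 / κ)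
      ≤ (nn D ^ (8 * κ ^ 2) * (1 / (4 * 10 ^ 9 * T ^ 3))) ^ 2 := by
    rw [mul_pow, ← pow_mul, show 8 * κ ^ 2 * 2 = 16 * κ ^ 2 by ring]
    refine mul_le_mul_of_nonneg_left ?_ (by positivity)
    rw [one_div, inv_pow, div_le_iff₀ hκ0, ← div_eq_inv_mul, le_div_iff₀ (by positivity)]
    have : 200 * T ^ 2 * (4 * 10 ^ 9 * T ^ 3) ^ 2 = 32 * 10 ^ 20 * T ^ 8 := by ring
    rw [this]
    have f5 : (0 : ℝ) ≤ T ^ 8 := by positivity
    linarith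
  exact (sq_le_sq₀ (norm_nonneg _) (by positivity)).1 (h4.trans h5)

end Pool.Agent.N554.SL
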