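import Pool.Agent.N554.SL.PsiQ
import Pool.Agent.N554.SL.Count2

/-!
The integral of the third power of `Psi`.
-/

set_option autoImplicit false

namespace Pool.Agent.N554.SL

open Finset Complex ComplexConjugate

/-- the coordinates -/
abbrev Fi (D : ℕ) : Type := Fin (2 * D + 1)

/-- quadruples of coordinates -/
abbrev Om (D : ℕ) : Type := (Fi D × Fi D) × (Fi D × Fi D)

/-- the integer phase -/
def uz (D : ℕ) (ω : Om D) : ℤ := (xz D ω.1.1 - xz D ω.1.2) * (xz D ω.2.1 - xz D ω.2.2)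

lemma sk_sq_E (D : ℕ) (t : ℝ) : ((nn D ^ 2 * sk D t ^ 2 : ℝ) : ℂ)
    = ∑ q : Fi D × Fi D, E (t * (xr D q.1 - xr D q.2)) := by
  have h1 := sum_E D t
  rw [Fintype.sum_prod_type]
  have h2 : ((nn D * sk D t : ℝ) : ℂ) * (starRingEnd ℂ) ((nn D * sk D t : ℝ) : ℂ)
      = ∑ x : Fin (2 * D + 1), ∑ y : Fin (2 * D + 1), E (t * (xr D x - xr D y)) := by
    rw [← h1, map_sum, Finset.sum_mul_sum]
    refine Finset.sum_congr rfl fun x _ => Finset.sum_congr rfl fun y _ => ?_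
    rw [E_conj, ← E_add]
    congr 1
    ring
  rw [← h2, Complex.conj_ofReal]
  push_cast
  ring

lemma Psi_E (D : ℕ) (θ : ℝ) : ((nn D ^ 4 * Psi D θ : ℝ) : ℂ)
    = ∑ ω : Om D, E (θ * (uz D ω : ℤ)) := by
  have h0 := (nn_pos D).ne'
  have h1 : nn D ^ 4 * Psi D θ = ∑ q : Fi D × Fi D,
      nn D ^ 2 * sk D (θ * (xr D q.1 - xr D q.2)) ^ 2 := by
    unfold Psi
    rw [← Finset.mul_sum, Fintype.sum_prod_type]
    field_simp
  have h2 : ∑ ω : Om D, E (θ * (uz D ω : ℤ))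
      = ∑ q : Fi D × Fi D, ∑ r : Fi D × Fi D, E (θ * (uz D (q, r) : ℤ)) := Fintype.sum_prod_type _
  rw [h1, Complex.ofReal_sum, h2]
  refine Finset.sum_congr rfl fun q _ => ?_
  rw [sk_sq_E]
  refine Finset.sum_congr rfl fun r _ => ?_
  congr 1
  unfold uz
  push_cast
  rw [xr_eq, xr_eq, xr_eq, xr_eq]
  ring

/-- triples of quadruples -/
abbrev Om3 (D : ℕ) : Type := Om D × Om D × Om D

/-- the total phase -/
def mz (D : ℕ) (p : Om3 D) : ℤ := uz D p.1 + uz D p.2.1 + uz D p.2.2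

lemma Psi_cube (D : ℕ) (θ : ℝ) : nn D ^ 12 * Psi D θ ^ 3
    = ∑ p : Om3 D, Real.cos (2 * Real.pi * (θ * (mz D p : ℤ))) := by
  have h1 : (((nn D ^ 4 * Psi D θ) ^ 3 : ℝ) : ℂ) = ∑ p : Om3 D, E (θ * (mz D p : ℤ)) := by
    have e1 : ∑ p : Om3 D, E (θ * (mz D p : ℤ))
        = ∑ a : Om D, ∑ b : Om D, ∑ c : Om D, E (θ * (mz D (a, b, c) : ℤ)) := by
      rw [Fintype.sum_prod_type]
      exact Finset.sum_congr rfl fun a _ => Fintype.sum_prod_type _
    rw [e1, Complex.ofReal_pow, Psi_E, pow_succ, pow_two, mul_assoc, Finset.sum_mul_sum,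
      Finset.sum_mul]
    refine Finset.sum_congr rfl fun a _ => ?_
    rw [← Finset.sum_mul_sum]
    rw [Finset.sum_mul_sum, Finset.mul_sum]
    refine Finset.sum_congr rfl fun b _ => ?_
    rw [Finset.mul_sum]
    refine Finset.sum_congr rfl fun c _ => ?_
    rw [← E_add, ← E_add]
    congr 1
    unfold mz
    push_cast
    ring
  have h2 := congrArg Complex.re h1
  rw [Complex.ofReal_re, Complex.re_sum] at h2
  rw [show nn D ^ 12 * Psi D θ ^ 3 = (nn D ^ 4 * Psi D θ) ^ 3 by ring, h2]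
  exact Finset.sum_congr rfl fun p _ => E_re _

lemma int_cos (m : ℤ) : ∫ θ in (0:ℝ)..(1/2), Real.cos (2 * Real.pi * (θ * m))
    = if m = 0 then 1 / 2 else 0 := by
  split_ifs with h
  · subst h
    simp
  · have hm : (m : ℝ) ≠ 0 := by exact_mod_cast h
    have hc : 2 * Real.pi * m ≠ 0 := mul_ne_zero (by positivity) hm
    have h1 : ∀ θ : ℝ, Real.cos (2 * Real.pi * (θ * m)) = Real.cos (θ * (2 * Real.pi * m)) := by
      intro θ; congr 1; ring
    rw [intervalIntegral.integral_congr (g := fun θ : ℝ => Real.cos (θ * (2 * Real.pi * m)))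
      (fun θ _ => h1 θ)]
    rw [intervalIntegral.integral_comp_mul_right (fun x => Real.cos x) hc, integral_cos]
    rw [show (1 / 2 : ℝ) * (2 * Real.pi * m) = m * Real.pi by ring, Real.sin_int_mul_pi]
    simp

lemma xz_inj (D : ℕ) : Function.Injective (xz D) := by
  intro i j h
  unfold xz at h
  apply Fin.ext
  have : ((i : ℕ) : ℤ) = (j : ℕ) := by linarith
  exact_mod_cast this

lemma xz_bound (D : ℕ) (i j : Fi D) : -((2 * D : ℕ) : ℤ) ≤ xz D i - xz D j ∧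
    xz D i - xz D j ≤ ((2 * D : ℕ) : ℤ) := by
  unfold xz
  have h1 := i.2
  have h2 := j.2
  push_cast
  constructor <;> omega

lemma count_triples (D : ℕ) :
    #{p : Om3 D | mz D p = 0} ≤ (2 * D + 1) ^ 6 * #(sols (2 * D)) := by
  classical
  set f : Om3 D → Z3 × Z3 := fun p =>
    ((xz D p.1.1.1 - xz D p.1.1.2, xz D p.2.1.1.1 - xz D p.2.1.1.2,
      xz D p.2.2.1.1 - xz D p.2.2.1.2),
     (xz D p.1.2.1 - xz D p.1.2.2, xz D p.2.1.2.1 - xz D p.2.1.2.2,
      xz D p.2.2.2.1 - xz D p.2.2.2.2)) with hf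
  apply Finset.card_le_mul_card_image_of_maps_to (f := f)
  · intro p hp
    have hp := (Finset.mem_filter.1 hp).2
    refine Finset.mem_filter.2 ⟨?_, ?_⟩
    · simp only [cube, mem_product, mem_Icc, hf]
      exact ⟨⟨xz_bound _ _ _, xz_bound _ _ _, xz_bound _ _ _⟩,
        xz_bound _ _ _, xz_bound _ _ _, xz_bound _ _ _⟩
    · rw [hf]
      unfold b3
      simp only
      unfold mz uz at hp
      exact hp
  · intro b _
    have h1 : #(Finset.univ : Finset (Fi D × Fi D × Fi D × Fi D × Fi D × Fi D))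
        = (2 * D + 1) ^ 6 := by
      rw [Finset.card_univ]
      simp only [Fintype.card_prod, Fintype.card_fin]
      ring
    rw [← h1]
    apply Finset.card_le_card_of_injOn (fun p : Om3 D =>
      (p.1.1.2, p.2.1.1.2, p.2.2.1.2, p.1.2.2, p.2.1.2.2, p.2.2.2.2))
    · intro p _
      exact Finset.mem_coe.2 (Finset.mem_univ _)
    · intro p hp q hq hpq
      have hp := (Finset.mem_filter.1 hp).2
      have hq := (Finset.mem_filter.1 hq).2
      obtain ⟨⟨⟨a1, a2⟩, a3, a4⟩, ⟨⟨b1, b2⟩, b3, b4⟩, ⟨c1, c2⟩, c3, c4⟩ := p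
      obtain ⟨⟨⟨d1, d2⟩, d3, d4⟩, ⟨⟨e1, e2⟩, e3, e4⟩, ⟨g1, g2⟩, g3, g4⟩ := q
      have hpq2 := hp.trans hq.symm
      rw [hf] at hpq2
      simp only [Prod.mk.injEq] at hpq hpq2 ⊢
      obtain ⟨rfl, rfl, rfl, rfl, rfl, rfl⟩ := hpq
      obtain ⟨⟨h1, h2, h3⟩, h4, h5, h6⟩ := hpq2
      exact ⟨⟨⟨xz_inj D (by linarith), rfl⟩, xz_inj D (by linarith), rfl⟩,
        ⟨⟨xz_inj D (by linarith), rfl⟩, xz_inj D (by linarith), rfl⟩,
        ⟨xz_inj D (by linarith), rfl⟩, xz_inj D (by linarith), rfl⟩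

lemma Psi_continuous (D : ℕ) : Continuous (Psi D) := by
  unfold Psi sk
  fun_prop

lemma int_Psi (D : ℕ) (hD : 1 ≤ D) : ∫ θ in (0:ℝ)..(1/2), Psi D θ ^ 3 ≤ 125 / (D : ℝ) ^ 2 := by
  have h0 := nn_pos D
  have hD' : (1 : ℝ) ≤ D := by exact_mod_cast hD
  have h1 : nn D ^ 12 * ∫ θ in (0:ℝ)..(1/2), Psi D θ ^ 3
      = (1 / 2) * (#{p : Om3 D | mz D p = 0} : ℝ) := by
    rw [← intervalIntegral.integral_const_mul]
    rw [intervalIntegral.integral_congr (g := fun θ : ℝ =>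
      ∑ p : Om3 D, Real.cos (2 * Real.pi * (θ * (mz D p : ℤ)))) (fun θ _ => Psi_cube D θ)]
    rw [intervalIntegral.integral_finsetSum]
    · rw [Finset.sum_congr rfl fun p _ => int_cos (mz D p)]
      rw [← Finset.sum_filter, Finset.sum_const, nsmul_eq_mul]
      ring
    · intro p _
      apply Continuous.intervalIntegrable
      fun_prop
  have h2 : (#{p : Om3 D | mz D p = 0} : ℝ) ≤ nn D ^ 6 * (1000 * ((2 * D : ℕ) : ℝ) ^ 4) := by
    have h3 : (#{p : Om3 D | mz D p = 0} : ℝ) ≤ (((2 * D + 1) ^ 6 * #(sols (2 * D)) : ℕ) : ℝ) := by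
      exact_mod_cast count_triples D
    refine h3.trans ?_
    push_cast
    have h4 := sols_card (m := 2 * D) (by omega)
    push_cast at h4
    have h5 : (2 * (D : ℝ) + 1) = nn D := rfl
    rw [h5]
    gcongr
  have h6 : nn D ^ 12 * ∫ θ in (0:ℝ)..(1/2), Psi D θ ^ 3 ≤ nn D ^ 12 * (125 / (D : ℝ) ^ 2) := by
    rw [h1]
    refine (mul_le_mul_of_nonneg_left h2 (by norm_num)).trans ?_
    have h7 : (2 * (D : ℝ)) ^ 6 ≤ nn D ^ 6 := by
      apply pow_le_pow_left₀ (by positivity)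
      unfold nn
      linarith
    push_cast
    have h8 : 1 / 2 * (nn D ^ 6 * (1000 * (2 * (D : ℝ)) ^ 4))
        = nn D ^ 6 * (2 * D) ^ 6 * (125 / (D : ℝ) ^ 2) := by
      field_simp
      ring
    rw [h8]
    calc nn D ^ 6 * (2 * (D : ℝ)) ^ 6 * (125 / (D : ℝ) ^ 2)
        ≤ nn D ^ 6 * nn D ^ 6 * (125 / (D : ℝ) ^ 2) := by gcongr
      _ = nn D ^ 12 * (125 / (D : ℝ) ^ 2) := by ring
  exact le_of_mul_le_mul_left h6 (by positivity)

end Pool.Agent.N554.SL
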