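import Pool.Agent.N554.SL.Kernel2

/-!
Upper bounds for the mean square of the kernel.
-/

set_option autoImplicit false

namespace Pool.Agent.N554.SL

open Finset

/-- the squared distance of `exp (2 π i u)` from one, halved -/
noncomputable def qq (u : ℝ) : ℝ := 1 - Real.cos (2 * Real.pi * u)

lemma qq_eq (u : ℝ) : qq u = 2 * Real.sin (Real.pi * u) ^ 2 := by
  unfold qq
  rw [show 2 * Real.pi * u = 2 * (Real.pi * u) by ring, Real.cos_two_mul]
  have := Real.sin_sq_add_cos_sq (Real.pi * u)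
  linarith

lemma qq_nonneg (u : ℝ) : 0 ≤ qq u := by
  rw [qq_eq]; positivity

lemma qq_sub (u v : ℝ) : qq (u - v) ≤ 2 * qq u + 2 * qq v := by
  rw [qq_eq, qq_eq, qq_eq, show Real.pi * (u - v) = Real.pi * u - Real.pi * v by ring,
    Real.sin_sub]
  set a := Real.sin (Real.pi * u)
  set b := Real.sin (Real.pi * v)
  have h1 : Real.cos (Real.pi * u) ^ 2 = 1 - a ^ 2 := by
    have := Real.sin_sq_add_cos_sq (Real.pi * u); linarith
  have h2 : Real.cos (Real.pi * v) ^ 2 = 1 - b ^ 2 := by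
    have := Real.sin_sq_add_cos_sq (Real.pi * v); linarith
  set c := Real.cos (Real.pi * u)
  set d := Real.cos (Real.pi * v)
  have h3 : (a * d - c * b) ^ 2 ≤ 2 * (a * d) ^ 2 + 2 * (c * b) ^ 2 := by
    nlinarith [sq_nonneg (a * d + c * b)]
  have h4 : (a * d) ^ 2 ≤ a ^ 2 := by
    rw [mul_pow, h2]; nlinarith [sq_nonneg a, sq_nonneg b, mul_nonneg (sq_nonneg a) (sq_nonneg b)]
  have h5 : (c * b) ^ 2 ≤ b ^ 2 := by
    rw [mul_pow, h1]; nlinarith [sq_nonneg a, sq_nonneg b, mul_nonneg (sq_nonneg a) (sq_nonneg b)]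
  nlinarith

lemma qq_lower {u : ℝ} (h0 : 0 ≤ u) (h1 : u ≤ 1 / 2) : 8 * u ^ 2 ≤ qq u := by
  rw [qq_eq]
  have hpi := Real.pi_pos
  have h2 : 2 / Real.pi * (Real.pi * u) ≤ Real.sin (Real.pi * u) :=
    Real.mul_le_sin (by positivity) (by nlinarith)
  have h3 : 2 / Real.pi * (Real.pi * u) = 2 * u := by field_simp
  rw [h3] at h2
  nlinarith

lemma sum_shift {φ : ℝ → ℝ} (h0 : ∀ u, 0 ≤ φ u) (h1 : ∀ u v, φ (u - v) ≤ 2 * φ u + 2 * φ v)
    {D p : ℕ} (hp : p ≤ D) :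
    nn D ^ 2 / 8 * φ p ≤ ∑ x : Fin (2 * D + 1), ∑ y : Fin (2 * D + 1), φ (xr D x - xr D y) := by
  set Φ : ℕ → ℝ := fun i => ∑ y : Fin (2 * D + 1), φ ((i : ℝ) - D - xr D y) with hΦ
  have hΦ0 : ∀ i, 0 ≤ Φ i := fun i => Finset.sum_nonneg fun _ _ => h0 _
  have e1 : ∑ x : Fin (2 * D + 1), ∑ y : Fin (2 * D + 1), φ (xr D x - xr D y)
      = ∑ i ∈ Finset.range (2 * D + 1), Φ i := by
    rw [← Fin.sum_univ_eq_sum_range]
    rfl
  rw [e1]
  have e2 : ∀ i : ℕ, nn D * φ p ≤ 2 * Φ (i + p) + 2 * Φ i := by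
    intro i
    rw [hΦ]
    simp only
    rw [Finset.mul_sum, Finset.mul_sum, ← Finset.sum_add_distrib]
    have : nn D * φ p = ∑ _y : Fin (2 * D + 1), φ p := by
      rw [Finset.sum_const, nsmul_eq_mul, card_fin_nn]
    rw [this]
    refine Finset.sum_le_sum fun y _ => ?_
    have h2 := h1 (((i + p : ℕ) : ℝ) - D - xr D y) ((i : ℝ) - D - xr D y)
    rw [show ((i + p : ℕ) : ℝ) - D - xr D y - ((i : ℝ) - D - xr D y) = (p : ℝ) by
      push_cast; ring] at h2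
    exact h2
  have e3 : ((D : ℝ) + 1) * (nn D * φ p) ≤ ∑ i ∈ Finset.range (D + 1),
      (2 * Φ (i + p) + 2 * Φ i) := by
    have : ((D : ℝ) + 1) * (nn D * φ p) = ∑ _i ∈ Finset.range (D + 1), nn D * φ p := by
      rw [Finset.sum_const, nsmul_eq_mul, Finset.card_range]
      push_cast
      ring
    rw [this]
    exact Finset.sum_le_sum fun i _ => e2 i
  have e4 : ∑ i ∈ Finset.range (D + 1), Φ i ≤ ∑ i ∈ Finset.range (2 * D + 1), Φ i :=
    Finset.sum_le_sum_of_subset_of_nonneg (Finset.range_mono (by omega)) fun i _ _ => hΦ0 i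
  have e5 : ∑ i ∈ Finset.range (D + 1), Φ (i + p) ≤ ∑ i ∈ Finset.range (2 * D + 1), Φ i := by
    have : ∑ i ∈ Finset.range (D + 1), Φ (i + p) = ∑ i ∈ Finset.Ico p (p + (D + 1)), Φ i := by
      rw [Finset.sum_Ico_eq_sum_range]
      have : p + (D + 1) - p = D + 1 := by omega
      rw [this]
      exact Finset.sum_congr rfl fun i _ => by rw [add_comm]
    rw [this]
    refine Finset.sum_le_sum_of_subset_of_nonneg ?_ fun i _ _ => hΦ0 i
    intro i hi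
    rw [Finset.mem_Ico] at hi
    rw [Finset.mem_range]
    omega
  rw [Finset.sum_add_distrib, ← Finset.mul_sum, ← Finset.mul_sum] at e3
  have e6 : nn D / 2 ≤ (D : ℝ) + 1 := by unfold nn; linarith
  have e7 : 0 ≤ nn D * φ p := mul_nonneg (nn_pos D).le (h0 _)
  nlinarith

lemma sk_sq (D : ℕ) (t : ℝ) : nn D ^ 2 * sk D t ^ 2
    = ∑ x : Fin (2 * D + 1), ∑ y : Fin (2 * D + 1),
      Real.cos (2 * Real.pi * (t * (xr D x - xr D y))) := by
  have h1 := sum_E D t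
  have h2 : ((nn D * sk D t : ℝ) : ℂ) * (starRingEnd ℂ) ((nn D * sk D t : ℝ) : ℂ)
      = ∑ x : Fin (2 * D + 1), ∑ y : Fin (2 * D + 1), E (t * (xr D x - xr D y)) := by
    rw [← h1, map_sum, Finset.sum_mul_sum]
    refine Finset.sum_congr rfl fun x _ => Finset.sum_congr rfl fun y _ => ?_
    rw [E_conj, ← E_add]
    congr 1
    ring
  have h3 := congrArg Complex.re h2
  rw [Complex.conj_ofReal, ← Complex.ofReal_mul, Complex.ofReal_re, Complex.re_sum] at h3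
  rw [show nn D ^ 2 * sk D t ^ 2 = nn D * sk D t * (nn D * sk D t) by ring, h3]
  refine Finset.sum_congr rfl fun x _ => ?_
  rw [Complex.re_sum]
  exact Finset.sum_congr rfl fun y _ => E_re _

/-- `1 - Psi` as a mean value -/
lemma one_sub_Psi (D : ℕ) (θ : ℝ) : nn D ^ 4 * (1 - Psi D θ)
    = ∑ x : Fin (2 * D + 1), ∑ x' : Fin (2 * D + 1), ∑ y : Fin (2 * D + 1),
      ∑ y' : Fin (2 * D + 1), qq (θ * (xr D x - xr D x') * (xr D y - xr D y')) := by
  have h0 := nn_pos D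
  have h1 : nn D ^ 4 * Psi D θ = ∑ x : Fin (2 * D + 1), ∑ x' : Fin (2 * D + 1),
      ∑ y : Fin (2 * D + 1), ∑ y' : Fin (2 * D + 1),
      Real.cos (2 * Real.pi * (θ * (xr D x - xr D x') * (xr D y - xr D y'))) := by
    unfold Psi
    rw [show nn D ^ 4 * ((∑ x : Fin (2 * D + 1), ∑ y : Fin (2 * D + 1),
      sk D (θ * (xr D x - xr D y)) ^ 2) / nn D ^ 2)
      = nn D ^ 2 * ∑ x : Fin (2 * D + 1), ∑ y : Fin (2 * D + 1),
        sk D (θ * (xr D x - xr D y)) ^ 2 by field_simp]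
    rw [Finset.mul_sum]
    refine Finset.sum_congr rfl fun x _ => ?_
    rw [Finset.mul_sum]
    refine Finset.sum_congr rfl fun x' _ => ?_
    rw [sk_sq]
  have h2 : nn D ^ 4 = ∑ _x : Fin (2 * D + 1), ∑ _x' : Fin (2 * D + 1), ∑ _y : Fin (2 * D + 1),
      ∑ _y' : Fin (2 * D + 1), (1 : ℝ) := by
    simp only [Finset.sum_const, nsmul_eq_mul, card_fin_nn]
    ring
  rw [mul_sub, mul_one, h1]
  nth_rewrite 1 [h2]
  unfold qq
  simp only [← Finset.sum_sub_distrib]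

lemma Psi_le_of {D p p' : ℕ} (hp : p ≤ D) (hp' : p' ≤ D) (θ : ℝ) :
    Psi D θ ≤ 1 - qq (θ * p * p') / 64 := by
  have h0 := nn_pos D
  have h1 := one_sub_Psi D θ
  set φ : ℝ → ℝ := fun u => ∑ y : Fin (2 * D + 1),
      ∑ y' : Fin (2 * D + 1), qq (θ * u * (xr D y - xr D y')) with hφ
  have hφ0 : ∀ u, 0 ≤ φ u := fun u =>
    Finset.sum_nonneg fun _ _ => Finset.sum_nonneg fun _ _ => qq_nonneg _
  have hφ1 : ∀ u v, φ (u - v) ≤ 2 * φ u + 2 * φ v := by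
    intro u v
    rw [hφ]
    simp only
    rw [Finset.mul_sum, Finset.mul_sum, ← Finset.sum_add_distrib]
    refine Finset.sum_le_sum fun y _ => ?_
    rw [Finset.mul_sum, Finset.mul_sum, ← Finset.sum_add_distrib]
    refine Finset.sum_le_sum fun y' _ => ?_
    have := qq_sub (θ * u * (xr D y - xr D y')) (θ * v * (xr D y - xr D y'))
    rwa [show θ * u * (xr D y - xr D y') - θ * v * (xr D y - xr D y')
      = θ * (u - v) * (xr D y - xr D y') by ring] at this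
  have h2 := sum_shift hφ0 hφ1 hp
  have h3 : nn D ^ 2 / 8 * qq (θ * p * p') ≤ φ p := by
    have := sum_shift (φ := fun u => qq (θ * p * u)) (fun u => qq_nonneg _) (fun u v => by
      have := qq_sub (θ * p * u) (θ * p * v)
      rwa [← mul_sub] at this) hp'
    exact this
  have h4 : nn D ^ 4 * (1 - Psi D θ) = ∑ x : Fin (2 * D + 1), ∑ x' : Fin (2 * D + 1),
      φ (xr D x - xr D x') := h1
  have h5 : nn D ^ 2 / 8 * (nn D ^ 2 / 8 * qq (θ * p * p')) ≤ nn D ^ 4 * (1 - Psi D θ) := by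
    rw [h4]
    refine le_trans ?_ h2
    exact mul_le_mul_of_nonneg_left h3 (by positivity)
  have h6 : nn D ^ 4 * (qq (θ * p * p') / 64) ≤ nn D ^ 4 * (1 - Psi D θ) := by
    refine le_trans (le_of_eq ?_) h5
    ring
  have h7 := le_of_mul_le_mul_left h6 (by positivity)
  linarith

lemma Psi_small {D : ℕ} {θ : ℝ} (h0 : 0 ≤ θ) (h1 : θ * D ^ 2 ≤ 1 / 2) :
    Psi D θ ≤ 1 - (θ * D ^ 2) ^ 2 / 8 := by
  have h2 := Psi_le_of (D := D) le_rfl le_rfl θ
  have h3 := qq_lower (u := θ * D * D) (by positivity) (by nlinarith)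
  nlinarith

lemma exists_mul {D : ℕ} {τ : ℝ} (h0 : 0 < τ) (h1 : τ ≤ 1 / 4) (h2 : 1 / 2 ≤ τ * D) :
    ∃ m : ℕ, m ≤ D ∧ 1 / 4 ≤ τ * m ∧ τ * m ≤ 1 / 2 := by
  have h3 : (⌊1 / (2 * τ)⌋₊ : ℝ) ≤ 1 / (2 * τ) := Nat.floor_le (by positivity)
  have h4 : 1 / (2 * τ) < ⌊1 / (2 * τ)⌋₊ + 1 := Nat.lt_floor_add_one _
  have h5 : τ * (1 / (2 * τ)) = 1 / 2 := by field_simp
  refine ⟨⌊1 / (2 * τ)⌋₊, ?_, ?_, ?_⟩
  · have : (1 / (2 * τ) : ℝ) ≤ D := by
      rw [div_le_iff₀ (by positivity)]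
      linarith
    exact_mod_cast h3.trans this
  · have := mul_lt_mul_of_pos_left h4 h0
    rw [h5] at this
    linarith
  · have := mul_le_mul_of_nonneg_left h3 h0.le
    rw [h5] at this
    exact this

lemma Psi_large {D : ℕ} {θ : ℝ} (hD : 1 ≤ D) (h0 : θ ≤ 1 / 2) (h1 : 1 / 2 ≤ θ * D ^ 2) :
    Psi D θ ≤ 1 - 1 / 128 := by
  have hD' : (1 : ℝ) ≤ D := by exact_mod_cast hD
  have hpos : 0 < θ := by
    by_contra hcon
    nlinarith [not_lt.1 hcon, sq_nonneg (D : ℝ)]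
  have key : ∃ p p' : ℕ, p ≤ D ∧ p' ≤ D ∧ 1 / 4 ≤ θ * p * p' ∧ θ * p * p' ≤ 1 / 2 := by
    rcases le_or_gt (1 / 4) θ with h2 | h2
    · exact ⟨1, 1, hD, hD, by push_cast; linarith, by push_cast; linarith⟩
    · rcases le_or_gt (1 / 2) (θ * D) with h3 | h3
      · obtain ⟨m, hm, h4, h5⟩ := exists_mul hpos h2.le h3
        exact ⟨m, 1, hm, hD, by push_cast; linarith, by push_cast; linarith⟩
      · rcases le_or_gt (1 / 4) (θ * D) with h4 | h4
        · exact ⟨D, 1, le_rfl, hD, by push_cast; linarith, by push_cast; linarith⟩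
        · obtain ⟨m, hm, h5, h6⟩ := exists_mul (D := D) (τ := θ * D) (by positivity) h4.le
            (by nlinarith)
          exact ⟨D, m, le_rfl, hm, h5, h6⟩
  obtain ⟨p, p', hp, hp', h2, h3⟩ := key
  have h4 := Psi_le_of hp hp' θ
  have h5 := qq_lower (u := θ * p * p') (by linarith) h3
  have h6 : (1 / 4 : ℝ) ^ 2 ≤ (θ * p * p') ^ 2 := pow_le_pow_left₀ (by norm_num) h2 2
  nlinarith

lemma Psi_le_one (D : ℕ) (θ : ℝ) : Psi D θ ≤ 1 := by
  have h := Psi_le_of (D := D) (p := 0) (p' := 0) (Nat.zero_le _) (Nat.zero_le _) θ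
  refine h.trans ?_
  have h2 := qq_nonneg (θ * ((0 : ℕ) : ℝ) * ((0 : ℕ) : ℝ))
  have h3 : 0 ≤ qq (θ * ((0 : ℕ) : ℝ) * ((0 : ℕ) : ℝ)) / 64 := by positivity
  exact sub_le_self _ h3

end Pool.Agent.N554.SL
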