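import Pool.Agent.N554.SL.Window
import Pool.Agent.N466.Pl.Euclid

/-!
The transfer: a proper colouring of the thickened plane with at most six colours gives a colouring
of the plane without a forbidden interval of distances, and then closed colour classes.
-/

set_option autoImplicit false

namespace Pool.Agent.N554.SL

open Finset Filter Topology

/-- the plane -/
abbrev P2 : Type := EuclideanSpace ℝ (Fin 2)

/-- the squared inverse mesh -/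
noncomputable def Mz (ε : ℝ) (D : ℕ) : ℕ := 2 * ⌈2 * (D : ℝ) ^ 2 / ε ^ 2⌉₊

lemma Mz_lower (ε : ℝ) (D : ℕ) : 4 * (D : ℝ) ^ 2 / ε ^ 2 ≤ Mz ε D := by
  unfold Mz
  have := Nat.le_ceil (2 * (D : ℝ) ^ 2 / ε ^ 2)
  push_cast
  have h : 4 * (D : ℝ) ^ 2 / ε ^ 2 = 2 * (2 * (D : ℝ) ^ 2 / ε ^ 2) := by ring
  linarith

lemma Mz_upper (ε : ℝ) (D : ℕ) : (Mz ε D : ℝ) ≤ 4 * (D : ℝ) ^ 2 / ε ^ 2 + 2 := by
  unfold Mz
  have := (Nat.ceil_lt_add_one (show 0 ≤ 2 * (D : ℝ) ^ 2 / ε ^ 2 by positivity)).le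
  push_cast
  have h : 4 * (D : ℝ) ^ 2 / ε ^ 2 = 2 * (2 * (D : ℝ) ^ 2 / ε ^ 2) := by ring
  linarith

lemma Mz_pos {ε : ℝ} (hε : 0 < ε) {D : ℕ} (hD : 1 ≤ D) : (0 : ℝ) < Mz ε D := by
  have hD' : (0 : ℝ) < D := by exact_mod_cast hD
  exact lt_of_lt_of_le (by positivity) (Mz_lower ε D)

/-- the grid point -/
noncomputable def Gp (M : ℝ) (z : ℤ × ℤ) : P2 := !₂[2 * (z.1 : ℝ) / √M, 2 * (z.2 : ℝ) / √M]

lemma Gp_dist {M : ℝ} (hM : 0 < M) (z w : ℤ × ℤ) : dist (Gp M z) (Gp M w) ^ 2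
    = 4 * (((z.1 : ℝ) - w.1) ^ 2 + ((z.2 : ℝ) - w.2) ^ 2) / M := by
  have hs : 0 < √M := Real.sqrt_pos.2 hM
  have hs2 : √M ^ 2 = M := Real.sq_sqrt hM.le
  rw [EuclideanSpace.dist_eq, Real.sq_sqrt (Finset.sum_nonneg fun _ _ => sq_nonneg _),
    Fin.sum_univ_two]
  unfold Gp
  simp only [Real.dist_eq, sq_abs, Matrix.cons_val_zero, Matrix.cons_val_one]
  rw [show 4 * (((z.1 : ℝ) - w.1) ^ 2 + ((z.2 : ℝ) - w.2) ^ 2) / M
    = 4 * (((z.1 : ℝ) - w.1) ^ 2 + ((z.2 : ℝ) - w.2) ^ 2) / √M ^ 2 by rw [hs2]]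
  field_simp
  ring

/-- the fibre point -/
noncomputable def Fb {k D : ℕ} (M : ℝ) (a : Fin k → Fi D) (j : Fin k) : ℝ := (xr D (a j) + D) / √M

lemma Fb_mem {k D : ℕ} {ε : ℝ} (hε : 0 < ε) (hD : 1 ≤ D) (a : Fin k → Fi D) (j : Fin k) :
    0 ≤ Fb (Mz ε D) a j ∧ Fb (Mz ε D) a j ≤ ε := by
  have hM := Mz_pos hε hD
  have hs : 0 < √(Mz ε D : ℝ) := Real.sqrt_pos.2 hM
  have h1 := abs_le.1 (xr_abs_le D (a j))
  have h2 := Mz_lower ε D
  unfold Fb
  constructor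
  · apply div_nonneg _ hs.le
    linarith [h1.1]
  · rw [div_le_iff₀ hs]
    have h3 : 2 * (D : ℝ) / ε ≤ √(Mz ε D : ℝ) := by
      apply Real.le_sqrt_of_sq_le
      refine le_trans (le_of_eq ?_) h2
      rw [div_pow]
      ring
    rw [div_le_iff₀ hε] at h3
    linarith [h1.2]

lemma Fb_dist {k D : ℕ} {M : ℝ} (hM : 0 < M) (a b : Fin k → Fi D) :
    ∑ j, (Fb M a j - Fb M b j) ^ 2 = (dist2 a b : ℤ) / M := by
  have hs : 0 < √M := Real.sqrt_pos.2 hM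
  have hs2 : √M ^ 2 = M := Real.sq_sqrt hM.le
  unfold Fb dist2
  push_cast
  rw [Finset.sum_div]
  refine Finset.sum_congr rfl fun j _ => ?_
  rw [xr_eq, xr_eq]
  nth_rewrite 3 [← hs2]
  field_simp
  ring

lemma dist2_int {k D : ℕ} (a b : Fin k → Fi D) :
    dist2 a b = sqz a + sqz b - 2 * ∑ j, xz D (a j) * xz D (b j) := by
  unfold dist2 sqz
  rw [Finset.mul_sum, ← Finset.sum_add_distrib, ← Finset.sum_sub_distrib]
  exact Finset.sum_congr rfl fun j _ => by ring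

/-- one scale -/
lemma step {κ T D j : ℕ} (hT : 10 ^ 11 ≤ T) (hκ : 10 ^ 22 * T ^ 8 ≤ κ) {ε : ℝ} (hε : 0 < ε)
    (hD : 1 ≤ D) (hgood : Good κ T D j) {m : ℕ} (hm : m < 7)
    (c : P2 → (Fin (4 * κ ^ 2) → ℝ) → Fin m)
    (hc : ∀ u v s t, (∀ i, 0 ≤ s i ∧ s i ≤ ε) → (∀ i, 0 ≤ t i ∧ t i ≤ ε) →
      dist u v ^ 2 + ∑ i, (s i - t i) ^ 2 = 1 → c u s ≠ c v t) :
    ∃ col : ℤ × ℤ → Fin m, ∀ z w, col z = col w → 2 * ww κ T D / Mz ε D
      ≤ |1 - dist (Gp (Mz ε D) z) (Gp (Mz ε D) w) ^ 2 - 2 * RR κ T D j / Mz ε D| := by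
  classical
  obtain ⟨W, hW1, hW2, hW3⟩ := hgood
  have hM := Mz_pos hε hD
  have hn := nn_pos D
  have hT1 : (10 : ℝ) ^ 11 ≤ T := by exact_mod_cast hT
  have hκ1 : (10 : ℝ) ^ 22 * (T : ℝ) ^ 8 ≤ κ := by exact_mod_cast hκ
  have hT0 : (0 : ℝ) < T := by linarith
  have hWpos : (0 : ℝ) < #W := lt_of_lt_of_le (by positivity) hW1
  have hm0 : Nonempty (Fin m) := ⟨c 0 0⟩
  have hm6 : (m : ℝ) ≤ 6 := by
    have : m ≤ 6 := by omega
    exact_mod_cast this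
  have hex : ∀ z : ℤ × ℤ, ∃ i : Fin m, (#W : ℝ) / 6
      ≤ #(W.filter (fun a => c (Gp (Mz ε D) z) (Fb (Mz ε D) a) = i)) := by
    intro z
    obtain ⟨i, _, hi⟩ := Finset.exists_le_card_fiber_of_nsmul_le_card_of_maps_to
      (s := W) (t := (Finset.univ : Finset (Fin m)))
      (f := fun a => c (Gp (Mz ε D) z) (Fb (Mz ε D) a)) (b := (#W : ℝ) / 6)
      (fun _ _ => Finset.mem_univ _) Finset.univ_nonempty (by
        rw [Finset.card_univ, Fintype.card_fin, nsmul_eq_mul]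
        nlinarith)
    exact ⟨i, hi⟩
  choose col hcol using hex
  refine ⟨col, fun z w hzw => ?_⟩
  by_contra hcon
  rw [not_le] at hcon
  set A := W.filter (fun a => c (Gp (Mz ε D) z) (Fb (Mz ε D) a) = col z) with hA
  set B := W.filter (fun a => c (Gp (Mz ε D) w) (Fb (Mz ε D) a) = col z) with hB
  have hAc : (#W : ℝ) / 6 ≤ #A := hcol z
  have hBc : (#W : ℝ) / 6 ≤ #B := by
    have := hcol w
    rw [← hzw] at this
    exact this
  set N : ℤ := (Mz ε D : ℤ) - 4 * ((z.1 - w.1) ^ 2 + (z.2 - w.2) ^ 2) with hN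
  have hdist := Gp_dist hM z w
  have hNr : 1 - dist (Gp (Mz ε D) z) (Gp (Mz ε D) w) ^ 2 - 2 * RR κ T D j / Mz ε D
      = ((N : ℝ) - 2 * RR κ T D j) / Mz ε D := by
    rw [hdist, hN]
    push_cast
    field_simp
  rw [hNr, abs_div, abs_of_pos hM, div_lt_div_iff_of_pos_right hM] at hcon
  have h6 : nn D ^ (4 * κ ^ 2) / (2304 * T) ≤ (#W : ℝ) / 6 := by
    rw [le_div_iff₀ (by norm_num)]
    refine le_trans (le_of_eq ?_) hW1
    field_simp
    norm_num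
  obtain ⟨a, ha, b, hb, hab⟩ := cross (R := RR κ T D j) hD hT1 hκ1 A B N
    (by
      intro a ha b hb
      have h1 := hW3 a (Finset.mem_filter.1 ha).1 b (Finset.mem_filter.1 hb).1
      rw [dist2_int, hN]
      unfold Mz
      push_cast
      omega)
    (fun a ha => hW2 a (Finset.mem_filter.1 ha).1)
    (fun a ha => hW2 a (Finset.mem_filter.1 ha).1)
    hcon.le (h6.trans hAc) (h6.trans hBc)
  have ha2 := (Finset.mem_filter.1 ha).2
  have hb2 := (Finset.mem_filter.1 hb).2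
  apply hc (Gp (Mz ε D) z) (Gp (Mz ε D) w) (Fb (Mz ε D) a) (Fb (Mz ε D) b)
    (fun i => Fb_mem hε hD a i) (fun i => Fb_mem hε hD b i) _ (ha2.trans hb2.symm)
  rw [hdist, Fb_dist hM, hab, hN]
  push_cast
  field_simp
  ring

lemma tendsto_Mz {ε : ℝ} (hε : 0 < ε) :
    Tendsto (fun D : ℕ => (D : ℝ) ^ 2 / Mz ε D) atTop (𝓝 (ε ^ 2 / 4)) := by
  have h1 : Tendsto (fun D : ℕ => (Mz ε D : ℝ) / (D : ℝ) ^ 2) atTop (𝓝 (4 / ε ^ 2)) := by
    have hlow : ∀ᶠ D : ℕ in atTop, 4 / ε ^ 2 ≤ (Mz ε D : ℝ) / (D : ℝ) ^ 2 := by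
      filter_upwards [eventually_ge_atTop 1] with D hD
      have hD' : (0 : ℝ) < D := by exact_mod_cast hD
      rw [le_div_iff₀ (by positivity)]
      refine le_trans (le_of_eq ?_) (Mz_lower ε D)
      ring
    have hupp : ∀ᶠ D : ℕ in atTop, (Mz ε D : ℝ) / (D : ℝ) ^ 2
        ≤ 4 / ε ^ 2 + 2 * (1 / (D : ℝ)) := by
      filter_upwards [eventually_ge_atTop 1] with D hD
      have hD' : (1 : ℝ) ≤ D := by exact_mod_cast hD
      have hD0 : (0 : ℝ) < D := by linarith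
      rw [div_le_iff₀ (by positivity)]
      refine (Mz_upper ε D).trans ?_
      have : (4 / ε ^ 2 + 2 * (1 / (D : ℝ))) * (D : ℝ) ^ 2 = 4 * (D : ℝ) ^ 2 / ε ^ 2 + 2 * D := by
        field_simp
      rw [this]
      linarith
    have hlim : Tendsto (fun D : ℕ => 4 / ε ^ 2 + 2 * (1 / (D : ℝ))) atTop (𝓝 (4 / ε ^ 2)) := by
      have := (tendsto_one_div_atTop_nhds_zero_nat (𝕜 := ℝ)).const_mul 2
      have := this.const_add (4 / ε ^ 2)
      simpa using this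
    exact tendsto_of_tendsto_of_tendsto_of_le_of_le' tendsto_const_nhds hlim hlow hupp
  have h2 := h1.inv₀ (by positivity)
  rw [inv_div] at h2
  refine h2.congr fun D => ?_
  rw [inv_div]

lemma tendsto_Mz_inv {ε : ℝ} (hε : 0 < ε) :
    Tendsto (fun D : ℕ => √(2 / (Mz ε D : ℝ))) atTop (𝓝 0) := by
  have h1 : Tendsto (fun D : ℕ => 2 / (Mz ε D : ℝ)) atTop (𝓝 0) := by
    have h2 := (tendsto_Mz hε).mul
      (((tendsto_one_div_atTop_nhds_zero_nat (𝕜 := ℝ)).pow 2).const_mul 2)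
    have h3 : ε ^ 2 / 4 * (2 * (0 : ℝ) ^ 2) = 0 := by ring
    rw [h3] at h2
    refine h2.congr' ?_
    filter_upwards [eventually_ge_atTop 1] with D hD
    have hD' : (0 : ℝ) < D := by exact_mod_cast hD
    have hM := Mz_pos hε hD
    field_simp
  have h4 := h1.sqrt
  rwa [Real.sqrt_zero] at h4

/-- the nearest grid point -/
noncomputable def zr (M : ℝ) (x : P2) : ℤ × ℤ := (round (x 0 * √M / 2), round (x 1 * √M / 2))

lemma zr_dist {M : ℝ} (hM : 0 < M) (x : P2) : dist (Gp M (zr M x)) x ≤ √(2 / M) := by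
  have hs : 0 < √M := Real.sqrt_pos.2 hM
  have hs2 : √M ^ 2 = M := Real.sq_sqrt hM.le
  rw [EuclideanSpace.dist_eq, Fin.sum_univ_two]
  apply Real.sqrt_le_sqrt
  have key : ∀ y : ℝ, dist (2 * ((round (y * √M / 2) : ℤ) : ℝ) / √M) y ^ 2 ≤ 1 / M := by
    intro y
    rw [Real.dist_eq, sq_abs]
    have h1 : 2 * ((round (y * √M / 2) : ℤ) : ℝ) / √M - y
        = -(2 * (y * √M / 2 - ((round (y * √M / 2) : ℤ) : ℝ))) / √M := by
      field_simp
      ring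
    rw [h1, div_pow, hs2]
    have h2 := abs_sub_round (y * √M / 2)
    have h3 : (y * √M / 2 - ((round (y * √M / 2) : ℤ) : ℝ)) ^ 2 ≤ (1 / 2) ^ 2 := by
      rw [← sq_abs]
      exact pow_le_pow_left₀ (abs_nonneg _) h2 2
    gcongr
    nlinarith
  have h0 := key (x 0)
  have h1 := key (x 1)
  unfold Gp zr
  simp only [Matrix.cons_val_zero, Matrix.cons_val_one]
  calc _ ≤ 1 / M + 1 / M := add_le_add h0 h1
    _ = 2 / M := by ring

lemma tendsto_grid {ε : ℝ} (hε : 0 < ε) (x : P2) :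
    Tendsto (fun D : ℕ => Gp (Mz ε D) (zr (Mz ε D) x)) atTop (𝓝 x) := by
  rw [tendsto_iff_dist_tendsto_zero]
  refine squeeze_zero' (Eventually.of_forall fun _ => dist_nonneg) ?_ (tendsto_Mz_inv hε)
  filter_upwards [eventually_ge_atTop 1] with D hD
  exact zr_dist (Mz_pos hε hD) x

lemma tendsto_ww {ε : ℝ} (hε : 0 < ε) (κ T : ℕ) :
    Tendsto (fun D : ℕ => 2 * ww κ T D / Mz ε D) atTop (𝓝 (2 * (κ / (12 * T)) * (ε ^ 2 / 4))) := by
  refine ((tendsto_Mz hε).const_mul (2 * ((κ : ℝ) / (12 * T)))).congr fun D => ?_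
  unfold ww
  ring

/-- the limit of the centres -/
noncomputable def rho (κ T j : ℕ) (ε : ℝ) : ℝ :=
  2 * (4 / 3 * (κ : ℝ) ^ 2 - 8 * κ + (2 * j + 1) * (κ / (12 * T))) * (ε ^ 2 / 4)

lemma tendsto_RR {ε : ℝ} (hε : 0 < ε) (κ T j : ℕ) :
    Tendsto (fun D : ℕ => 2 * RR κ T D j / Mz ε D) atTop (𝓝 (rho κ T j ε)) := by
  have h1 : Tendsto (fun D : ℕ => 2 * (4 / 3 * (κ : ℝ) ^ 2 * (1 + 1 / (D : ℝ)) - 8 * κ
      + (2 * j + 1) * (κ / (12 * T)))) atTop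
      (𝓝 (2 * (4 / 3 * (κ : ℝ) ^ 2 * (1 + 0) - 8 * κ + (2 * j + 1) * (κ / (12 * T))))) := by
    exact ((((tendsto_one_div_atTop_nhds_zero_nat (𝕜 := ℝ)).const_add 1).const_mul _).sub_const _
      |>.add_const _).const_mul 2
  have h2 := h1.mul (tendsto_Mz hε)
  have h3 : 2 * (4 / 3 * (κ : ℝ) ^ 2 * (1 + 0) - 8 * κ + (2 * j + 1) * (κ / (12 * T)))
      * (ε ^ 2 / 4) = rho κ T j ε := by
    unfold rho; ring
  rw [h3] at h2
  refine h2.congr' ?_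
  filter_upwards [eventually_ge_atTop 1] with D hD
  have hD' : (0 : ℝ) < D := by exact_mod_cast hD
  have hM := Mz_pos hε hD
  unfold RR VV
  field_simp

/-- a colouring of the plane that avoids an interval of distances -/
lemma plane_colouring {κ T : ℕ} (hT : 10 ^ 11 ≤ T) (hκ : 10 ^ 22 * T ^ 8 ≤ κ) {ε : ℝ} (hε : 0 < ε)
    {m : ℕ} (hm : m < 7) (c : P2 → (Fin (4 * κ ^ 2) → ℝ) → Fin m)
    (hc : ∀ u v s t, (∀ i, 0 ≤ s i ∧ s i ≤ ε) → (∀ i, 0 ≤ t i ∧ t i ≤ ε) →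
      dist u v ^ 2 + ∑ i, (s i - t i) ^ 2 = 1 → c u s ≠ c v t) :
    ∃ j < 96 * T, ∃ col : P2 → Fin m, ∀ x y, col x = col y →
      2 * (κ / (12 * T)) * (ε ^ 2 / 4) ≤ |1 - dist x y ^ 2 - rho κ T j ε| := by
  classical
  have hT1 : 1 ≤ T := le_trans (by norm_num) hT
  have hκ1 : 1 ≤ κ := le_trans (by
    have : 1 ≤ T ^ 8 := Nat.one_le_pow _ _ hT1
    omega) hκ
  obtain ⟨j, hj, hinf⟩ := window_inf (κ := κ) (T := T) hκ1 hT1
  refine ⟨j, hj, ?_⟩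
  set S : Set ℕ := {D | 1 ≤ D ∧ Good κ T D j} with hS
  have hne : NeBot (atTop ⊓ 𝓟 S) := by
    rw [← Filter.frequently_mem_iff_neBot, Filter.frequently_atTop]
    intro D₀
    obtain ⟨D, hD0, hD1, hD2⟩ := hinf D₀
    exact ⟨D, hD0, hD1, hD2⟩
  let U : Ultrafilter ℕ := Ultrafilter.of (atTop ⊓ 𝓟 S)
  have hU : (U : Filter ℕ) ≤ atTop ⊓ 𝓟 S := Ultrafilter.of_le _
  have hU1 : (U : Filter ℕ) ≤ atTop := hU.trans inf_le_left
  have hU2 : S ∈ (U : Filter ℕ) := Filter.le_principal_iff.1 (hU.trans inf_le_right)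
  have hm0 : Nonempty (Fin m) := ⟨c 0 0⟩
  have hstep : ∀ D, ∃ col : ℤ × ℤ → Fin m, D ∈ S → ∀ z w, col z = col w →
      2 * ww κ T D / Mz ε D
        ≤ |1 - dist (Gp (Mz ε D) z) (Gp (Mz ε D) w) ^ 2 - 2 * RR κ T D j / Mz ε D| := by
    intro D
    by_cases hD : D ∈ S
    · obtain ⟨col, hcol⟩ := step hT hκ hε hD.1 hD.2 hm c hc
      exact ⟨col, fun _ => hcol⟩
    · exact ⟨fun _ => Classical.arbitrary _, fun h => absurd h hD⟩
  choose cD hcD using hstep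
  have hlim : ∀ x : P2, ∃ i : Fin m, ∀ᶠ D in (U : Filter ℕ), cD D (zr (Mz ε D) x) = i := by
    intro x
    obtain ⟨i, hi⟩ := Ultrafilter.eq_pure_of_finite (U.map (fun D => cD D (zr (Mz ε D) x)))
    refine ⟨i, ?_⟩
    have h1 : ({i} : Set (Fin m)) ∈ U.map (fun D => cD D (zr (Mz ε D) x)) := by
      rw [hi]
      exact Ultrafilter.mem_pure.2 rfl
    exact h1
  choose col hcol using hlim
  refine ⟨col, fun x y hxy => ?_⟩
  have hx := (tendsto_grid hε x).mono_left hU1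
  have hy := (tendsto_grid hε y).mono_left hU1
  have h1 := (tendsto_ww hε κ T).mono_left hU1
  have h2 := (tendsto_RR hε κ T j).mono_left hU1
  have h3 : Tendsto (fun D : ℕ => |1 - dist (Gp (Mz ε D) (zr (Mz ε D) x))
      (Gp (Mz ε D) (zr (Mz ε D) y)) ^ 2 - 2 * RR κ T D j / Mz ε D|) (U : Filter ℕ)
      (𝓝 |1 - dist x y ^ 2 - rho κ T j ε|) :=
    (((hx.dist hy).pow 2).const_sub 1 |>.sub h2).abs
  refine le_of_tendsto_of_tendsto h1 h3 ?_
  filter_upwards [hcol x, hcol y, hU2] with D h4 h5 h6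
  exact hcD D h6 _ _ (by rw [h4, h5, hxy])

/-- **no colouring of the thickened plane with at most six colours** -/
theorem no_colouring {κ T : ℕ} (hT : 10 ^ 11 ≤ T) (hκ : 10 ^ 22 * T ^ 8 ≤ κ) {ε : ℝ} (hε : 0 < ε)
    {m : ℕ} (hm : m < 7) (c : P2 → (Fin (4 * κ ^ 2) → ℝ) → Fin m)
    (hc : ∀ u v s t, (∀ i, 0 ≤ s i ∧ s i ≤ ε) → (∀ i, 0 ≤ t i ∧ t i ≤ ε) →
      dist u v ^ 2 + ∑ i, (s i - t i) ^ 2 = 1 → c u s ≠ c v t) : False := by
  classical
  have hT1 : (10 : ℝ) ^ 11 ≤ T := by exact_mod_cast hT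
  have hκ1 : (10 : ℝ) ^ 22 * (T : ℝ) ^ 8 ≤ κ := by exact_mod_cast hκ
  have hT0 : (0 : ℝ) < T := by linarith
  have hT8 : (1 : ℝ) ≤ (T : ℝ) ^ 8 := one_le_pow₀ (by linarith)
  have hκ12 : (12 : ℝ) ≤ κ := by nlinarith
  have hκ0 : (0 : ℝ) < κ := by linarith
  -- shrink
  set e : ℝ := min ε (1 / (2 * κ)) with he
  have he0 : 0 < e := lt_min hε (by positivity)
  have heε : e ≤ ε := min_le_left _ _
  have heκ : e * κ ≤ 1 / 2 := by
    have : e ≤ 1 / (2 * κ) := min_le_right _ _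
    calc e * κ ≤ 1 / (2 * κ) * κ := by gcongr
      _ = 1 / 2 := by field_simp
  obtain ⟨j, hj, col, hcol⟩ := plane_colouring hT hκ he0 hm c
    (fun u v s t hs ht h => hc u v s t (fun i => ⟨(hs i).1, (hs i).2.trans heε⟩)
      (fun i => ⟨(ht i).1, (ht i).2.trans heε⟩) h)
  set δ : ℝ := 2 * (κ / (12 * T)) * (e ^ 2 / 4) with hδ
  have hδ0 : 0 < δ := by positivity
  have hrho : rho κ T j e ≤ 1 / 4 := by
    have hj' : (j : ℝ) + 1 ≤ 96 * T := by exact_mod_cast hj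
    have h1 : (2 * (j : ℝ) + 1) * (κ / (12 * T)) ≤ 16 * κ := by
      calc (2 * (j : ℝ) + 1) * (κ / (12 * T)) ≤ (192 * T) * (κ / (12 * T)) := by
            gcongr
            linarith
        _ = 16 * κ := by field_simp; norm_num
    have h2 : (e * κ) ^ 2 ≤ (1 / 2) ^ 2 := pow_le_pow_left₀ (by positivity) heκ 2
    unfold rho
    have h3 : 4 / 3 * (κ : ℝ) ^ 2 - 8 * κ + (2 * j + 1) * (κ / (12 * T)) ≤ 2 * (κ : ℝ) ^ 2 := by
      nlinarith
    calc 2 * (4 / 3 * (κ : ℝ) ^ 2 - 8 * κ + (2 * j + 1) * (κ / (12 * T))) * (e ^ 2 / 4)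
        ≤ 2 * (2 * (κ : ℝ) ^ 2) * (e ^ 2 / 4) := by gcongr
      _ = (e * κ) ^ 2 := by ring
      _ ≤ 1 / 4 := by linarith
  set d : ℝ := √(1 - rho κ T j e) with hd
  have hd2 : d ^ 2 = 1 - rho κ T j e := Real.sq_sqrt (by linarith)
  have hd0 : 0 < d := Real.sqrt_pos.2 (by linarith)
  -- the closures of the colour classes
  have hclos : ∀ i : Fin m, ∀ x ∈ closure {x | col x = i}, ∀ y ∈ closure {x | col x = i},
      dist x y ≠ d := by
    intro i x hx y hy hxy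
    have h1 : (x, y) ∈ closure ({x | col x = i} ×ˢ {x | col x = i}) := by
      rw [closure_prod_eq]
      exact ⟨hx, hy⟩
    have h2 : ({x | col x = i} ×ˢ {x | col x = i} : Set (P2 × P2))
        ⊆ {p | δ ≤ |1 - dist p.1 p.2 ^ 2 - rho κ T j e|} := by
      rintro ⟨p, q⟩ ⟨hp, hq⟩
      exact hcol p q (Eq.trans hp (Eq.symm hq))
    have h3 : IsClosed {p : P2 × P2 | δ ≤ |1 - dist p.1 p.2 ^ 2 - rho κ T j e|} := by
      apply isClosed_le continuous_const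
      fun_prop
    have h4 := closure_minimal h2 h3 h1
    have h5 : δ ≤ |1 - dist x y ^ 2 - rho κ T j e| := h4
    rw [hxy, hd2, show 1 - (1 - rho κ T j e) - rho κ T j e = 0 by ring, abs_zero] at h5
    linarith
  apply Pool.Agent.N466.Pl.euclid_six m hm (fun i => (fun x : P2 => d • x) ⁻¹' closure {x | col x = i})
  · intro i
    exact isClosed_closure.preimage (continuous_const_smul d)
  · intro i x hx y hy hxy
    refine hclos i _ hx _ hy ?_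
    rw [dist_smul₀, hxy, Real.norm_of_nonneg hd0.le, mul_one]
  · rw [Set.eq_univ_iff_forall]
    intro x
    exact Set.mem_iUnion.2 ⟨col (d • x), subset_closure rfl⟩

end Pool.Agent.N554.SL
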