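import Pool.Agent.N466.Pl.Bricks

/-!
The seven colouring of the plane by bricks avoids the squared distances in `(0.8784, 1]`.
-/

set_option autoImplicit false

namespace Pool.Agent.N554.SL

open Set Pool.Agent.N466.Pl

lemma wall_gap_aux (j : ℤ) (m r m' r' : ℤ) (hr : r ≤ r') {v w : ℂ} (hv : v ∈ brick j (m, r))
    (hw : w ∈ brick j (m', r')) : ‖v - w‖ ^ 2 ≤ 0.8784 ∨ 1 < ‖v - w‖ ^ 2 := by
  have hsq := sq_dist v w
  rw [hsq]
  obtain ⟨a1, a2, a3, a4⟩ := hv
  obtain ⟨b1, b2, b3, b4⟩ := hw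
  simp only at a1 a2 a3 a4 b1 b2 b3 b4
  obtain ⟨d, rfl⟩ : ∃ d, r' = r + d := ⟨r' - r, by ring⟩
  obtain ⟨n, rfl⟩ : ∃ n, m' = m + n := ⟨m' - m, by ring⟩
  have hd0 : 0 ≤ d := by omega
  push_cast at b1 b2 b3 b4
  rcases lt_or_ge d 3 with hd3 | hd3
  · have hcase : d = 0 ∨ d = 1 ∨ d = 2 := by omega
    rcases hcase with rfl | rfl | rfl
    · -- the same row
      rcases lt_trichotomy n 0 with hn | hn | hn
      · right
        have h3 : (n : ℝ) ≤ -1 := by exact_mod_cast (by omega : n ≤ -1)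
        have h4 : 1 < v.re - w.re := by push_cast at b1 b2 b3 b4; linarith
        nlinarith [sq_nonneg (v.im - w.im)]
      · left
        subst hn
        push_cast at b1 b2 b3 b4
        have h3 : v.re - w.re ≤ 18 / 25 := by linarith
        have h4 : -(18 / 25) ≤ v.re - w.re := by linarith
        have h5 : v.im - w.im ≤ 3 / 5 := by linarith
        have h6 : -(3 / 5) ≤ v.im - w.im := by linarith
        nlinarith
      · right
        have h3 : (1 : ℝ) ≤ n := by exact_mod_cast (by omega : 1 ≤ n)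
        have h4 : 1 < w.re - v.re := by push_cast at b1 b2 b3 b4; linarith
        nlinarith [sq_nonneg (v.im - w.im)]
    · -- neighbouring rows
      right
      push_cast at b1 b2 b3 b4
      rcases lt_or_ge n 0 with hn | hn
      · have h3 : (n : ℝ) ≤ -1 := by exact_mod_cast (by omega : n ≤ -1)
        have h4 : 1 < v.re - w.re := by linarith
        nlinarith [sq_nonneg (v.im - w.im)]
      · have h3 : (0 : ℝ) ≤ n := by exact_mod_cast hn
        have h4 : 1 < w.re - v.re := by linarith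
        nlinarith [sq_nonneg (v.im - w.im)]
    · right
      push_cast at b1 b2 b3 b4
      rcases lt_or_ge n 0 with hn | hn
      · have h3 : (n : ℝ) ≤ -1 := by exact_mod_cast (by omega : n ≤ -1)
        have h4 : 108 / 125 ≤ v.re - w.re := by linarith
        have h5 : 3 / 5 ≤ w.im - v.im := by linarith
        nlinarith
      · have h3 : (0 : ℝ) ≤ n := by exact_mod_cast hn
        have h4 : 1 < w.re - v.re := by linarith
        nlinarith [sq_nonneg (v.im - w.im)]
  · right
    have h3 : (3 : ℝ) ≤ d := by exact_mod_cast hd3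
    have h4 : 6 / 5 ≤ w.im - v.im := by linarith
    nlinarith [sq_nonneg (v.re - w.re)]

/-- squared distances in `(0.8784, 1]` are avoided -/
lemma wall_gap (j : ℤ) : ∀ v ∈ wall j, ∀ w ∈ wall j, ‖v - w‖ ^ 2 ≤ 0.8784 ∨ 1 < ‖v - w‖ ^ 2 := by
  intro v hv w hw
  obtain ⟨⟨m, r⟩, hv'⟩ := mem_iUnion.1 hv
  obtain ⟨⟨m', r'⟩, hw'⟩ := mem_iUnion.1 hw
  rcases le_total r r' with h | h
  · exact wall_gap_aux j m r m' r' h hv' hw'
  · rw [norm_sub_rev]
    exact wall_gap_aux j m' r' m r h hw' hv'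

end Pool.Agent.N554.SL
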