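import Pool.Agent.N554.SL.Cross

/-!
The windows: a dense shell of the box with a fixed parity.
-/

set_option autoImplicit false

namespace Pool.Agent.N554.SL

open Finset

/-- the centre of the window -/
noncomputable def RR (κ T D j : ℕ) : ℝ :=
  4 * (κ : ℝ) ^ 2 * VV D - 8 * κ * (D : ℝ) ^ 2 + (2 * j + 1) * (κ * (D : ℝ) ^ 2 / (12 * T))

/-- the half-width of the window -/
noncomputable def ww (κ T D : ℕ) : ℝ := κ * (D : ℝ) ^ 2 / (12 * T)

/-- the `j`-th window is dense -/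
def Good (κ T D j : ℕ) : Prop :=
  ∃ W : Finset (Fin (4 * κ ^ 2) → Fi D), nn D ^ (4 * κ ^ 2) / (384 * T) ≤ #W ∧
    (∀ a ∈ W, |((sqz a : ℤ) : ℝ) - RR κ T D j| ≤ ww κ T D) ∧
    ∀ a ∈ W, ∀ b ∈ W, (2 : ℤ) ∣ sqz a + sqz b

lemma sqz_real {k D : ℕ} (a : Fin k → Fi D) : ((sqz a : ℤ) : ℝ) = ∑ j, xr D (a j) ^ 2 := by
  unfold sqz
  push_cast
  exact Finset.sum_congr rfl fun j _ => by rw [xr_eq]

lemma chebyshev {κ D : ℕ} (hD : 1 ≤ D) (hκ : 1 ≤ κ) :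
    (#{a : Fin (4 * κ ^ 2) → Fi D | 8 * κ * (D : ℝ) ^ 2 <
      |((sqz a : ℤ) : ℝ) - 4 * (κ : ℝ) ^ 2 * VV D|} : ℝ) ≤ nn D ^ (4 * κ ^ 2) / 16 := by
  classical
  have hD' : (1 : ℝ) ≤ D := by exact_mod_cast hD
  have hκ' : (1 : ℝ) ≤ κ := by exact_mod_cast hκ
  have hV0 := VV_nonneg D
  have hV := VV_le hD
  set φ : Fi D → ℝ := fun x => xr D x ^ 2 - VV D with hφ
  have hφ0 : ∑ x, φ x = 0 := by
    rw [hφ, Finset.sum_sub_distrib, sum_xr_sq, Finset.sum_const, nsmul_eq_mul, card_fin_nn]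
    ring
  have hφB : ∀ x, |φ x| ≤ (D : ℝ) ^ 2 := by
    intro x
    have h1 := xr_abs_le D x
    have h2 : xr D x ^ 2 ≤ (D : ℝ) ^ 2 := by
      rw [← sq_abs]; exact pow_le_pow_left₀ (abs_nonneg _) h1 2
    rw [hφ, abs_le]
    simp only
    constructor <;> nlinarith [sq_nonneg (xr D x)]
  have h1 := second_moment_le φ hφ0 (4 * κ ^ 2) hφB
  have h7 : (Fintype.card (Fi D) : ℝ) = nn D := by
    rw [← card_fin_nn, Finset.card_univ]
  rw [h7] at h1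
  have h2 : ∀ a : Fin (4 * κ ^ 2) → Fi D, ∑ j, φ (a j)
      = ((sqz a : ℤ) : ℝ) - 4 * (κ : ℝ) ^ 2 * VV D := by
    intro a
    rw [sqz_real, hφ, Finset.sum_sub_distrib, Finset.sum_const, nsmul_eq_mul, Finset.card_univ,
      Fintype.card_fin]
    push_cast
    ring
  set S := Finset.univ.filter (fun a : Fin (4 * κ ^ 2) → Fi D => 8 * κ * (D : ℝ) ^ 2 <
      |((sqz a : ℤ) : ℝ) - 4 * (κ : ℝ) ^ 2 * VV D|) with hS
  have h3 : (#S : ℝ) * (8 * κ * (D : ℝ) ^ 2) ^ 2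
      ≤ ∑ a : Fin (4 * κ ^ 2) → Fi D, (∑ j, φ (a j)) ^ 2 := by
    calc (#S : ℝ) * (8 * κ * (D : ℝ) ^ 2) ^ 2 = ∑ a ∈ S, (8 * κ * (D : ℝ) ^ 2) ^ 2 := by
          rw [Finset.sum_const, nsmul_eq_mul]
      _ ≤ ∑ a ∈ S, (∑ j, φ (a j)) ^ 2 := by
          refine Finset.sum_le_sum fun a ha => ?_
          rw [h2, ← sq_abs (((sqz a : ℤ) : ℝ) - _)]
          exact pow_le_pow_left₀ (by positivity) (Finset.mem_filter.1 ha).2.le 2
      _ ≤ ∑ a : Fin (4 * κ ^ 2) → Fi D, (∑ j, φ (a j)) ^ 2 :=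
          Finset.sum_le_sum_of_subset_of_nonneg (Finset.subset_univ _)
            fun _ _ _ => sq_nonneg _
  have h4 := h3.trans h1
  push_cast at h4
  have h5 : (0 : ℝ) < 4 * (κ : ℝ) ^ 2 * ((D : ℝ) ^ 2) ^ 2 := by positivity
  have h6 : (#S : ℝ) * 16 * (4 * (κ : ℝ) ^ 2 * ((D : ℝ) ^ 2) ^ 2)
      ≤ nn D ^ (4 * κ ^ 2) * (4 * (κ : ℝ) ^ 2 * ((D : ℝ) ^ 2) ^ 2) := by
    nlinarith
  have h8 := le_of_mul_le_mul_right h6 h5
  rw [le_div_iff₀ (by norm_num)]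
  exact h8

lemma window {κ T D : ℕ} (hD : 1 ≤ D) (hκ : 1 ≤ κ) (hT : 1 ≤ T) :
    ∃ j < 96 * T, Good κ T D j := by
  classical
  have hD' : (1 : ℝ) ≤ D := by exact_mod_cast hD
  have hκ' : (1 : ℝ) ≤ κ := by exact_mod_cast hκ
  have hT' : (1 : ℝ) ≤ T := by exact_mod_cast hT
  have hD0 : (0 : ℝ) < D := by linarith
  have hκ0 : (0 : ℝ) < κ := by linarith
  have hT0 : (0 : ℝ) < T := by linarith
  have hn := nn_pos D
  have hch := chebyshev (κ := κ) hD hκ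
  set V4 : ℝ := 4 * (κ : ℝ) ^ 2 * VV D with hV4
  set w : ℝ := κ * (D : ℝ) ^ 2 / (12 * T) with hw
  have hw0 : 0 < w := by positivity
  have h96 : 8 * κ * (D : ℝ) ^ 2 = 96 * T * w := by rw [hw]; field_simp; norm_num
  set G : Finset (Fin (4 * κ ^ 2) → Fi D) :=
    Finset.univ.filter (fun a => ¬ (8 * κ * (D : ℝ) ^ 2 < |((sqz a : ℤ) : ℝ) - V4|)) with hG
  have hGcard : nn D ^ (4 * κ ^ 2) / 2 ≤ #G := by
    have h1 := Finset.card_filter_add_card_filter_not (s := (Finset.univ :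
      Finset (Fin (4 * κ ^ 2) → Fi D))) (fun a => 8 * κ * (D : ℝ) ^ 2 < |((sqz a : ℤ) : ℝ) - V4|)
    have h2 : ((#(Finset.univ.filter (fun a : Fin (4 * κ ^ 2) → Fi D =>
      8 * κ * (D : ℝ) ^ 2 < |((sqz a : ℤ) : ℝ) - V4|)) : ℝ) + (#G : ℝ)) = nn D ^ (4 * κ ^ 2) := by
      rw [← card_box, ← Finset.card_univ, hG]
      exact_mod_cast h1
    have h3 : 0 ≤ nn D ^ (4 * κ ^ 2) := by positivity
    linarith
  set f : (Fin (4 * κ ^ 2) → Fi D) → ℕ × ℤ := fun a =>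
    (min ⌊(((sqz a : ℤ) : ℝ) - V4 + 8 * κ * (D : ℝ) ^ 2) / (2 * w)⌋₊ (96 * T - 1), sqz a % 2)
    with hf
  have hmap : ∀ a ∈ G, f a ∈ Finset.range (96 * T) ×ˢ ({0, 1} : Finset ℤ) := by
    intro a _
    rw [hf]
    simp only [Finset.mem_product, Finset.mem_range, Finset.mem_insert, Finset.mem_singleton]
    constructor
    · have := min_le_right ⌊(((sqz a : ℤ) : ℝ) - V4 + 8 * κ * (D : ℝ) ^ 2) / (2 * w)⌋₊ (96 * T - 1)
      omega
    · omega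
  obtain ⟨y, hy, hcard⟩ := Finset.exists_le_card_fiber_of_nsmul_le_card_of_maps_to
    (b := nn D ^ (4 * κ ^ 2) / (384 * T)) hmap
    ⟨(0, 0), by simp; omega⟩ (by
      refine le_trans (le_of_eq ?_) hGcard
      rw [Finset.card_product, Finset.card_range, nsmul_eq_mul,
        Finset.card_pair (by norm_num : (0 : ℤ) ≠ 1)]
      push_cast
      field_simp
      norm_num)
  rw [Finset.mem_product, Finset.mem_range] at hy
  refine ⟨y.1, hy.1, G.filter (fun a => f a = y), hcard, ?_, ?_⟩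
  · intro a ha
    rw [Finset.mem_filter] at ha
    obtain ⟨haG, hay⟩ := ha
    have h1 := (Finset.mem_filter.1 haG).2
    rw [not_lt, abs_le] at h1
    have h2 : min ⌊(((sqz a : ℤ) : ℝ) - V4 + 8 * κ * (D : ℝ) ^ 2) / (2 * w)⌋₊ (96 * T - 1) = y.1 := by
      rw [← hay]
    set q : ℝ := (((sqz a : ℤ) : ℝ) - V4 + 8 * κ * (D : ℝ) ^ 2) / (2 * w) with hq
    have hq0 : 0 ≤ q := by
      apply div_nonneg _ (by positivity)
      linarith [h1.1]
    have hq1 : q ≤ 96 * T := by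
      rw [hq, div_le_iff₀ (by positivity)]
      linarith [h1.2]
    have h3 : (y.1 : ℝ) ≤ q := by
      have : (y.1 : ℝ) ≤ (⌊q⌋₊ : ℝ) := by
        rw [← h2]
        exact_mod_cast min_le_left _ _
      exact this.trans (Nat.floor_le hq0)
    have h4 : q ≤ y.1 + 1 := by
      rcases min_choice ⌊q⌋₊ (96 * T - 1) with h | h
      · rw [h] at h2
        rw [← h2]
        exact (Nat.lt_floor_add_one q).le
      · rw [h] at h2
        rw [← h2, Nat.cast_sub (by omega)]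
        push_cast
        linarith
    have h5 : q * (2 * w) = ((sqz a : ℤ) : ℝ) - V4 + 8 * κ * (D : ℝ) ^ 2 := by
      rw [hq]; field_simp
    have h6 : (y.1 : ℝ) * (2 * w) ≤ q * (2 * w) := by gcongr
    have h7 : q * (2 * w) ≤ (y.1 + 1) * (2 * w) := by gcongr
    rw [h5] at h6 h7
    have h8 : RR κ T D y.1 = V4 - 8 * κ * (D : ℝ) ^ 2 + (2 * y.1 + 1) * w := rfl
    have h9 : ww κ T D = w := rfl
    rw [h8, h9, abs_le]
    constructor <;> linarith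
  · intro a ha b hb
    rw [Finset.mem_filter] at ha hb
    have h1 : sqz a % 2 = y.2 := by rw [← ha.2]
    have h2 : sqz b % 2 = y.2 := by rw [← hb.2]
    omega

lemma window_inf {κ T : ℕ} (hκ : 1 ≤ κ) (hT : 1 ≤ T) :
    ∃ j < 96 * T, ∀ D₀ : ℕ, ∃ D ≥ D₀, 1 ≤ D ∧ Good κ T D j := by
  classical
  by_contra hcon
  push Not at hcon
  choose! F hF using hcon
  set Dm := 1 + ∑ j ∈ Finset.range (96 * T), F j with hDm
  obtain ⟨j, hj, hgood⟩ := window (κ := κ) (T := T) (D := Dm) (by omega) hκ hT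
  refine hF j hj Dm ?_ (by omega) hgood
  have : F j ≤ ∑ j ∈ Finset.range (96 * T), F j :=
    Finset.single_le_sum (f := F) (fun _ _ => Nat.zero_le _) (Finset.mem_range.2 hj)
  omega

end Pool.Agent.N554.SL
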